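import Mathlib

/-!
Definitions for the perimeter-constrained minimization of the buckling eigenvalue.
-/

open MeasureTheory Set InnerProductSpace
open scoped ContDiff Gradient

namespace Pool.Agent.helper33.Buck

/-- `C_c^∞(Ω)`: smooth real functions on `ℝ^d` with compact support contained in `Ω`. -/
def TestFun {d : ℕ} (Ω : Set (EuclideanSpace ℝ (Fin d))) : Set (EuclideanSpace ℝ (Fin d) → ℝ) :=
  {u | ContDiff ℝ ∞ u ∧ HasCompactSupport u ∧ tsupport u ⊆ Ω}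

/-- The first buckling eigenvalue `Λ₁(Ω)`: the infimum of `∫ (Δu)² / ∫ |∇u|²` over the nonzero
`u ∈ C_c^∞(Ω)`. -/
noncomputable def buckling {d : ℕ} (Ω : Set (EuclideanSpace ℝ (Fin d))) : EReal :=
  ⨅ u ∈ {u | u ∈ TestFun Ω ∧ u ≠ 0},
    (((∫ x, Laplacian.laplacian u x ^ 2) / ∫ x, ‖∇ u x‖ ^ 2 : ℝ) : EReal)

/-- The divergence of a vector field on `ℝ^d`: the trace of its derivative. -/
noncomputable def divergence {d : ℕ}
    (φ : EuclideanSpace ℝ (Fin d) → EuclideanSpace ℝ (Fin d)) (x : EuclideanSpace ℝ (Fin d)) : ℝ :=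
  LinearMap.trace ℝ (EuclideanSpace ℝ (Fin d)) (fderiv ℝ φ x : EuclideanSpace ℝ (Fin d) →ₗ[ℝ] _)

/-- The De Giorgi perimeter: the supremum of `∫_E div φ` over the `C¹` fields `φ` with compact
support and `|φ| ≤ 1`. -/
noncomputable def perimeter {d : ℕ} (E : Set (EuclideanSpace ℝ (Fin d))) : EReal :=
  ⨆ φ ∈ {φ : EuclideanSpace ℝ (Fin d) → EuclideanSpace ℝ (Fin d) |
    ContDiff ℝ 1 φ ∧ HasCompactSupport φ ∧ ∀ x, ‖φ x‖ ≤ 1}, ((∫ x in E, divergence φ x : ℝ) : EReal)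

/-- `Ω` is an optimal shape: it is open, of finite measure and of perimeter at most `p`, and it
minimizes `Λ₁` among all such sets. -/
def IsOptimal {d : ℕ} (p : ℝ) (Ω : Set (EuclideanSpace ℝ (Fin d))) : Prop :=
  (IsOpen Ω ∧ volume Ω < ⊤ ∧ perimeter Ω ≤ p) ∧
    ∀ Ω' : Set (EuclideanSpace ℝ (Fin d)), IsOpen Ω' → volume Ω' < ⊤ → perimeter Ω' ≤ p →
      buckling Ω ≤ buckling Ω'

end Pool.Agent.helper33.Buck
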