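import Mathlib

/-!
Calculus on the Euclidean plane in an orthonormal frame: directional derivatives,
integration by parts for compactly supported functions.
-/

open MeasureTheory Set InnerProductSpace
open scoped ContDiff

namespace Pool.Agent.helper33.Buck

/-- The Euclidean plane. -/
abbrev E2 : Type := EuclideanSpace ℝ (Fin 2)

/-- derivative in direction `v` -/
noncomputable def D (v : E2) (f : E2 → ℝ) : E2 → ℝ := fun z => fderiv ℝ f z v

lemma D_smooth {f : E2 → ℝ} (hf : ContDiff ℝ ∞ f) (v : E2) : ContDiff ℝ ∞ (D v f) := by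
  unfold D
  exact (hf.fderiv_right (m := ∞) le_rfl).clm_apply contDiff_const

lemma D_add {f g : E2 → ℝ} (v : E2) (hf : Differentiable ℝ f) (hg : Differentiable ℝ g) :
    D v (fun z => f z + g z) = fun z => D v f z + D v g z := by
  funext z
  simp only [D]
  rw [fderiv_fun_add (hf z) (hg z)]
  rfl

lemma D_sub {f g : E2 → ℝ} (v : E2) (hf : Differentiable ℝ f) (hg : Differentiable ℝ g) :
    D v (fun z => f z - g z) = fun z => D v f z - D v g z := by
  funext z
  simp only [D]
  rw [fderiv_fun_sub (hf z) (hg z)]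
  rfl

lemma D_mul {f g : E2 → ℝ} (v : E2) (hf : Differentiable ℝ f) (hg : Differentiable ℝ g) :
    D v (fun z => f z * g z) = fun z => D v f z * g z + f z * D v g z := by
  funext z
  simp only [D]
  rw [fderiv_fun_mul (hf z) (hg z)]
  simp only [_root_.add_apply, _root_.smul_apply, smul_eq_mul]
  ring

lemma D_pow {f : E2 → ℝ} (v : E2) (n : ℕ) (hf : Differentiable ℝ f) :
    D v (fun z => f z ^ n) = fun z => n * f z ^ (n - 1) * D v f z := by
  funext z
  simp only [D]
  rw [fderiv_fun_pow n (hf z)]
  simp [mul_assoc]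

lemma D_const (v : E2) (c : ℝ) : D v (fun _ => c) = fun _ => 0 := by
  funext z
  simp [D]

lemma D_comp {f : E2 → ℝ} {g : ℝ → ℝ} (v : E2) (hg : Differentiable ℝ g)
    (hf : Differentiable ℝ f) :
    D v (fun z => g (f z)) = fun z => deriv g (f z) * D v f z := by
  funext z
  simp only [D]
  have h := ((hg (f z)).hasDerivAt.comp_hasFDerivAt z (hf z).hasFDerivAt)
  have h2 : fderiv ℝ (fun z => g (f z)) z = deriv g (f z) • fderiv ℝ f z := h.fderiv
  rw [h2]
  simp

lemma D_comm {f : E2 → ℝ} (hf : ContDiff ℝ ∞ f) (v w : E2) : D v (D w f) = D w (D v f) := by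
  funext z
  have h1 : ∀ a b : E2, D a (D b f) z = fderiv ℝ (fderiv ℝ f) z a b := by
    intro a b
    have hd : DifferentiableAt ℝ (fderiv ℝ f) z :=
      ((hf.fderiv_right (m := ∞) le_rfl).differentiable (by simp)) z
    change fderiv ℝ (fun z => fderiv ℝ f z b) z a = _
    rw [fderiv_clm_apply hd (by fun_prop)]
    simp
  rw [h1, h1]
  have hs : IsSymmSndFDerivAt ℝ f z := by
    apply (hf.contDiffAt).isSymmSndFDerivAt
    simp only [minSmoothness_of_isRCLikeNormedField]
    exact ENat.LEInfty.out
  exact hs v w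

/-- affine coordinate -/
noncomputable def lin (b x₀ : E2) : E2 → ℝ := fun z => inner ℝ b (z - x₀)

lemma lin_smooth (b x₀ : E2) : ContDiff ℝ ∞ (lin b x₀) := by
  unfold lin
  exact (innerSL ℝ b).contDiff.comp (contDiff_id.sub contDiff_const)

lemma lin_diff (b x₀ : E2) : Differentiable ℝ (lin b x₀) :=
  (lin_smooth b x₀).differentiable (by simp)

lemma D_lin (v b x₀ : E2) : D v (lin b x₀) = fun _ => inner ℝ b v := by
  funext z
  have h : HasFDerivAt (fun z : E2 => inner ℝ b (z - x₀)) (innerSL ℝ b) z := by
    have := (innerSL ℝ b).hasFDerivAt (x := z - x₀)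
    have h2 : HasFDerivAt (fun z : E2 => z - x₀) (ContinuousLinearMap.id ℝ E2) z :=
      (hasFDerivAt_id z).sub_const x₀
    have h3 := this.comp z h2
    simpa [Function.comp_def] using h3
  change fderiv ℝ (fun z : E2 => inner ℝ b (z - x₀)) z v = _
  rw [h.fderiv]
  simp

/-- integral of a derivative of a compactly supported function vanishes -/
lemma int_D {F : E2 → ℝ} (v : E2) (hF : ContDiff ℝ 1 F) (hc : HasCompactSupport F) :
    ∫ z, D v F z = 0 := by
  have hcont : Continuous (fun z => fderiv ℝ F z v) :=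
    (hF.continuous_fderiv (by simp)).clm_apply continuous_const
  have h := integral_mul_fderiv_eq_neg_fderiv_mul_of_integrable (μ := (volume : Measure E2))
    (f := fun _ : E2 => (1 : ℝ)) (g := F) (v := v) ?_ ?_ ?_ ?_ ?_
  · simpa [D] using h
  · simp
  · simp only [one_mul]
    exact hcont.integrable_of_hasCompactSupport (hc.fderiv_apply (𝕜 := ℝ) v)
  · simp only [one_mul]
    exact hF.continuous.integrable_of_hasCompactSupport hc
  · intro x _; fun_prop
  · intro x _; exact (hF.differentiable (by simp)) x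

lemma integrable_of_zero {F : E2 → ℝ} (hF : Continuous F) {K : Set E2} (hK : IsCompact K)
    (h0 : ∀ z, z ∉ K → F z = 0) : Integrable F :=
  hF.integrable_of_hasCompactSupport (HasCompactSupport.intro hK h0)

end Pool.Agent.helper33.Buck
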