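import Mathlib
import Pool.Agent.helper33.Buck.Calc

/-!
The weighted identity.
-/

open MeasureTheory Set InnerProductSpace
open scoped ContDiff

namespace Pool.Agent.helper33.Buck

variable (b : OrthonormalBasis (Fin 2) ℝ E2) (x₀ : E2)

/-- the Laplacian in the frame `b` -/
noncomputable def lap (f : E2 → ℝ) : E2 → ℝ :=
  fun z => D (b 0) (D (b 0) f) z + D (b 1) (D (b 1) f) z

/-- first coordinate -/
noncomputable def X : E2 → ℝ := lin (b 0) x₀
/-- second coordinate -/
noncomputable def Y : E2 → ℝ := lin (b 1) x₀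

lemma X_smooth : ContDiff ℝ ∞ (X b x₀) := lin_smooth _ _
lemma Y_smooth : ContDiff ℝ ∞ (Y b x₀) := lin_smooth _ _

lemma D0X : D (b 0) (X b x₀) = fun _ => 1 := by
  unfold X; rw [D_lin]; simp
lemma D1X : D (b 1) (X b x₀) = fun _ => 0 := by
  unfold X; rw [D_lin]; simp
lemma D0Y : D (b 0) (Y b x₀) = fun _ => 0 := by
  unfold Y; rw [D_lin]; simp
lemma D1Y : D (b 1) (Y b x₀) = fun _ => 1 := by
  unfold Y; rw [D_lin]; simp

lemma lap_X3 {q : E2 → ℝ} (hq : ContDiff ℝ ∞ q) :
    lap b (fun z => X b x₀ z ^ 3 * q z) = fun z => 6 * X b x₀ z * q z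
      + 6 * X b x₀ z ^ 2 * D (b 0) q z + X b x₀ z ^ 3 * lap b q z := by
  have hX : Differentiable ℝ (X b x₀) := (X_smooth b x₀).differentiable (by simp)
  have h0 : Differentiable ℝ q := hq.differentiable (by simp)
  have h1 : Differentiable ℝ (D (b 0) q) := (D_smooth hq _).differentiable (by simp)
  have h2 : Differentiable ℝ (D (b 1) q) := (D_smooth hq _).differentiable (by simp)
  funext z
  simp only [lap]
  simp (disch := fun_prop) only [D_mul, D_add, D_pow, D0X, D1X, D_const]
  norm_num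
  ring


/-- vanishing of `D v q` outside the support -/
lemma D_zero {q : E2 → ℝ} {z : E2} (v : E2) (hz : z ∉ tsupport q) : D v q z = 0 := by
  have h : q =ᶠ[nhds z] fun _ => 0 := notMem_tsupport_iff_eventuallyEq.mp hz
  simp only [D]
  rw [h.fderiv_eq]
  simp

lemma tsupport_D {q : E2 → ℝ} (v : E2) : tsupport (D v q) ⊆ tsupport q := by
  apply closure_minimal _ (isClosed_tsupport q)
  intro z hz
  by_contra h
  exact hz (D_zero v h)

lemma DD_zero {q : E2 → ℝ} {z : E2} (v w : E2) (hz : z ∉ tsupport q) : D v (D w q) z = 0 :=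
  D_zero v (fun h => hz (tsupport_D w h))

lemma q_zero {q : E2 → ℝ} {z : E2} (hz : z ∉ tsupport q) : q z = 0 :=
  image_eq_zero_of_notMem_tsupport hz

lemma ident {q : E2 → ℝ} (hq : ContDiff ℝ ∞ q) (hc : HasCompactSupport q) :
    ∫ z, lap b (fun z => X b x₀ z ^ 3 * q z) z * lap b (fun z => X b x₀ z ^ 2 * q z) z
      = ∫ z, (X b x₀ z ^ 3 * (lap b (fun z => X b x₀ z * q z) z) ^ 2
          + 4 * (X b x₀ z ^ 3 * D (b 1) q z ^ 2)) := by
  have hX : Differentiable ℝ (X b x₀) := (X_smooth b x₀).differentiable (by simp)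
  have h0 : Differentiable ℝ q := hq.differentiable (by simp)
  have h1 : Differentiable ℝ (D (b 0) q) := (D_smooth hq _).differentiable (by simp)
  have h2 : Differentiable ℝ (D (b 1) q) := (D_smooth hq _).differentiable (by simp)
  have e1 : lap b (fun z => X b x₀ z ^ 3 * q z) = fun z => 6 * X b x₀ z * q z
      + 6 * X b x₀ z ^ 2 * D (b 0) q z + X b x₀ z ^ 3 * lap b q z := by
    funext z
    simp only [lap]
    simp (disch := fun_prop) only [D_mul, D_add, D_pow, D0X, D1X, D_const]
    norm_num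
    ring
  have e2 : lap b (fun z => X b x₀ z ^ 2 * q z) = fun z => 2 * q z
      + 4 * X b x₀ z * D (b 0) q z + X b x₀ z ^ 2 * lap b q z := by
    funext z
    simp only [lap]
    simp (disch := fun_prop) only [D_mul, D_add, D_pow, D0X, D1X, D_const]
    norm_num
    ring
  have e3 : lap b (fun z => X b x₀ z * q z) = fun z => 2 * D (b 0) q z
      + X b x₀ z * lap b q z := by
    funext z
    simp only [lap]
    simp (disch := fun_prop) only [D_mul, D_add, D0X, D1X, D_const]
    norm_num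
    ring
  rw [e1, e2, e3]
  -- the two components of the divergence
  set F₁ : E2 → ℝ := fun z => 3 * X b x₀ z ^ 2 * (q z + X b x₀ z * D (b 0) q z) ^ 2
    - 3 * X b x₀ z ^ 4 * D (b 1) q z ^ 2
    + 2 * X b x₀ z ^ 2 * q z * (q z + X b x₀ z * D (b 0) q z)
    + X b x₀ z ^ 2 * q z ^ 2 with hF₁
  set F₂ : E2 → ℝ := fun z => 6 * X b x₀ z ^ 3 * (q z + X b x₀ z * D (b 0) q z) * D (b 1) q z
    + 2 * X b x₀ z ^ 3 * q z * D (b 1) q z with hF₂
  have hXs := X_smooth b x₀
  have hs1 := D_smooth hq (b 0)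
  have hs2 := D_smooth hq (b 1)
  have hF₁s : ContDiff ℝ ∞ F₁ := by rw [hF₁]; fun_prop
  have hF₂s : ContDiff ℝ ∞ F₂ := by rw [hF₂]; fun_prop
  have hF₁c : HasCompactSupport F₁ := HasCompactSupport.intro hc (fun z hz => by
    simp [hF₁, q_zero hz, D_zero _ hz])
  have hF₂c : HasCompactSupport F₂ := HasCompactSupport.intro hc (fun z hz => by
    simp [hF₂, q_zero hz, D_zero _ hz])
  have i1 := int_D (b 0) (hF₁s.of_le (by simp)) hF₁c
  have i2 := int_D (b 1) (hF₂s.of_le (by simp)) hF₂c
  have c11 := (D_smooth hs1 (b 0)).continuous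
  have c22 := (D_smooth hs2 (b 1)).continuous
  have c1 := hs1.continuous
  have c2 := hs2.continuous
  have c0 := hq.continuous
  have cX := hXs.continuous
  have key : ∀ z, (6 * X b x₀ z * q z
      + 6 * X b x₀ z ^ 2 * D (b 0) q z + X b x₀ z ^ 3 * lap b q z) * (2 * q z
      + 4 * X b x₀ z * D (b 0) q z + X b x₀ z ^ 2 * lap b q z)
      - (X b x₀ z ^ 3 * (2 * D (b 0) q z + X b x₀ z * lap b q z) ^ 2
          + 4 * (X b x₀ z ^ 3 * D (b 1) q z ^ 2)) = D (b 0) F₁ z + D (b 1) F₂ z := by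
    intro z
    rw [hF₁, hF₂]
    simp (disch := fun_prop) only [D_mul, D_add, D_sub, D_pow, D0X, D1X, D_const]
    have hcomm : D (b 1) (D (b 0) q) z = D (b 0) (D (b 1) q) z := by
      rw [D_comm hq]
    rw [hcomm]
    simp only [lap]
    norm_num
    ring
  rw [← sub_eq_zero, ← integral_sub]
  · simp_rw [key]
    rw [integral_add, i1, i2]
    · simp
    · exact integrable_of_zero (D_smooth hF₁s _).continuous hF₁c (fun z hz => D_zero _ hz)
    · exact integrable_of_zero (D_smooth hF₂s _).continuous hF₂c (fun z hz => D_zero _ hz)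
  · apply integrable_of_zero _ hc
    · intro z hz
      simp [q_zero hz, D_zero _ hz, DD_zero _ _ hz, lap]
    · simp only [lap]; fun_prop
  · apply integrable_of_zero _ hc
    · intro z hz
      simp [q_zero hz, D_zero _ hz, DD_zero _ _ hz, lap]
    · simp only [lap]; fun_prop

end Pool.Agent.helper33.Buck
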