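import Mathlib
import Pool.Agent.helper33.Buck.Ident

/-!
Weighted coercivity in a sector.
-/

open MeasureTheory Set InnerProductSpace
open scoped ContDiff

namespace Pool.Agent.helper33.Buck

variable (b : OrthonormalBasis (Fin 2) ℝ E2) (x₀ : E2)

/-- weighted density of the squared gradient of `X ^ 3 * q` -/
noncomputable def W1 (q : E2 → ℝ) : E2 → ℝ := fun z =>
  X b x₀ z * (3 * q z + X b x₀ z * D (b 0) q z) ^ 2 + X b x₀ z ^ 3 * D (b 1) q z ^ 2

/-- weighted density of the square of `X ^ 3 * q` -/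
noncomputable def W0 (q : E2 → ℝ) : E2 → ℝ := fun z => X b x₀ z * q z ^ 2

/-- the weighted energy -/
noncomputable def En (q : E2 → ℝ) : ℝ :=
  ∫ z, lap b (fun z => X b x₀ z ^ 3 * q z) z * lap b (fun z => X b x₀ z ^ 2 * q z) z

lemma lapX {q : E2 → ℝ} (hq : ContDiff ℝ ∞ q) :
    lap b (fun z => X b x₀ z * q z) = fun z => 2 * D (b 0) q z + X b x₀ z * lap b q z := by
  have hX : Differentiable ℝ (X b x₀) := (X_smooth b x₀).differentiable (by simp)
  have h0 : Differentiable ℝ q := hq.differentiable (by simp)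
  have h1 : Differentiable ℝ (D (b 0) q) := (D_smooth hq _).differentiable (by simp)
  have h2 : Differentiable ℝ (D (b 1) q) := (D_smooth hq _).differentiable (by simp)
  funext z
  simp only [lap]
  simp (disch := fun_prop) only [D_mul, D_add, D0X, D1X, D_const]
  norm_num
  ring

lemma coer {q : E2 → ℝ} (hq : ContDiff ℝ ∞ q) (hc : HasCompactSupport q) {m : ℝ}
    (hsec : ∀ z ∈ tsupport q, 0 < X b x₀ z ∧ |Y b x₀ z| ≤ m * X b x₀ z) :
    ∫ z, W0 b x₀ q z ≤ m ^ 2 * En b x₀ q ∧ ∫ z, W1 b x₀ q z ≤ (9 * m ^ 2 + 1) * En b x₀ q := by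
  have hX : Differentiable ℝ (X b x₀) := (X_smooth b x₀).differentiable (by simp)
  have hY : Differentiable ℝ (Y b x₀) := (Y_smooth b x₀).differentiable (by simp)
  have h0 : Differentiable ℝ q := hq.differentiable (by simp)
  have h1 : Differentiable ℝ (D (b 0) q) := (D_smooth hq _).differentiable (by simp)
  have h2 : Differentiable ℝ (D (b 1) q) := (D_smooth hq _).differentiable (by simp)
  have hXs := X_smooth b x₀
  have hYs := Y_smooth b x₀
  have hs1 := D_smooth hq (b 0)
  have hs2 := D_smooth hq (b 1)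
  have c11 := (D_smooth hs1 (b 0)).continuous
  have c22 := (D_smooth hs2 (b 1)).continuous
  have c1 := hs1.continuous
  have c2 := hs2.continuous
  have c0 := hq.continuous
  have cX := hXs.continuous
  have cY := hYs.continuous
  have eI : En b x₀ q = ∫ z, (X b x₀ z ^ 3 * (lap b (fun z => X b x₀ z * q z) z) ^ 2
          + 4 * (X b x₀ z ^ 3 * D (b 1) q z ^ 2)) := ident b x₀ hq hc
  rw [lapX b x₀ hq] at eI
  -- integrability facts
  have int0 : Integrable (fun z => X b x₀ z * q z ^ 2) :=
    integrable_of_zero (by fun_prop) hc (fun z hz => by simp [q_zero hz])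
  have int2 : Integrable (fun z => X b x₀ z ^ 3 * D (b 1) q z ^ 2) :=
    integrable_of_zero (by fun_prop) hc (fun z hz => by simp [D_zero _ hz])
  have intL : Integrable (fun z => X b x₀ z ^ 3 *
      (2 * D (b 0) q z + X b x₀ z * lap b q z) ^ 2) :=
    integrable_of_zero (by simp only [lap]; fun_prop) hc
      (fun z hz => by simp [D_zero _ hz, DD_zero _ _ hz, lap])
  have intV : Integrable (fun z => X b x₀ z * (q z + X b x₀ z * D (b 0) q z) ^ 2
      + X b x₀ z ^ 3 * D (b 1) q z ^ 2) :=
    integrable_of_zero (by fun_prop) hc (fun z hz => by simp [D_zero _ hz, q_zero hz])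
  have intW1 : Integrable (W1 b x₀ q) :=
    integrable_of_zero (by unfold W1; fun_prop) hc
      (fun z hz => by simp [D_zero _ hz, q_zero hz, W1])
  set J0 := ∫ z, X b x₀ z * q z ^ 2 with hJ0
  set J2 := ∫ z, X b x₀ z ^ 3 * D (b 1) q z ^ 2 with hJ2
  set JL := ∫ z, X b x₀ z ^ 3 * (2 * D (b 0) q z + X b x₀ z * lap b q z) ^ 2 with hJL
  set JV := ∫ z, (X b x₀ z * (q z + X b x₀ z * D (b 0) q z) ^ 2
      + X b x₀ z ^ 3 * D (b 1) q z ^ 2) with hJV
  have eI2 : En b x₀ q = JL + 4 * J2 := by
    rw [eI, integral_add intL (int2.const_mul 4), integral_const_mul]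
  -- nonnegativity
  have nonneg_of : ∀ F : E2 → ℝ, (∀ z ∈ tsupport q, 0 ≤ F z) → (∀ z, z ∉ tsupport q → F z = 0) →
      0 ≤ ∫ z, F z := by
    intro F h1 h2
    apply integral_nonneg
    intro z
    by_cases hz : z ∈ tsupport q
    · exact h1 z hz
    · simp [h2 z hz]
  have hJL0 : 0 ≤ JL := nonneg_of _ (fun z hz => by
    have := (hsec z hz).1
    positivity) (fun z hz => by simp [D_zero _ hz, DD_zero _ _ hz, lap])
  have hJ20 : 0 ≤ J2 := nonneg_of _ (fun z hz => by
    have := (hsec z hz).1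
    positivity) (fun z hz => by simp [D_zero _ hz])
  -- first estimate : Poincare in the second variable
  have est0 : J0 ≤ 4 * m ^ 2 * J2 := by
    set F : E2 → ℝ := fun z => X b x₀ z * Y b x₀ z * q z ^ 2 with hF
    have hFs : ContDiff ℝ ∞ F := by rw [hF]; fun_prop
    have hFc : HasCompactSupport F := HasCompactSupport.intro hc (fun z hz => by
      simp [hF, q_zero hz])
    have i := int_D (b 1) (hFs.of_le (by simp)) hFc
    have e : D (b 1) F = fun z => X b x₀ z * q z ^ 2
        + 2 * X b x₀ z * Y b x₀ z * q z * D (b 1) q z := by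
      rw [hF]
      simp (disch := fun_prop) only [D_mul, D_add, D_pow, D0X, D1X, D1Y, D_const]
      funext z
      norm_num
      ring
    rw [e] at i
    have hh : 0 ≤ ∫ z, ((X b x₀ z * q z ^ 2 + 2 * X b x₀ z * Y b x₀ z * q z * D (b 1) q z)
        - ((1/2) * (X b x₀ z * q z ^ 2) - 2 * m ^ 2 * (X b x₀ z ^ 3 * D (b 1) q z ^ 2))) := by
      apply nonneg_of
      · intro z hz
        obtain ⟨hx, hy⟩ := hsec z hz
        have hy2 : Y b x₀ z ^ 2 ≤ m ^ 2 * X b x₀ z ^ 2 := by
          have := sq_abs (Y b x₀ z)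
          rw [← this, ← mul_pow]
          exact pow_le_pow_left₀ (abs_nonneg _) hy 2
        have t1 : 0 ≤ X b x₀ z * (q z + 2 * Y b x₀ z * D (b 1) q z) ^ 2 := by positivity
        have t2 : 0 ≤ X b x₀ z * D (b 1) q z ^ 2 * (m ^ 2 * X b x₀ z ^ 2 - Y b x₀ z ^ 2) :=
          mul_nonneg (by positivity) (by linarith)
        nlinarith [t1, t2]
      · intro z hz
        simp [q_zero hz, D_zero _ hz]
    rw [integral_sub, integral_sub, integral_const_mul, integral_const_mul, i] at hh
    · linarith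
    · exact int0.const_mul _
    · exact int2.const_mul _
    · exact integrable_of_zero (by fun_prop) hc (fun z hz => by simp [q_zero hz])
    · exact (int0.const_mul _).sub (int2.const_mul _)
  -- second estimate
  have est1 : JV ≤ (1/2) * J0 + (1/2) * JL := by
    set F₁ : E2 → ℝ := fun z => X b x₀ z ^ 2 * q z * (q z + X b x₀ z * D (b 0) q z)
      - (1/2) * X b x₀ z ^ 2 * q z ^ 2 with hF₁
    set F₂ : E2 → ℝ := fun z => X b x₀ z ^ 3 * q z * D (b 1) q z with hF₂
    have hF₁s : ContDiff ℝ ∞ F₁ := by rw [hF₁]; fun_prop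
    have hF₂s : ContDiff ℝ ∞ F₂ := by rw [hF₂]; fun_prop
    have hF₁c : HasCompactSupport F₁ := HasCompactSupport.intro hc (fun z hz => by
      simp [hF₁, q_zero hz])
    have hF₂c : HasCompactSupport F₂ := HasCompactSupport.intro hc (fun z hz => by
      simp [hF₂, q_zero hz])
    have i1 := int_D (b 0) (hF₁s.of_le (by simp)) hF₁c
    have i2 := int_D (b 1) (hF₂s.of_le (by simp)) hF₂c
    have i : ∫ z, (D (b 0) F₁ z + D (b 1) F₂ z) = 0 := by
      rw [integral_add, i1, i2]
      · simp
      · exact integrable_of_zero (D_smooth hF₁s _).continuous hF₁c (fun z hz => D_zero _ hz)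
      · exact integrable_of_zero (D_smooth hF₂s _).continuous hF₂c (fun z hz => D_zero _ hz)
    have e : ∀ z, D (b 0) F₁ z + D (b 1) F₂ z = (X b x₀ z * (q z + X b x₀ z * D (b 0) q z) ^ 2
      + X b x₀ z ^ 3 * D (b 1) q z ^ 2)
        + X b x₀ z ^ 2 * q z * (2 * D (b 0) q z + X b x₀ z * lap b q z) := by
      intro z
      rw [hF₁, hF₂]
      simp (disch := fun_prop) only [D_mul, D_add, D_sub, D_pow, D0X, D1X, D_const, lap]
      norm_num
      ring
    simp_rw [e] at i
    have hh : 0 ≤ ∫ z, (((X b x₀ z * (q z + X b x₀ z * D (b 0) q z) ^ 2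
      + X b x₀ z ^ 3 * D (b 1) q z ^ 2)
        + X b x₀ z ^ 2 * q z * (2 * D (b 0) q z + X b x₀ z * lap b q z))
        - ((X b x₀ z * (q z + X b x₀ z * D (b 0) q z) ^ 2
      + X b x₀ z ^ 3 * D (b 1) q z ^ 2) - (1/2) * (X b x₀ z * q z ^ 2)
        - (1/2) * (X b x₀ z ^ 3 * (2 * D (b 0) q z + X b x₀ z * lap b q z) ^ 2))) := by
      apply nonneg_of
      · intro z hz
        obtain ⟨hx, hy⟩ := hsec z hz
        have t1 : 0 ≤ X b x₀ z * (q z + X b x₀ z *
          (2 * D (b 0) q z + X b x₀ z * lap b q z)) ^ 2 := by positivity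
        nlinarith [t1]
      · intro z hz
        simp [q_zero hz, D_zero _ hz, DD_zero _ _ hz, lap]
    rw [integral_sub, integral_sub, integral_sub, integral_const_mul, integral_const_mul, i] at hh
    · linarith
    · exact intV
    · exact int0.const_mul _
    · exact intV.sub (int0.const_mul _)
    · exact intL.const_mul _
    · exact integrable_of_zero (by simp only [lap]; fun_prop) hc
        (fun z hz => by simp [q_zero hz, D_zero _ hz])
    · exact (intV.sub (int0.const_mul _)).sub (intL.const_mul _)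
  have est2 : ∫ z, W1 b x₀ q z ≤ 8 * J0 + 2 * JV := by
    have hh : 0 ≤ ∫ z, ((8 * (X b x₀ z * q z ^ 2) + 2 * (X b x₀ z *
      (q z + X b x₀ z * D (b 0) q z) ^ 2 + X b x₀ z ^ 3 * D (b 1) q z ^ 2)) - W1 b x₀ q z) := by
      apply nonneg_of
      · intro z hz
        obtain ⟨hx, hy⟩ := hsec z hz
        have t1 : 0 ≤ X b x₀ z * (q z - X b x₀ z * D (b 0) q z) ^ 2 := by positivity
        have t2 : 0 ≤ X b x₀ z ^ 3 * D (b 1) q z ^ 2 := by positivity
        simp only [W1]
        nlinarith [t1, t2]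
      · intro z hz
        simp [q_zero hz, D_zero _ hz, W1]
    rw [integral_sub, integral_add, integral_const_mul, integral_const_mul] at hh
    · linarith
    · exact int0.const_mul _
    · exact intV.const_mul _
    · exact (int0.const_mul _).add (intV.const_mul _)
    · exact intW1
  constructor
  · have : ∫ z, W0 b x₀ q z = J0 := rfl
    rw [this, eI2]
    nlinarith [sq_nonneg m, mul_nonneg (sq_nonneg m) hJL0]
  · rw [eI2]
    nlinarith [sq_nonneg m, mul_nonneg (sq_nonneg m) hJL0]

end Pool.Agent.helper33.Buck
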