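import Mathlib
import Pool.Agent.helper33.Buck.Coer

/-!
The two quadratic forms, near-minimizers and the localization formula.
-/

open MeasureTheory Set InnerProductSpace
open scoped ContDiff

namespace Pool.Agent.helper33.Buck

variable (b : OrthonormalBasis (Fin 2) ℝ E2) (x₀ : E2)

/-- smooth function with compact support in `U` -/
def Tst (U : Set E2) (u : E2 → ℝ) : Prop :=
  ContDiff ℝ ∞ u ∧ HasCompactSupport u ∧ tsupport u ⊆ U

lemma Tst.mono {U V : Set E2} {u : E2 → ℝ} (h : Tst U u) (hUV : U ⊆ V) : Tst V u :=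
  ⟨h.1, h.2.1, h.2.2.trans hUV⟩

/-- multiplying a test function with a smooth function -/
lemma Tst.mul {U : Set E2} {u f : E2 → ℝ} (h : Tst U u) (hf : ContDiff ℝ ∞ f) :
    Tst U (fun z => f z * u z) := by
  refine ⟨hf.mul h.1, HasCompactSupport.intro h.2.1 (fun z hz => by simp [q_zero hz]), ?_⟩
  refine Subset.trans ?_ h.2.2
  apply closure_minimal _ (isClosed_tsupport u)
  intro z hz
  by_contra h'
  exact hz (by simp [q_zero h'])

/-- the bilinear form of the bilaplacian -/
noncomputable def AA (f g : E2 → ℝ) : ℝ := ∫ z, lap b f z * lap b g z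
/-- the Dirichlet form -/
noncomputable def GG (f g : E2 → ℝ) : ℝ :=
  ∫ z, (D (b 0) f z * D (b 0) g z + D (b 1) f z * D (b 1) g z)

lemma lap_smooth {f : E2 → ℝ} (hf : ContDiff ℝ ∞ f) : ContDiff ℝ ∞ (lap b f) := by
  have h1 := D_smooth (D_smooth hf (b 0)) (b 0)
  have h2 := D_smooth (D_smooth hf (b 1)) (b 1)
  unfold lap
  fun_prop

lemma lap_zero {f : E2 → ℝ} {z : E2} (hz : z ∉ tsupport f) : lap b f z = 0 := by
  simp [lap, DD_zero _ _ hz]

lemma AA_int {f g : E2 → ℝ} (hf : ContDiff ℝ ∞ f) (hfc : HasCompactSupport f)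
    (hg : ContDiff ℝ ∞ g) : Integrable (fun z => lap b f z * lap b g z) := by
  have h1 := (lap_smooth b hf).continuous
  have h2 := (lap_smooth b hg).continuous
  exact integrable_of_zero (by fun_prop) hfc (fun z hz => by simp [lap_zero b hz])

lemma GG_int {f g : E2 → ℝ} (hf : ContDiff ℝ ∞ f) (hfc : HasCompactSupport f)
    (hg : ContDiff ℝ ∞ g) :
    Integrable (fun z => D (b 0) f z * D (b 0) g z + D (b 1) f z * D (b 1) g z) := by
  have h1 := (D_smooth hf (b 0)).continuous
  have h2 := (D_smooth hf (b 1)).continuous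
  have h3 := (D_smooth hg (b 0)).continuous
  have h4 := (D_smooth hg (b 1)).continuous
  exact integrable_of_zero (by fun_prop) hfc (fun z hz => by simp [D_zero _ hz])

lemma lap_sub_smul {f g : E2 → ℝ} (hf : ContDiff ℝ ∞ f) (hg : ContDiff ℝ ∞ g) (t : ℝ) :
    lap b (fun z => f z - t * g z) = fun z => lap b f z - t * lap b g z := by
  have h0 : Differentiable ℝ f := hf.differentiable (by simp)
  have h1 : Differentiable ℝ (D (b 0) f) := (D_smooth hf _).differentiable (by simp)
  have h2 : Differentiable ℝ (D (b 1) f) := (D_smooth hf _).differentiable (by simp)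
  have k0 : Differentiable ℝ g := hg.differentiable (by simp)
  have k1 : Differentiable ℝ (D (b 0) g) := (D_smooth hg _).differentiable (by simp)
  have k2 : Differentiable ℝ (D (b 1) g) := (D_smooth hg _).differentiable (by simp)
  funext z
  simp only [lap]
  simp (disch := fun_prop) only [D_mul, D_sub, D_add, D_const]
  ring

lemma AA_expand {u w : E2 → ℝ} {U : Set E2} (hu : Tst U u) (hw : Tst U w) (t : ℝ) :
    AA b (fun z => u z - t * w z) (fun z => u z - t * w z)
      = AA b u u - 2 * t * AA b u w + t ^ 2 * AA b w w := by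
  simp only [AA]
  rw [lap_sub_smul b hu.1 hw.1]
  rw [← integral_const_mul, ← integral_const_mul, ← integral_sub, ← integral_add]
  · congr 1
    funext z
    ring
  · exact (AA_int b hu.1 hu.2.1 hu.1).sub ((AA_int b hu.1 hu.2.1 hw.1).const_mul _)
  · exact (AA_int b hw.1 hw.2.1 hw.1).const_mul _
  · exact AA_int b hu.1 hu.2.1 hu.1
  · exact (AA_int b hu.1 hu.2.1 hw.1).const_mul _

lemma GG_expand {u w : E2 → ℝ} {U : Set E2} (hu : Tst U u) (hw : Tst U w) (t : ℝ) :
    GG b (fun z => u z - t * w z) (fun z => u z - t * w z)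
      = GG b u u - 2 * t * GG b u w + t ^ 2 * GG b w w := by
  have h0 : Differentiable ℝ u := hu.1.differentiable (by simp)
  have k0 : Differentiable ℝ w := hw.1.differentiable (by simp)
  simp only [GG]
  rw [← integral_const_mul, ← integral_const_mul, ← integral_sub, ← integral_add]
  · congr 1
    funext z
    simp (disch := fun_prop) only [D_mul, D_sub, D_const]
    ring
  · exact (GG_int b hu.1 hu.2.1 hu.1).sub ((GG_int b hu.1 hu.2.1 hw.1).const_mul _)
  · exact (GG_int b hw.1 hw.2.1 hw.1).const_mul _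
  · exact GG_int b hu.1 hu.2.1 hu.1
  · exact (GG_int b hu.1 hu.2.1 hw.1).const_mul _

lemma AA_nonneg (f : E2 → ℝ) : 0 ≤ AA b f f :=
  integral_nonneg (fun _ => mul_self_nonneg _)

lemma GG_nonneg (f : E2 → ℝ) : 0 ≤ GG b f f :=
  integral_nonneg (fun _ => add_nonneg (mul_self_nonneg _) (mul_self_nonneg _))

/-- test functions are closed under linear combinations -/
lemma Tst.sub_smul {U : Set E2} {u w : E2 → ℝ} (hu : Tst U u) (hw : Tst U w) (t : ℝ) :
    Tst U (fun z => u z - t * w z) := by
  have h1 := hu.1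
  have h2 := hw.1
  refine ⟨by fun_prop, ?_, ?_⟩
  · exact HasCompactSupport.intro (hu.2.1.isCompact.union hw.2.1.isCompact) (fun z hz => by
      simp only [mem_union, not_or] at hz
      simp [q_zero hz.1, q_zero hz.2])
  · refine Subset.trans ?_ (union_subset hu.2.2 hw.2.2)
    apply closure_minimal _ ((isClosed_tsupport u).union (isClosed_tsupport w))
    intro z hz
    by_contra h
    simp only [mem_union, not_or] at h
    exact hz (by simp [q_zero h.1, q_zero h.2])

/-- first order condition for near-minimizers -/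
lemma near_EL {U : Set E2} {u w : E2 → ℝ} {l th t M : ℝ} (hl : 0 ≤ l)
    (hmin : ∀ f, Tst U f → l * GG b f f ≤ AA b f f) (hu : Tst U u) (hw : Tst U w)
    (hG : GG b u u = 1) (hA : AA b u u ≤ l + th) (ht : 0 < t) (hM : AA b w w ≤ M) :
    AA b u w - l * GG b u w ≤ (th + t ^ 2 * M) / (2 * t) := by
  have h := hmin _ (hu.sub_smul hw t)
  rw [AA_expand b hu hw, GG_expand b hu hw, hG] at h
  have h3 := GG_nonneg b w
  rw [le_div_iff₀ (by positivity)]
  have h4 : 0 ≤ l * (t ^ 2 * GG b w w) := by positivity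
  have h5 : t ^ 2 * AA b w w ≤ t ^ 2 * M := by gcongr
  nlinarith

/-- the gradient term in the weighted estimate -/
lemma GG_weight {q : E2 → ℝ} (hq : ContDiff ℝ ∞ q) (hc : HasCompactSupport q) {s : ℝ}
    (hsec : ∀ z ∈ tsupport q, 0 < X b x₀ z) (hs : 0 < s) :
    GG b (fun z => X b x₀ z ^ 3 * q z) (fun z => X b x₀ z ^ 2 * q z) ≤
      s ^ 2 * (∫ z, W1 b x₀ q z)
        + (1 / s) * GG b (fun z => X b x₀ z ^ 3 * q z) (fun z => X b x₀ z ^ 3 * q z) := by
  have hX : Differentiable ℝ (X b x₀) := (X_smooth b x₀).differentiable (by simp)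
  have h0 : Differentiable ℝ q := hq.differentiable (by simp)
  have hXs := X_smooth b x₀
  have c1 := (D_smooth hq (b 0)).continuous
  have c2 := (D_smooth hq (b 1)).continuous
  have c0 := hq.continuous
  have cX := hXs.continuous
  have i0 : ∫ z, (4 * X b x₀ z ^ 3 * q z ^ 2 + 2 * X b x₀ z ^ 4 * q z * D (b 0) q z) = 0 := by
    set F : E2 → ℝ := fun z => X b x₀ z ^ 4 * q z ^ 2 with hF
    have hFs : ContDiff ℝ ∞ F := by rw [hF]; fun_prop
    have hFc : HasCompactSupport F := HasCompactSupport.intro hc (fun z hz => by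
      simp [hF, q_zero hz])
    have i := int_D (b 0) (hFs.of_le (by simp)) hFc
    have e : D (b 0) F = fun z => 4 * X b x₀ z ^ 3 * q z ^ 2
        + 2 * X b x₀ z ^ 4 * q z * D (b 0) q z := by
      rw [hF]
      simp (disch := fun_prop) only [D_mul, D_pow, D0X]
      funext z
      norm_num
      ring
    rw [e] at i
    exact i
  have hu3 : ContDiff ℝ ∞ (fun z => X b x₀ z ^ 3 * q z) := by fun_prop
  have hc3 : HasCompactSupport (fun z => X b x₀ z ^ 3 * q z) :=
    HasCompactSupport.intro hc (fun z hz => by simp [q_zero hz])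
  have hu2 : ContDiff ℝ ∞ (fun z => X b x₀ z ^ 2 * q z) := by fun_prop
  have intA := GG_int b hu3 hc3 hu2
  have intB := GG_int b hu3 hc3 hu3
  have intW1 : Integrable (W1 b x₀ q) :=
    integrable_of_zero (by unfold W1; fun_prop) hc
      (fun z hz => by simp [D_zero _ hz, q_zero hz, W1])
  have int0 : Integrable (fun z => 4 * X b x₀ z ^ 3 * q z ^ 2
      + 2 * X b x₀ z ^ 4 * q z * D (b 0) q z) :=
    integrable_of_zero (by fun_prop) hc (fun z hz => by simp [q_zero hz])
  have hh : 0 ≤ ∫ z, (((s ^ 2 * W1 b x₀ q z + (1 / s) *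
      (D (b 0) (fun z => X b x₀ z ^ 3 * q z) z * D (b 0) (fun z => X b x₀ z ^ 3 * q z) z
        + D (b 1) (fun z => X b x₀ z ^ 3 * q z) z * D (b 1) (fun z => X b x₀ z ^ 3 * q z) z))
      - (1/2) * (4 * X b x₀ z ^ 3 * q z ^ 2 + 2 * X b x₀ z ^ 4 * q z * D (b 0) q z))
      - (D (b 0) (fun z => X b x₀ z ^ 3 * q z) z * D (b 0) (fun z => X b x₀ z ^ 2 * q z) z
        + D (b 1) (fun z => X b x₀ z ^ 3 * q z) z * D (b 1) (fun z => X b x₀ z ^ 2 * q z) z)) := by
    apply integral_nonneg
    intro z
    simp (disch := fun_prop) only [D_mul, D_pow, D0X, D1X, W1, Pi.zero_apply]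
    by_cases hz : z ∈ tsupport q
    · have hx := hsec z hz
      set x := X b x₀ z
      set a := q z
      set p := D (b 0) q z
      set r := D (b 1) q z
      have hw : 0 ≤ x * (3 * a + x * p) ^ 2 + x ^ 3 * r ^ 2 := by positivity
      have h1 : x ^ 2 ≤ s ^ 2 + (1 / s) * x ^ 3 := by
        rcases le_total x s with h | h
        · have : x ^ 2 ≤ s ^ 2 := by gcongr
          have : 0 ≤ (1 / s) * x ^ 3 := by positivity
          linarith
        · have h2 : s * x ^ 2 ≤ x ^ 3 := by
            have : x ^ 3 = x * x ^ 2 := by ring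
            rw [this]; gcongr
          have h3 : x ^ 2 ≤ (1 / s) * x ^ 3 := by
            rw [one_div_mul_eq_div, le_div_iff₀ hs]
            linarith
          have : 0 ≤ s ^ 2 := by positivity
          linarith
      have h2 := mul_le_mul_of_nonneg_left h1 hw
      have h3 : 0 ≤ x ^ 3 * a ^ 2 := by positivity
      norm_num
      rw [one_div] at h2
      nlinarith
    · have e0 : q z = 0 := q_zero hz
      have e1 : D (b 0) q z = 0 := D_zero _ hz
      have e2 : D (b 1) q z = 0 := D_zero _ hz
      rw [e0, e1, e2]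
      norm_num
  rw [integral_sub, integral_sub, integral_add, integral_const_mul, integral_const_mul,
    integral_const_mul, i0] at hh
  · simp only [GG]
    linarith
  · exact intW1.const_mul _
  · exact intB.const_mul _
  · exact (intW1.const_mul _).add (intB.const_mul _)
  · exact int0.const_mul _
  · exact ((intW1.const_mul _).add (intB.const_mul _)).sub (int0.const_mul _)
  · exact intA

end Pool.Agent.helper33.Buck
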