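import Mathlib
import Pool.Agent.helper33.Buck.Forms

/-!
Localization with a function of the first coordinate.
-/

open MeasureTheory Set InnerProductSpace
open scoped ContDiff

namespace Pool.Agent.helper33.Buck

variable (b : OrthonormalBasis (Fin 2) ℝ E2) (x₀ : E2)

/-- `γ` depends on the first coordinate only, with first and second derivatives `γ1`, `γ2`. -/
structure FOX (γ γ1 γ2 : E2 → ℝ) : Prop where
  s0 : ContDiff ℝ ∞ γ
  s1 : ContDiff ℝ ∞ γ1
  s2 : ContDiff ℝ ∞ γ2
  d0 : D (b 0) γ = γ1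
  e0 : D (b 1) γ = fun _ => 0
  d1 : D (b 0) γ1 = γ2
  e1 : D (b 1) γ1 = fun _ => 0

lemma deriv_smooth {g : ℝ → ℝ} (hg : ContDiff ℝ ∞ g) : ContDiff ℝ ∞ (deriv g) :=
  (contDiff_infty_iff_deriv.mp hg).2

lemma comp_X_smooth {g : ℝ → ℝ} (hg : ContDiff ℝ ∞ g) :
    ContDiff ℝ ∞ (fun z => g (X b x₀ z)) := hg.comp (X_smooth b x₀)

lemma D0g {g : ℝ → ℝ} (hg : ContDiff ℝ ∞ g) :
    D (b 0) (fun z => g (X b x₀ z)) = fun z => deriv g (X b x₀ z) := by
  rw [D_comp _ (hg.differentiable (by simp)) ((X_smooth b x₀).differentiable (by simp)), D0X]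
  simp

lemma D1g {g : ℝ → ℝ} (hg : ContDiff ℝ ∞ g) :
    D (b 1) (fun z => g (X b x₀ z)) = fun _ => 0 := by
  rw [D_comp _ (hg.differentiable (by simp)) ((X_smooth b x₀).differentiable (by simp)), D1X]
  simp

lemma FOX_of {g : ℝ → ℝ} (hg : ContDiff ℝ ∞ g) :
    FOX b (fun z => g (X b x₀ z)) (fun z => deriv g (X b x₀ z))
      (fun z => deriv (deriv g) (X b x₀ z)) :=
  ⟨comp_X_smooth b x₀ hg, comp_X_smooth b x₀ (deriv_smooth hg),
    comp_X_smooth b x₀ (deriv_smooth (deriv_smooth hg)), D0g b x₀ hg, D1g b x₀ hg,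
    D0g b x₀ (deriv_smooth hg), D1g b x₀ (deriv_smooth hg)⟩

lemma lap_g {γ γ1 γ2 : E2 → ℝ} (h : FOX b γ γ1 γ2) {u : E2 → ℝ} (hu : ContDiff ℝ ∞ u) :
    lap b (fun z => γ z * u z) = fun z => γ z * lap b u z
      + 2 * γ1 z * D (b 0) u z + γ2 z * u z := by
  have h0 : Differentiable ℝ u := hu.differentiable (by simp)
  have h1 : Differentiable ℝ (D (b 0) u) := (D_smooth hu _).differentiable (by simp)
  have h2 : Differentiable ℝ (D (b 1) u) := (D_smooth hu _).differentiable (by simp)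
  have k0 : Differentiable ℝ γ := h.s0.differentiable (by simp)
  have k1 : Differentiable ℝ γ1 := h.s1.differentiable (by simp)
  funext z
  simp only [lap]
  simp (disch := fun_prop) only [D_mul, D_add, h.d0, h.e0, h.d1, h.e1, D_const]
  ring

/-- localization formula for the bilaplacian form and the Dirichlet form, as an inequality -/
lemma localize {γ γ1 γ2 : E2 → ℝ} (h : FOX b γ γ1 γ2) {u : E2 → ℝ} (hu : ContDiff ℝ ∞ u)
    (hc : HasCompactSupport u) {l : ℝ} (hl : 0 ≤ l) :
    AA b (fun z => γ z * u z) (fun z => γ z * u z)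
      - l * GG b (fun z => γ z * u z) (fun z => γ z * u z)
      ≤ (AA b u (fun z => γ z ^ 2 * u z) - l * GG b u (fun z => γ z ^ 2 * u z))
        + ∫ z, (12 * γ1 z ^ 2 * (D (b 0) u z ^ 2 + D (b 1) u z ^ 2)
          + 4 * γ2 z ^ 2 * u z ^ 2) := by
  have h0 : Differentiable ℝ u := hu.differentiable (by simp)
  have h1 : Differentiable ℝ (D (b 0) u) := (D_smooth hu _).differentiable (by simp)
  have h2 : Differentiable ℝ (D (b 1) u) := (D_smooth hu _).differentiable (by simp)
  have s0 := h.s0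
  have s1 := h.s1
  have s2 := h.s2
  have k0 : Differentiable ℝ γ := s0.differentiable (by simp)
  have k1 : Differentiable ℝ γ1 := s1.differentiable (by simp)
  have hs1 := D_smooth hu (b 0)
  have hs2 := D_smooth hu (b 1)
  have cu := hu.continuous
  have cu1 := hs1.continuous
  have cu2 := hs2.continuous
  have cg0 := s0.continuous
  have cg1 := s1.continuous
  have cg2 := s2.continuous
  have cL := (lap_smooth b hu).continuous
  -- divergence term
  set F₁ : E2 → ℝ := fun z => γ1 z ^ 2 * u z * D (b 0) u z with hF₁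
  set F₂ : E2 → ℝ := fun z => γ1 z ^ 2 * u z * D (b 1) u z with hF₂
  have hF₁s : ContDiff ℝ ∞ F₁ := by rw [hF₁]; fun_prop
  have hF₂s : ContDiff ℝ ∞ F₂ := by rw [hF₂]; fun_prop
  have hF₁c : HasCompactSupport F₁ := HasCompactSupport.intro hc (fun z hz => by
    simp [hF₁, q_zero hz])
  have hF₂c : HasCompactSupport F₂ := HasCompactSupport.intro hc (fun z hz => by
    simp [hF₂, q_zero hz])
  have i1 := int_D (b 0) (hF₁s.of_le (by simp)) hF₁c
  have i2 := int_D (b 1) (hF₂s.of_le (by simp)) hF₂c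
  have iF1 : Integrable (D (b 0) F₁) :=
    integrable_of_zero (D_smooth hF₁s _).continuous hF₁c (fun z hz => D_zero _ hz)
  have iF2 : Integrable (D (b 1) F₂) :=
    integrable_of_zero (D_smooth hF₂s _).continuous hF₂c (fun z hz => D_zero _ hz)
  have i : ∫ z, (D (b 0) F₁ z + D (b 1) F₂ z) = 0 := by
    rw [integral_add iF1 iF2, i1, i2]
    simp
  have hgu : ContDiff ℝ ∞ (fun z => γ z * u z) := by fun_prop
  have hguc : HasCompactSupport (fun z => γ z * u z) :=
    HasCompactSupport.intro hc (fun z hz => by simp [q_zero hz])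
  have hg2u : ContDiff ℝ ∞ (fun z => γ z ^ 2 * u z) := by fun_prop
  have I1 := AA_int b hgu hguc hgu
  have I2 := GG_int b hgu hguc hgu
  have I3 := AA_int b hu hc hg2u
  have I4 := GG_int b hu hc hg2u
  have I5 : Integrable (fun z => (12 * γ1 z ^ 2 *
      (D (b 0) u z ^ 2 + D (b 1) u z ^ 2) + 4 * γ2 z ^ 2 * u z ^ 2)) :=
    integrable_of_zero (by fun_prop) hc (fun z hz => by simp [q_zero hz, D_zero _ hz])
  have hsq : FOX b (fun z => γ z ^ 2) (fun z => 2 * γ z * γ1 z)
      (fun z => 2 * γ1 z ^ 2 + 2 * γ z * γ2 z) := by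
    refine ⟨by fun_prop, by fun_prop, by fun_prop, ?_, ?_, ?_, ?_⟩
    · funext z
      simp (disch := fun_prop) only [D_pow, h.d0]
      norm_num
    · funext z
      simp (disch := fun_prop) only [D_pow, h.e0]
      norm_num
    · funext z
      simp (disch := fun_prop) only [D_mul, D_const, h.d0, h.d1]
      ring
    · funext z
      simp (disch := fun_prop) only [D_mul, D_const, h.e0, h.e1]
      ring
  have hh : 0 ≤ ∫ z, ((((lap b u z * lap b (fun z => γ z ^ 2 * u z) z
      - l * (D (b 0) u z * D (b 0) (fun z => γ z ^ 2 * u z) z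
        + D (b 1) u z * D (b 1) (fun z => γ z ^ 2 * u z) z))
      + (12 * γ1 z ^ 2 * (D (b 0) u z ^ 2 + D (b 1) u z ^ 2)
          + 4 * γ2 z ^ 2 * u z ^ 2))
      - (2 : ℝ) * (D (b 0) F₁ z + D (b 1) F₂ z))
      - (lap b (fun z => γ z * u z) z * lap b (fun z => γ z * u z) z
        - l * (D (b 0) (fun z => γ z * u z) z * D (b 0) (fun z => γ z * u z) z
        + D (b 1) (fun z => γ z * u z) z * D (b 1) (fun z => γ z * u z) z))) := by
    rw [lap_g b h hu, lap_g b hsq hu, hF₁, hF₂]
    apply integral_nonneg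
    intro z
    simp (disch := fun_prop) only [D_mul, D_pow, h.d0, h.d1, h.e0, h.e1, Pi.zero_apply]
    have hlap : lap b u z = D (b 0) (D (b 0) u) z + D (b 1) (D (b 1) u) z := rfl
    rw [hlap]
    set a := u z
    set p := D (b 0) u z
    set r := D (b 1) u z
    set p1 := D (b 0) (D (b 0) u) z
    set r2 := D (b 1) (D (b 1) u) z
    have t1 : 0 ≤ l * (γ1 z ^ 2 * a ^ 2) := by positivity
    have t2 : 0 ≤ (2 * γ1 z * p - γ2 z * a) ^ 2 := sq_nonneg _
    have t3 : 0 ≤ (γ1 z * p - γ2 z * a) ^ 2 := sq_nonneg _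
    have t4 : 0 ≤ (γ1 z * r) ^ 2 := sq_nonneg _
    norm_num
    nlinarith [t1, t2, t3, t4]
  rw [integral_sub, integral_sub, integral_add, integral_sub, integral_const_mul,
    integral_const_mul, i, integral_sub, integral_const_mul] at hh
  · simp only [AA, GG]
    linarith
  · exact I1
  · exact I2.const_mul _
  · exact I3
  · exact I4.const_mul _
  · exact I3.sub (I4.const_mul _)
  · exact I5
  · exact (I3.sub (I4.const_mul _)).add I5
  · exact (iF1.add iF2).const_mul _
  · exact ((I3.sub (I4.const_mul _)).add I5).sub ((iF1.add iF2).const_mul _)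
  · exact I1.sub (I2.const_mul _)

end Pool.Agent.helper33.Buck
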