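import Mathlib
import Pool.Agent.helper33.Buck.Local

/-!
Elementary bounds for the two forms.
-/

open MeasureTheory Set InnerProductSpace
open scoped ContDiff

namespace Pool.Agent.helper33.Buck

variable (b : OrthonormalBasis (Fin 2) ℝ E2) (x₀ : E2)

lemma AA_mul_le {γ γ1 γ2 : E2 → ℝ} (h : FOX b γ γ1 γ2) {u : E2 → ℝ} (hu : ContDiff ℝ ∞ u)
    (hc : HasCompactSupport u) {K : ℝ}
    (hK : ∀ z ∈ tsupport u, |γ z| ≤ K ∧ |γ1 z| ≤ K ∧ |γ2 z| ≤ K) :
    AA b (fun z => γ z * u z) (fun z => γ z * u z) ≤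
      3 * K ^ 2 * (AA b u u + 4 * GG b u u + ∫ z, u z ^ 2) := by
  have s0 := h.s0
  have hgu : ContDiff ℝ ∞ (fun z => γ z * u z) := by fun_prop
  have hguc : HasCompactSupport (fun z => γ z * u z) :=
    HasCompactSupport.intro hc (fun z hz => by simp [q_zero hz])
  have I1 := AA_int b hgu hguc hgu
  have I2 := AA_int b hu hc hu
  have I3 := GG_int b hu hc hu
  have cu := hu.continuous
  have I4 : Integrable (fun z => u z ^ 2) :=
    integrable_of_zero (by fun_prop) hc (fun z hz => by simp [q_zero hz])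
  have hh : ∫ z, lap b (fun z => γ z * u z) z * lap b (fun z => γ z * u z) z ≤
      ∫ z, 3 * K ^ 2 * ((lap b u z * lap b u z + 4 * (D (b 0) u z * D (b 0) u z
        + D (b 1) u z * D (b 1) u z)) + u z ^ 2) := by
    apply integral_mono I1 (((I2.add (I3.const_mul 4)).add I4).const_mul _)
    intro z
    rw [lap_g b h hu]
    by_cases hz : z ∈ tsupport u
    · obtain ⟨h0, h1, h2⟩ := hK z hz
      have hK0 : 0 ≤ K := (abs_nonneg _).trans h0
      have sq0 : γ z ^ 2 ≤ K ^ 2 := by rw [← sq_abs]; gcongr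
      have sq1 : γ1 z ^ 2 ≤ K ^ 2 := by rw [← sq_abs]; gcongr
      have sq2 : γ2 z ^ 2 ≤ K ^ 2 := by rw [← sq_abs]; gcongr
      have m0 := mul_le_mul_of_nonneg_right sq0 (sq_nonneg (lap b u z))
      have m1 := mul_le_mul_of_nonneg_right sq1 (sq_nonneg (D (b 0) u z))
      have m2 := mul_le_mul_of_nonneg_right sq2 (sq_nonneg (u z))
      have m3 : 0 ≤ K ^ 2 * D (b 1) u z ^ 2 := by positivity
      have t1 := sq_nonneg (γ z * lap b u z - 2 * γ1 z * D (b 0) u z)
      have t2 := sq_nonneg (γ z * lap b u z - γ2 z * u z)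
      have t3 := sq_nonneg (2 * γ1 z * D (b 0) u z - γ2 z * u z)
      simp only [Pi.add_apply]
      nlinarith [m0, m1, m2, m3, t1, t2, t3]
    · simp [lap_zero b hz, D_zero _ hz, q_zero hz]
  rw [integral_const_mul, integral_add, integral_add, integral_const_mul] at hh
  · exact hh
  · exact I2
  · exact I3.const_mul 4
  · exact I2.add (I3.const_mul 4)
  · exact I4

lemma poincare {u : E2 → ℝ} (hu : ContDiff ℝ ∞ u) (hc : HasCompactSupport u) {L : ℝ}
    (hL : ∀ z ∈ tsupport u, 0 ≤ X b x₀ z ∧ X b x₀ z ≤ L) :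
    ∫ z, u z ^ 2 ≤ 4 * L ^ 2 * GG b u u := by
  have hX : Differentiable ℝ (X b x₀) := (X_smooth b x₀).differentiable (by simp)
  have h0 : Differentiable ℝ u := hu.differentiable (by simp)
  have hXs := X_smooth b x₀
  have cX := hXs.continuous
  have cu := hu.continuous
  have cu1 := (D_smooth hu (b 0)).continuous
  have I3 := GG_int b hu hc hu
  have I4 : Integrable (fun z => u z ^ 2) :=
    integrable_of_zero (by fun_prop) hc (fun z hz => by simp [q_zero hz])
  have I5 : Integrable (fun z => u z ^ 2 + 2 * X b x₀ z * u z * D (b 0) u z) :=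
    integrable_of_zero (by fun_prop) hc (fun z hz => by simp [q_zero hz])
  have i0 : ∫ z, (u z ^ 2 + 2 * X b x₀ z * u z * D (b 0) u z) = 0 := by
    set F : E2 → ℝ := fun z => X b x₀ z * u z ^ 2 with hF
    have hFs : ContDiff ℝ ∞ F := by rw [hF]; fun_prop
    have hFc : HasCompactSupport F := HasCompactSupport.intro hc (fun z hz => by
      simp [hF, q_zero hz])
    have i := int_D (b 0) (hFs.of_le (by simp)) hFc
    have e : D (b 0) F = fun z => u z ^ 2 + 2 * X b x₀ z * u z * D (b 0) u z := by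
      rw [hF]
      simp (disch := fun_prop) only [D_mul, D_pow, D0X]
      funext z
      norm_num
      ring
    rw [e] at i
    exact i
  have hh : 0 ≤ ∫ z, ((u z ^ 2 + 2 * X b x₀ z * u z * D (b 0) u z) - ((1/2) * u z ^ 2
      - (2 * L ^ 2) * (D (b 0) u z * D (b 0) u z + D (b 1) u z * D (b 1) u z))) := by
    apply integral_nonneg
    intro z
    by_cases hz : z ∈ tsupport u
    · obtain ⟨h1, h2⟩ := hL z hz
      have t0 : X b x₀ z ^ 2 ≤ L ^ 2 := by gcongr
      have t1 := mul_le_mul_of_nonneg_right t0 (sq_nonneg (D (b 0) u z))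
      have t2 : 0 ≤ L ^ 2 * D (b 1) u z ^ 2 := by positivity
      have t3 := sq_nonneg (u z + 2 * X b x₀ z * D (b 0) u z)
      simp only [Pi.zero_apply]
      nlinarith [t1, t2, t3]
    · simp [D_zero _ hz, q_zero hz]
  rw [integral_sub, integral_sub, integral_const_mul, integral_const_mul, i0] at hh
  · simp only [GG]
    linarith
  · exact I4.const_mul _
  · exact I3.const_mul _
  · exact I5
  · exact (I4.const_mul _).sub (I3.const_mul _)

lemma GG_le_AA_of {u : E2 → ℝ} (hu : ContDiff ℝ ∞ u) (hc : HasCompactSupport u) {L : ℝ}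
    (hL0 : 0 < L) (hp : ∫ z, u z ^ 2 ≤ 4 * L ^ 2 * GG b u u) :
    GG b u u ≤ 4 * L ^ 2 * AA b u u := by
  have h0 : Differentiable ℝ u := hu.differentiable (by simp)
  have hs1 := D_smooth hu (b 0)
  have hs2 := D_smooth hu (b 1)
  have h1 : Differentiable ℝ (D (b 0) u) := hs1.differentiable (by simp)
  have h2 : Differentiable ℝ (D (b 1) u) := hs2.differentiable (by simp)
  have cu := hu.continuous
  have cu1 := hs1.continuous
  have cu2 := hs2.continuous
  have cL := (lap_smooth b hu).continuous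
  have I2 := AA_int b hu hc hu
  have I3 := GG_int b hu hc hu
  have I4 : Integrable (fun z => u z ^ 2) :=
    integrable_of_zero (by fun_prop) hc (fun z hz => by simp [q_zero hz])
  set F₁ : E2 → ℝ := fun z => u z * D (b 0) u z with hF₁
  set F₂ : E2 → ℝ := fun z => u z * D (b 1) u z with hF₂
  have hF₁s : ContDiff ℝ ∞ F₁ := by rw [hF₁]; fun_prop
  have hF₂s : ContDiff ℝ ∞ F₂ := by rw [hF₂]; fun_prop
  have hF₁c : HasCompactSupport F₁ := HasCompactSupport.intro hc (fun z hz => by
    simp [hF₁, q_zero hz])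
  have hF₂c : HasCompactSupport F₂ := HasCompactSupport.intro hc (fun z hz => by
    simp [hF₂, q_zero hz])
  have i1 := int_D (b 0) (hF₁s.of_le (by simp)) hF₁c
  have i2 := int_D (b 1) (hF₂s.of_le (by simp)) hF₂c
  have iF1 : Integrable (D (b 0) F₁) :=
    integrable_of_zero (D_smooth hF₁s _).continuous hF₁c (fun z hz => D_zero _ hz)
  have iF2 : Integrable (D (b 1) F₂) :=
    integrable_of_zero (D_smooth hF₂s _).continuous hF₂c (fun z hz => D_zero _ hz)
  have i : ∫ z, (D (b 0) F₁ z + D (b 1) F₂ z) = 0 := by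
    rw [integral_add iF1 iF2, i1, i2]
    simp
  have hh : 0 ≤ ∫ z, ((D (b 0) F₁ z + D (b 1) F₂ z)
      - (((D (b 0) u z * D (b 0) u z + D (b 1) u z * D (b 1) u z) - (1 / (8 * L ^ 2)) * u z ^ 2)
        - (2 * L ^ 2) * (lap b u z * lap b u z))) := by
    apply integral_nonneg
    intro z
    rw [hF₁, hF₂]
    simp (disch := fun_prop) only [D_mul, Pi.zero_apply, lap]
    set a := u z
    set p := D (b 0) u z
    set r := D (b 1) u z
    set s := D (b 0) (D (b 0) u) z
    set t := D (b 1) (D (b 1) u) z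
    have key : (p * p + a * s + (r * r + a * t)) - (((p * p + r * r) - (1 / (8 * L ^ 2)) * a ^ 2)
        - (2 * L ^ 2) * ((s + t) * (s + t))) = (1 / (8 * L ^ 2)) * (a + 4 * L ^ 2 * (s + t)) ^ 2 := by
      field_simp
      ring
    have : 0 ≤ (1 / (8 * L ^ 2)) * (a + 4 * L ^ 2 * (s + t)) ^ 2 := by positivity
    linarith
  rw [integral_sub, integral_sub, integral_sub, integral_const_mul, integral_const_mul, i] at hh
  · have e1 : ∫ z, (D (b 0) u z * D (b 0) u z + D (b 1) u z * D (b 1) u z) = GG b u u := rfl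
    have e2 : ∫ z, lap b u z * lap b u z = AA b u u := rfl
    rw [e1, e2] at hh
    have e3 : (1 / (8 * L ^ 2)) * ∫ z, u z ^ 2 ≤ (1 / (8 * L ^ 2)) * (4 * L ^ 2 * GG b u u) := by
      gcongr
    have e4 : (1 / (8 * L ^ 2)) * (4 * L ^ 2 * GG b u u) = (1/2) * GG b u u := by
      field_simp
      ring
    linarith
  · exact I3
  · exact I4.const_mul _
  · exact I3.sub (I4.const_mul _)
  · exact I2.const_mul _
  · exact iF1.add iF2
  · exact (I3.sub (I4.const_mul _)).sub (I2.const_mul _)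

lemma GG_le_AA {u : E2 → ℝ} (hu : ContDiff ℝ ∞ u) (hc : HasCompactSupport u) {L : ℝ}
    (hL0 : 0 < L) (hL : ∀ z ∈ tsupport u, 0 ≤ X b x₀ z ∧ X b x₀ z ≤ L) :
    GG b u u ≤ 4 * L ^ 2 * AA b u u :=
  GG_le_AA_of b hu hc hL0 (poincare b x₀ hu hc hL)

lemma GG_mul_ge {γ γ1 γ2 : E2 → ℝ} (h : FOX b γ γ1 γ2) {u : E2 → ℝ} (hu : ContDiff ℝ ∞ u)
    (hc : HasCompactSupport u) :
    (1/2) * GG b u u - (∫ z, ((1/2) * (1 - γ z ^ 2) * (D (b 0) u z ^ 2 + D (b 1) u z ^ 2)
      + γ1 z ^ 2 * u z ^ 2)) ≤ GG b (fun z => γ z * u z) (fun z => γ z * u z) := by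
  have s0 := h.s0
  have s1 := h.s1
  have h0 : Differentiable ℝ u := hu.differentiable (by simp)
  have k0 : Differentiable ℝ γ := s0.differentiable (by simp)
  have cu := hu.continuous
  have cu1 := (D_smooth hu (b 0)).continuous
  have cu2 := (D_smooth hu (b 1)).continuous
  have cg0 := s0.continuous
  have cg1 := s1.continuous
  have hgu : ContDiff ℝ ∞ (fun z => γ z * u z) := by fun_prop
  have hguc : HasCompactSupport (fun z => γ z * u z) :=
    HasCompactSupport.intro hc (fun z hz => by simp [q_zero hz])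
  have I1 := GG_int b hgu hguc hgu
  have I3 := GG_int b hu hc hu
  have I5 : Integrable (fun z => ((1/2) * (1 - γ z ^ 2) * (D (b 0) u z ^ 2 + D (b 1) u z ^ 2)
      + γ1 z ^ 2 * u z ^ 2)) :=
    integrable_of_zero (by fun_prop) hc (fun z hz => by simp [q_zero hz, D_zero _ hz])
  have hh : 0 ≤ ∫ z, ((D (b 0) (fun z => γ z * u z) z * D (b 0) (fun z => γ z * u z) z
        + D (b 1) (fun z => γ z * u z) z * D (b 1) (fun z => γ z * u z) z)
      - ((1/2) * (D (b 0) u z * D (b 0) u z + D (b 1) u z * D (b 1) u z)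
        - ((1/2) * (1 - γ z ^ 2) * (D (b 0) u z ^ 2 + D (b 1) u z ^ 2)
      + γ1 z ^ 2 * u z ^ 2))) := by
    apply integral_nonneg
    intro z
    simp (disch := fun_prop) only [D_mul, h.d0, h.e0, Pi.zero_apply]
    have t1 := sq_nonneg (γ z * D (b 0) u z + 2 * (γ1 z * u z))
    have t2 := sq_nonneg (γ z * D (b 1) u z)
    nlinarith [t1, t2]
  rw [integral_sub, integral_sub, integral_const_mul] at hh
  · simp only [GG]
    linarith
  · exact I3.const_mul _
  · exact I5
  · exact I1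
  · exact (I3.const_mul _).sub I5

end Pool.Agent.helper33.Buck
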