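import Mathlib
import Pool.Agent.helper33.Buck.Bounds

/-!
Cut-off functions, near-minimizers.
-/

open MeasureTheory Set InnerProductSpace
open scoped ContDiff

namespace Pool.Agent.helper33.Buck

variable (b : OrthonormalBasis (Fin 2) ℝ E2) (x₀ : E2)

/-- the basic cut-off function -/
noncomputable def S (t : ℝ) : ℝ := Real.smoothTransition (2 * t - 3)

lemma S_smooth : ContDiff ℝ ∞ S := by
  unfold S
  exact Real.smoothTransition.contDiff.comp (by fun_prop)

lemma S_nonneg (t : ℝ) : 0 ≤ S t := Real.smoothTransition.nonneg _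
lemma S_le_one (t : ℝ) : S t ≤ 1 := Real.smoothTransition.le_one _
lemma S_zero {t : ℝ} (h : t ≤ 3/2) : S t = 0 :=
  Real.smoothTransition.zero_of_nonpos (by linarith)
lemma S_one {t : ℝ} (h : 2 ≤ t) : S t = 1 :=
  Real.smoothTransition.one_of_one_le (by linarith)

lemma dS_zero {t : ℝ} (h : t < 3/2 ∨ 2 < t) : deriv S t = 0 ∧ deriv (deriv S) t = 0 := by
  rcases h with h | h
  · have h1 : S =ᶠ[nhds t] fun _ => 0 := by
      filter_upwards [Iio_mem_nhds h] with s hs
      exact S_zero (le_of_lt hs)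
    have h2 : deriv S =ᶠ[nhds t] fun _ => 0 := by
      have := h1.deriv
      simpa using this
    refine ⟨by simpa using h2.eq_of_nhds, by simpa using h2.deriv.eq_of_nhds⟩
  · have h1 : S =ᶠ[nhds t] fun _ => 1 := by
      filter_upwards [Ioi_mem_nhds h] with s hs
      exact S_one (le_of_lt hs)
    have h2 : deriv S =ᶠ[nhds t] fun _ => 0 := by
      have := h1.deriv
      simpa using this
    refine ⟨by simpa using h2.eq_of_nhds, by simpa using h2.deriv.eq_of_nhds⟩

lemma exists_Z : ∃ Z : ℝ, 4 ≤ Z ∧ ∀ t : ℝ, 0 ≤ t → 12 * (t ^ 3 * deriv S t ^ 2) ≤ Z ∧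
    4 * (t ^ 5 * deriv (deriv S) t ^ 2) ≤ Z ∧ t ^ 5 * deriv S t ^ 2 ≤ Z := by
  have c1 : Continuous (deriv S) := (deriv_smooth S_smooth).continuous
  have c2 : Continuous (deriv (deriv S)) := (deriv_smooth (deriv_smooth S_smooth)).continuous
  have hb : ∀ f : ℝ → ℝ, Continuous f → (∀ t, t < 3/2 ∨ 2 < t → f t = 0) →
      ∃ C : ℝ, ∀ t, f t ≤ C := by
    intro f hf h0
    obtain ⟨C, hC⟩ := (isCompact_Icc (a := (3/2 : ℝ)) (b := 2)).bddAbove_image hf.continuousOn
    refine ⟨max C 0, fun t => ?_⟩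
    by_cases ht : t < 3/2 ∨ 2 < t
    · rw [h0 t ht]; exact le_max_right _ _
    · push Not at ht
      exact le_max_of_le_left (hC ⟨t, ⟨ht.1, ht.2⟩, rfl⟩)
  obtain ⟨C1, hC1⟩ := hb (fun t => 12 * (t ^ 3 * deriv S t ^ 2)) (by fun_prop)
    (fun t ht => by simp [(dS_zero ht).1])
  obtain ⟨C2, hC2⟩ := hb (fun t => 4 * (t ^ 5 * deriv (deriv S) t ^ 2)) (by fun_prop)
    (fun t ht => by simp [(dS_zero ht).2])
  obtain ⟨C3, hC3⟩ := hb (fun t => t ^ 5 * deriv S t ^ 2) (by fun_prop)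
    (fun t ht => by simp [(dS_zero ht).1])
  refine ⟨max (max C1 C2) (max C3 4), le_max_of_le_right (le_max_right _ _), fun t _ => ⟨?_, ?_, ?_⟩⟩
  · exact (hC1 t).trans ((le_max_left _ _).trans (le_max_left _ _))
  · exact (hC2 t).trans ((le_max_right _ _).trans (le_max_left _ _))
  · exact (hC3 t).trans ((le_max_left _ _).trans (le_max_right _ _))

/-- scaled cut-off -/
lemma FOX_S {e : ℝ} (_he : 0 < e) : FOX b (fun z => S (X b x₀ z / e))
    (fun z => deriv S (X b x₀ z / e) / e) (fun z => deriv (deriv S) (X b x₀ z / e) / e ^ 2) := by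
  have hd : ∀ f : ℝ → ℝ, ContDiff ℝ ∞ f → deriv (fun t => f (t / e)) = fun t => deriv f (t / e) / e := by
    intro f hf
    funext t
    have h1 : HasDerivAt f (deriv f (t / e)) (t / e) := (hf.differentiable (by simp) _).hasDerivAt
    have h2 : HasDerivAt (fun t : ℝ => t / e) (1 / e) t := (hasDerivAt_id t).div_const e
    have h3 := (h1.comp t h2).deriv
    have h4 : deriv (fun t => f (t / e)) t = deriv f (t / e) * (1 / e) := h3
    rw [h4]; ring
  have hg : ContDiff ℝ ∞ (fun t => S (t / e)) := S_smooth.comp (by fun_prop)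
  have h := FOX_of b x₀ hg
  have e1 : deriv (fun t => S (t / e)) = fun t => deriv S (t / e) / e := hd S S_smooth
  have e2 : deriv (deriv (fun t => S (t / e))) = fun t => deriv (deriv S) (t / e) / e ^ 2 := by
    rw [e1]
    have h5 : (fun t => deriv S (t / e) / e) = fun t => (1 / e) * (fun t => deriv S (t / e)) t := by
      funext t; ring
    rw [h5]
    funext t
    have h6 : DifferentiableAt ℝ (fun t => deriv S (t / e)) t := by
      have : ContDiff ℝ ∞ (fun t => deriv S (t / e)) := (deriv_smooth S_smooth).comp (by fun_prop)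
      exact this.differentiable (by simp) t
    rw [deriv_const_mul _ h6, hd _ (deriv_smooth S_smooth)]
    ring
  rw [e2, e1] at h
  exact h

/-- boundedness of a function and of its first two derivatives on the half line -/
def Bd (g : ℝ → ℝ) : Prop :=
  ∃ K : ℝ, ∀ t, 0 ≤ t → |g t| ≤ K ∧ |deriv g t| ≤ K ∧ |deriv (deriv g) t| ≤ K

lemma Bd_of {g : ℝ → ℝ} (hg : ContDiff ℝ ∞ g) {R K₁ : ℝ}
    (h : ∀ t, R ≤ t → |g t| ≤ K₁ ∧ |deriv g t| ≤ K₁ ∧ |deriv (deriv g) t| ≤ K₁) : Bd g := by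
  have hb : ∀ f : ℝ → ℝ, Continuous f → ∃ C : ℝ, ∀ t ∈ Icc 0 R, |f t| ≤ C := by
    intro f hf
    obtain ⟨C, hC⟩ := (isCompact_Icc (a := (0 : ℝ)) (b := R)).bddAbove_image
      (f := fun t => |f t|) hf.abs.continuousOn
    exact ⟨C, fun t ht => hC ⟨t, ht, rfl⟩⟩
  obtain ⟨C0, h0⟩ := hb g hg.continuous
  obtain ⟨C1, h1⟩ := hb _ (deriv_smooth hg).continuous
  obtain ⟨C2, h2⟩ := hb _ (deriv_smooth (deriv_smooth hg)).continuous
  refine ⟨max K₁ (max C0 (max C1 C2)), fun t ht => ?_⟩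
  rcases le_total R t with hR | hR
  · obtain ⟨k0, k1, k2⟩ := h t hR
    exact ⟨le_max_of_le_left k0, le_max_of_le_left k1, le_max_of_le_left k2⟩
  · have hI : t ∈ Icc 0 R := ⟨ht, hR⟩
    exact ⟨le_max_of_le_right (le_max_of_le_left (h0 t hI)),
      le_max_of_le_right (le_max_of_le_right (le_max_of_le_left (h1 t hI))),
      le_max_of_le_right (le_max_of_le_right (le_max_of_le_right (h2 t hI)))⟩

lemma Bd_S {e : ℝ} (he : 0 < e) : Bd (fun t => S (t / e) ^ 2) := by
  have hg : ContDiff ℝ ∞ (fun t => S (t / e) ^ 2) := by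
    have : ContDiff ℝ ∞ (fun t => S (t / e)) := S_smooth.comp (by fun_prop)
    exact this.pow 2
  apply Bd_of hg (R := 3 * e) (K₁ := 1)
  intro t ht
  have h1 : (fun t => S (t / e) ^ 2) =ᶠ[nhds t] fun _ => 1 := by
    have : 2 * e < t := by linarith
    filter_upwards [Ioi_mem_nhds this] with s hs
    have : 2 ≤ s / e := by
      rw [le_div_iff₀ he]; exact (mem_Ioi.mp hs).le
    simp [S_one this]
  have h2 : deriv (fun t => S (t / e) ^ 2) =ᶠ[nhds t] fun _ => 0 := by
    have := h1.deriv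
    simpa using this
  have e0 : (fun t => S (t / e) ^ 2) t = 1 := h1.eq_of_nhds
  have e1 : deriv (fun t => S (t / e) ^ 2) t = 0 := h2.eq_of_nhds
  have e2 : deriv (deriv (fun t => S (t / e) ^ 2)) t = 0 := by simpa using h2.deriv.eq_of_nhds
  rw [e1, e2]
  refine ⟨?_, by simp, by simp⟩
  change |(fun t => S (t / e) ^ 2) t| ≤ 1
  rw [e0]; simp

lemma exists_gw {ρ : ℝ} (hρ : 0 < ρ) : ∃ g : ℝ → ℝ, ContDiff ℝ ∞ g ∧ Bd g ∧
    ∀ t, ρ ≤ t → g t = 1 / t := by
  set g : ℝ → ℝ := fun t => S (2 * t / ρ) / t with hgdef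
  have hg : ContDiff ℝ ∞ g := by
    rw [contDiff_iff_contDiffAt]
    intro t
    by_cases ht : t < 3 * ρ / 4
    · have h : g =ᶠ[nhds t] fun _ => 0 := by
        filter_upwards [Iio_mem_nhds ht] with s hs
        have : 2 * s / ρ ≤ 3 / 2 := by
          rw [div_le_iff₀ hρ]
          have := mem_Iio.mp hs
          linarith
        simp [hgdef, S_zero this]
      exact contDiffAt_const.congr_of_eventuallyEq h
    · have : t ≠ 0 := by
        have : 3 * ρ / 4 ≤ t := not_lt.mp ht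
        have : 0 < t := by linarith
        exact this.ne'
      have h1 : ContDiff ℝ ∞ (fun t => S (2 * t / ρ)) := S_smooth.comp (by fun_prop)
      exact h1.contDiffAt.div contDiffAt_id this
  have hval : ∀ t, ρ ≤ t → g t = 1 / t := by
    intro t ht
    have : 2 ≤ 2 * t / ρ := by
      rw [le_div_iff₀ hρ]; linarith
    simp only [hgdef, S_one this]
  refine ⟨g, hg, ?_, hval⟩
  apply Bd_of hg (R := ρ + 1) (K₁ := 2)
  intro t ht
  have ht1 : 1 < t := by linarith
  have ht0 : 0 < t := by linarith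
  have hev : ∀ s, ρ < s → g =ᶠ[nhds s] fun t => t⁻¹ := by
    intro s hs
    filter_upwards [Ioi_mem_nhds hs] with r hr
    rw [hval r (mem_Ioi.mp hr).le, one_div]
  have hd1 : ∀ s, ρ < s → deriv g s = -(s ^ 2)⁻¹ := by
    intro s hs
    rw [(hev s hs).deriv_eq, deriv_inv]
  have hρt : ρ < t := by linarith
  have hd2 : deriv (deriv g) t = 2 / t ^ 3 := by
    have h1 : deriv g =ᶠ[nhds t] fun s => -(s ^ 2)⁻¹ := by
      filter_upwards [Ioi_mem_nhds hρt] with r hr
      exact hd1 r hr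
    rw [h1.deriv_eq]
    have h2 : HasDerivAt (fun s : ℝ => s ^ 2) (2 * t) t := by
      simpa using hasDerivAt_pow 2 t
    have h3 := (h2.inv (by positivity)).neg
    have h4 : deriv (fun s : ℝ => -(s ^ 2)⁻¹) t = -(-(2 * t) / (t ^ 2) ^ 2) := h3.deriv
    rw [h4]
    field_simp
  rw [hd1 t hρt, hd2, hval t hρt.le]
  refine ⟨?_, ?_, ?_⟩
  · rw [abs_of_nonneg (by positivity), div_le_iff₀ ht0]; linarith
  · rw [abs_neg, abs_of_nonneg (by positivity)]
    have : (t ^ 2)⁻¹ ≤ 1 := by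
      apply inv_le_one_of_one_le₀
      nlinarith
    linarith
  · rw [abs_of_nonneg (by positivity), div_le_iff₀ (by positivity)]
    have : 1 ≤ t ^ 3 := one_le_pow₀ ht1.le
    linarith

/-- Near-minimizers nearly satisfy the first order condition, tested with `g(X) u`. -/
lemma near {U : Set E2} {P l : ℝ} (hl : 0 ≤ l) (hP0 : 0 ≤ P)
    (hU : ∀ z ∈ U, 0 < X b x₀ z) (hP : ∀ f, Tst U f → ∫ z, f z ^ 2 ≤ P * GG b f f)
    (hmin : ∀ f, Tst U f → l * GG b f f ≤ AA b f f) {g : ℝ → ℝ} (hg : ContDiff ℝ ∞ g)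
    (hgB : Bd g) {τ : ℝ} (hτ : 0 < τ) :
    ∃ th : ℝ, 0 < th ∧ ∀ u, Tst U u → GG b u u = 1 → AA b u u ≤ l + th →
      AA b u (fun z => g (X b x₀ z) * u z) - l * GG b u (fun z => g (X b x₀ z) * u z) ≤ τ := by
  obtain ⟨K, hK⟩ := hgB
  set M : ℝ := 3 * K ^ 2 * (l + 1 + 4 + P) + 1 with hMdef
  have hM : 0 < M := by positivity
  refine ⟨min 1 (τ ^ 2 / M), by positivity, ?_⟩
  intro u hu hG hA
  have hw : Tst U (fun z => g (X b x₀ z) * u z) := hu.mul (comp_X_smooth b x₀ hg)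
  have hAw : AA b (fun z => g (X b x₀ z) * u z) (fun z => g (X b x₀ z) * u z) ≤ M := by
    have h1 := AA_mul_le b (FOX_of b x₀ hg) hu.1 hu.2.1 (K := K)
      (fun z hz => hK _ (hU z (hu.2.2 hz)).le)
    have h2 := hP u hu
    rw [hG] at h1 h2
    have h3 : AA b u u ≤ l + 1 := hA.trans (by gcongr; exact min_le_left _ _)
    have h4 : AA b u u + 4 * 1 + ∫ z, u z ^ 2 ≤ l + 1 + 4 + P := by linarith
    have h5 : 3 * K ^ 2 * (AA b u u + 4 * 1 + ∫ z, u z ^ 2) ≤ 3 * K ^ 2 * (l + 1 + 4 + P) := by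
      gcongr
    linarith
  have ht : 0 < τ / M := by positivity
  have h := near_EL b (th := τ ^ 2 / M) hl hmin hu hw hG
    (hA.trans (by gcongr; exact min_le_right _ _)) ht hAw
  refine h.trans ?_
  have : (τ ^ 2 / M + (τ / M) ^ 2 * M) / (2 * (τ / M)) = τ := by
    field_simp
    ring
  rw [this]

end Pool.Agent.helper33.Buck
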