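import Mathlib
import Pool.Agent.helper33.Buck.Cut

/-!
The core contradiction.
-/

open MeasureTheory Set InnerProductSpace
open scoped ContDiff

namespace Pool.Agent.helper33.Buck

variable (b : OrthonormalBasis (Fin 2) ℝ E2) (x₀ : E2)

lemma div_X3 {u : E2 → ℝ} (hu : ContDiff ℝ ∞ u) (hc : HasCompactSupport u)
    (hX : ∀ z ∈ tsupport u, 0 < X b x₀ z) :
    ∃ q : E2 → ℝ, ContDiff ℝ ∞ q ∧ HasCompactSupport q ∧ tsupport q ⊆ tsupport u ∧
      u = fun z => X b x₀ z ^ 3 * q z := by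
  have hsub : tsupport (fun z => u z / X b x₀ z ^ 3) ⊆ tsupport u := by
    apply closure_minimal _ (isClosed_tsupport u)
    intro z hz
    by_contra h'
    exact hz (by simp [q_zero h'])
  refine ⟨fun z => u z / X b x₀ z ^ 3, ?_, ?_, hsub, ?_⟩
  · rw [contDiff_iff_contDiffAt]
    intro z
    by_cases hz : z ∈ tsupport u
    · exact hu.contDiffAt.div ((X_smooth b x₀).contDiffAt.pow 3) (pow_ne_zero 3 (hX z hz).ne')
    · have h : (fun z => u z / X b x₀ z ^ 3) =ᶠ[nhds z] fun _ => 0 := by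
        filter_upwards [notMem_tsupport_iff_eventuallyEq.mp hz] with y hy
        simp [hy]
      exact contDiffAt_const.congr_of_eventuallyEq h
  · exact HasCompactSupport.intro hc (fun z hz => by simp [q_zero hz])
  · funext z
    by_cases hz : z ∈ tsupport u
    · field_simp [(hX z hz).ne']
    · simp [q_zero hz]

lemma D0_u {q : E2 → ℝ} (hq : ContDiff ℝ ∞ q) : D (b 0) (fun z => X b x₀ z ^ 3 * q z)
    = fun z => X b x₀ z ^ 2 * (3 * q z + X b x₀ z * D (b 0) q z) := by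
  have hX : Differentiable ℝ (X b x₀) := (X_smooth b x₀).differentiable (by simp)
  have h0 : Differentiable ℝ q := hq.differentiable (by simp)
  funext z
  simp (disch := fun_prop) only [D_mul, D_pow, D0X]
  norm_num
  ring

lemma D1_u {q : E2 → ℝ} (hq : ContDiff ℝ ∞ q) : D (b 1) (fun z => X b x₀ z ^ 3 * q z)
    = fun z => X b x₀ z ^ 3 * D (b 1) q z := by
  have hX : Differentiable ℝ (X b x₀) := (X_smooth b x₀).differentiable (by simp)
  have h0 : Differentiable ℝ q := hq.differentiable (by simp)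
  funext z
  simp (disch := fun_prop) only [D_mul, D_pow, D1X]
  norm_num

lemma W1_nonneg {q : E2 → ℝ} {z : E2} (h : 0 < X b x₀ z) : 0 ≤ W1 b x₀ q z := by
  unfold W1; positivity

lemma W0_nonneg {q : E2 → ℝ} {z : E2} (h : 0 < X b x₀ z) : 0 ≤ W0 b x₀ q z := by
  unfold W0; positivity

lemma W0_int {q : E2 → ℝ} (hq : ContDiff ℝ ∞ q) (hc : HasCompactSupport q) :
    Integrable (W0 b x₀ q) := by
  have c0 := hq.continuous
  have cX := (X_smooth b x₀).continuous
  exact integrable_of_zero (by unfold W0; fun_prop) hc (fun z hz => by simp [q_zero hz, W0])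

lemma W1_int {q : E2 → ℝ} (hq : ContDiff ℝ ∞ q) (hc : HasCompactSupport q) :
    Integrable (W1 b x₀ q) := by
  have c0 := hq.continuous
  have cX := (X_smooth b x₀).continuous
  have c1 := (D_smooth hq (b 0)).continuous
  have c2 := (D_smooth hq (b 1)).continuous
  exact integrable_of_zero (by unfold W1; fun_prop) hc
    (fun z hz => by simp [q_zero hz, D_zero _ hz, W1])

lemma grad_sq_u {q : E2 → ℝ} (hq : ContDiff ℝ ∞ q) (z : E2) :
    D (b 0) (fun z => X b x₀ z ^ 3 * q z) z ^ 2 + D (b 1) (fun z => X b x₀ z ^ 3 * q z) z ^ 2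
      = X b x₀ z ^ 3 * W1 b x₀ q z := by
  rw [D0_u b x₀ hq, D1_u b x₀ hq, W1]
  ring

/-- bound for the weighted energy of a near-minimizer -/
lemma En_bound {q : E2 → ℝ} (hq : ContDiff ℝ ∞ q) (hc : HasCompactSupport q) {m l : ℝ}
    (hsec : ∀ z ∈ tsupport q, 0 < X b x₀ z ∧ |Y b x₀ z| ≤ m * X b x₀ z)
    (hl : 0 ≤ l)
    (hG : GG b (fun z => X b x₀ z ^ 3 * q z) (fun z => X b x₀ z ^ 3 * q z) = 1)
    (hEL : AA b (fun z => X b x₀ z ^ 3 * q z) (fun z => X b x₀ z ^ 2 * q z)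
      - l * GG b (fun z => X b x₀ z ^ 3 * q z) (fun z => X b x₀ z ^ 2 * q z) ≤ 1) :
    (∫ z, W0 b x₀ q z) + (∫ z, W1 b x₀ q z)
      ≤ (10 * m ^ 2 + 1) * (2 + 4 * l * (l + 1) * (9 * m ^ 2 + 1)) := by
  obtain ⟨h0, h1⟩ := coer b x₀ hq hc (m := m) hsec
  have hW1 : 0 ≤ ∫ z, W1 b x₀ q z := by
    apply integral_nonneg
    intro z
    by_cases hz : z ∈ tsupport q
    · exact W1_nonneg b x₀ (hsec z hz).1
    · simp [W1, q_zero hz, D_zero _ hz]
  have hE : 0 ≤ En b x₀ q := by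
    by_contra hcon
    push Not at hcon
    have : (9 * m ^ 2 + 1) * En b x₀ q < 0 := mul_neg_of_pos_of_neg (by positivity) hcon
    linarith
  set k : ℝ := 9 * m ^ 2 + 1 with hk
  have hk0 : 0 < k := by positivity
  have hk1 : 1 ≤ k := by nlinarith [sq_nonneg m]
  set s : ℝ := 1 / (2 * (l + 1) * k) with hs
  have hs0 : 0 < s := by positivity
  have hs1 : s ≤ 1 := by
    rw [hs, div_le_one (by positivity)]
    nlinarith
  have h2 := GG_weight b x₀ hq hc (s := s) (fun z hz => (hsec z hz).1) hs0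
  rw [hG] at h2
  have hE1 : En b x₀ q = AA b (fun z => X b x₀ z ^ 3 * q z) (fun z => X b x₀ z ^ 2 * q z) := rfl
  have h3 : s ^ 2 * (∫ z, W1 b x₀ q z) ≤ s * (k * En b x₀ q) := by
    have : s ^ 2 ≤ s := by nlinarith
    calc s ^ 2 * (∫ z, W1 b x₀ q z) ≤ s * (∫ z, W1 b x₀ q z) := by gcongr
      _ ≤ s * (k * En b x₀ q) := by gcongr
  have h4 : l * (s * (k * En b x₀ q)) ≤ (1/2) * En b x₀ q := by
    have : l * (s * (k * En b x₀ q)) = (1/2) * En b x₀ q * (l / (l + 1)) := by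
      rw [hs]; field_simp
    rw [this]
    have h5 : l / (l + 1) ≤ 1 := by rw [div_le_one (by positivity)]; linarith
    have h6 : 0 ≤ (1/2) * En b x₀ q := by positivity
    nlinarith
  have h7 : 1 / s * 1 = 2 * (l + 1) * k := by
    rw [hs]; field_simp
  have h8 : l * GG b (fun z => X b x₀ z ^ 3 * q z) (fun z => X b x₀ z ^ 2 * q z) ≤
      l * (s * (k * En b x₀ q)) + l * (2 * (l + 1) * k) := by
    rw [← mul_add]
    apply mul_le_mul_of_nonneg_left _ hl
    rw [h7] at h2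
    linarith
  have h9 : En b x₀ q ≤ 2 + 4 * l * (l + 1) * k := by
    rw [← hE1] at hEL
    nlinarith
  calc (∫ z, W0 b x₀ q z) + (∫ z, W1 b x₀ q z) ≤ m ^ 2 * En b x₀ q + k * En b x₀ q := by
        linarith
    _ = (10 * m ^ 2 + 1) * En b x₀ q := by rw [hk]; ring
    _ ≤ (10 * m ^ 2 + 1) * (2 + 4 * l * (l + 1) * k) := by gcongr

/-- one scale -/
lemma scale_est {Ω : Set E2} {q : E2 → ℝ} (hq : ContDiff ℝ ∞ q) (hc : HasCompactSupport q)
    {l Λ c η τ e Z CW : ℝ}
    (hX : ∀ z ∈ tsupport q, 0 < X b x₀ z)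
    (hΩ : tsupport q ⊆ Ω)
    (hl : 0 ≤ l) (hc0 : 0 < c) (he : 0 < e)
    (hG : GG b (fun z => X b x₀ z ^ 3 * q z) (fun z => X b x₀ z ^ 3 * q z) = 1)
    (hlow : ∀ f, Tst (Ω ∩ {z | e < X b x₀ z}) f → (Λ + c * e) * GG b f f ≤ AA b f f)
    (hlΛ : l ≤ Λ + η) (hη : η ≤ c * e / 2) (hτ : τ ≤ c * e / 16)
    (hEL : AA b (fun z => X b x₀ z ^ 3 * q z) (fun z => S (X b x₀ z / e) ^ 2 * (X b x₀ z ^ 3 * q z))
      - l * GG b (fun z => X b x₀ z ^ 3 * q z)
        (fun z => S (X b x₀ z / e) ^ 2 * (X b x₀ z ^ 3 * q z)) ≤ τ)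
    (hZ4 : 4 ≤ Z)
    (hZ : ∀ t : ℝ, 0 ≤ t → 12 * (t ^ 3 * deriv S t ^ 2) ≤ Z ∧
      4 * (t ^ 5 * deriv (deriv S) t ^ 2) ≤ Z ∧ t ^ 5 * deriv S t ^ 2 ≤ Z)
    (hW : (∫ z, W0 b x₀ q z) + (∫ z, W1 b x₀ q z) ≤ CW) (hCW : Z * e ^ 3 * CW ≤ 1/4) :
    c / 16 ≤ ∫ z, (12 * ((X b x₀ z / e) ^ 3 * deriv S (X b x₀ z / e) ^ 2) * W1 b x₀ q z
      + 4 * ((X b x₀ z / e) ^ 5 * deriv (deriv S) (X b x₀ z / e) ^ 2) * W0 b x₀ q z) := by
  have hfox := FOX_S b x₀ he
  have hu : ContDiff ℝ ∞ (fun z => X b x₀ z ^ 3 * q z) := by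
    have := X_smooth b x₀
    fun_prop
  have huc : HasCompactSupport (fun z => X b x₀ z ^ 3 * q z) :=
    HasCompactSupport.intro hc (fun z hz => by simp [q_zero hz])
  have hloc := localize b hfox hu huc hl
  have hge := GG_mul_ge b hfox hu huc
  rw [hG] at hge
  -- the test function
  have htst : Tst (Ω ∩ {z | e < X b x₀ z}) (fun z => S (X b x₀ z / e) * (X b x₀ z ^ 3 * q z)) := by
    refine ⟨?_, ?_, ?_⟩
    · have := hfox.s0
      fun_prop
    · exact HasCompactSupport.intro hc (fun z hz => by simp [q_zero hz])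
    · have h1 : tsupport (fun z => S (X b x₀ z / e) * (X b x₀ z ^ 3 * q z)) ⊆
          tsupport q ∩ {z | 3/2 * e ≤ X b x₀ z} := by
        apply closure_minimal
        · intro z hz
          refine ⟨?_, ?_⟩
          · by_contra h'
            exact hz (by simp [q_zero h'])
          · by_contra h'
            simp only [mem_ofPred_eq, not_le] at h'
            have : X b x₀ z / e ≤ 3/2 := by rw [div_le_iff₀ he]; linarith
            exact hz (by simp [S_zero this])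
        · exact (isClosed_tsupport q).inter
            (isClosed_le continuous_const (X_smooth b x₀).continuous)
      intro z hz
      obtain ⟨h2, h3⟩ := h1 hz
      refine ⟨hΩ h2, ?_⟩
      simp only [mem_ofPred_eq] at h3 ⊢
      linarith
  have hlo := hlow _ htst
  have cX := (X_smooth b x₀).continuous
  have c0 := hq.continuous
  have cS := S_smooth.continuous
  have cS1 := (deriv_smooth S_smooth).continuous
  have cS2 := (deriv_smooth (deriv_smooth S_smooth)).continuous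
  have cW0 : Continuous (W0 b x₀ q) := by unfold W0; fun_prop
  have c1 := (D_smooth hq (b 0)).continuous
  have c2 := (D_smooth hq (b 1)).continuous
  have cW1 : Continuous (W1 b x₀ q) := by unfold W1; fun_prop
  have W0z : ∀ z, z ∉ tsupport q → W0 b x₀ q z = 0 := fun z hz => by simp [W0, q_zero hz]
  have W1z : ∀ z, z ∉ tsupport q → W1 b x₀ q z = 0 := fun z hz => by
    simp [W1, q_zero hz, D_zero _ hz]
  -- rewriting the error term
  have eint : ∫ z, (12 * (deriv S (X b x₀ z / e) / e) ^ 2 *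
      (D (b 0) (fun z => X b x₀ z ^ 3 * q z) z ^ 2 + D (b 1) (fun z => X b x₀ z ^ 3 * q z) z ^ 2)
          + 4 * (deriv (deriv S) (X b x₀ z / e) / e ^ 2) ^ 2 * (X b x₀ z ^ 3 * q z) ^ 2)
      = e * ∫ z, (12 * ((X b x₀ z / e) ^ 3 * deriv S (X b x₀ z / e) ^ 2) * W1 b x₀ q z
      + 4 * ((X b x₀ z / e) ^ 5 * deriv (deriv S) (X b x₀ z / e) ^ 2) * W0 b x₀ q z) := by
    rw [← integral_const_mul]
    congr 1
    funext z
    rw [grad_sq_u b x₀ hq, W0]
    field_simp
  rw [eint] at hloc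
  -- lower bound of the Dirichlet integral
  have hlower : ∫ z, ((1/2) * (1 - S (X b x₀ z / e) ^ 2) *
      (D (b 0) (fun z => X b x₀ z ^ 3 * q z) z ^ 2 + D (b 1) (fun z => X b x₀ z ^ 3 * q z) z ^ 2)
      + (deriv S (X b x₀ z / e) / e) ^ 2 * (X b x₀ z ^ 3 * q z) ^ 2) ≤
      ∫ z, (Z * e ^ 3) * (W0 b x₀ q z + W1 b x₀ q z) := by
    apply integral_mono
    · apply integrable_of_zero _ hc
      · intro z hz
        rw [grad_sq_u b x₀ hq]
        simp [q_zero hz, W1z z hz]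
      · simp_rw [grad_sq_u b x₀ hq]
        fun_prop
    · exact ((W0_int b x₀ hq hc).add (W1_int b x₀ hq hc)).const_mul _
    · intro z
      simp only []
      rw [grad_sq_u b x₀ hq]
      by_cases hz : z ∈ tsupport q
      · have hx := hX z hz
        have w1 := W1_nonneg b x₀ (q := q) hx
        have w0 := W0_nonneg b x₀ (q := q) hx
        have hS0 := S_nonneg (X b x₀ z / e)
        have hS1 := S_le_one (X b x₀ z / e)
        have e1 : (1 - S (X b x₀ z / e) ^ 2) * X b x₀ z ^ 3 ≤ 8 * e ^ 3 := by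
          by_cases hx2 : 2 * e ≤ X b x₀ z
          · have : 2 ≤ X b x₀ z / e := by rw [le_div_iff₀ he]; exact hx2
            rw [S_one this]
            have : 0 < e ^ 3 := by positivity
            nlinarith
          · push Not at hx2
            have h3 : X b x₀ z ^ 3 ≤ (2 * e) ^ 3 := by gcongr
            have h4 : 1 - S (X b x₀ z / e) ^ 2 ≤ 1 := by nlinarith [sq_nonneg (S (X b x₀ z / e))]
            have h5 : 0 ≤ 1 - S (X b x₀ z / e) ^ 2 := by nlinarith
            calc (1 - S (X b x₀ z / e) ^ 2) * X b x₀ z ^ 3 ≤ 1 * (2 * e) ^ 3 := by gcongr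
              _ = 8 * e ^ 3 := by ring
        have e2 : (deriv S (X b x₀ z / e) / e) ^ 2 * (X b x₀ z ^ 3 * q z) ^ 2
            = e ^ 3 * ((X b x₀ z / e) ^ 5 * deriv S (X b x₀ z / e) ^ 2) * W0 b x₀ q z := by
          rw [W0]; field_simp
        rw [e2]
        have e3 := (hZ (X b x₀ z / e) (by positivity)).2.2
        have e4 : e ^ 3 * ((X b x₀ z / e) ^ 5 * deriv S (X b x₀ z / e) ^ 2) * W0 b x₀ q z
            ≤ e ^ 3 * Z * W0 b x₀ q z := by gcongr
        have e5 : (1/2) * (1 - S (X b x₀ z / e) ^ 2) * (X b x₀ z ^ 3 * W1 b x₀ q z)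
            ≤ (1/2) * (8 * e ^ 3) * W1 b x₀ q z := by
          have := mul_le_mul_of_nonneg_right e1 w1
          nlinarith
        have e6 : 4 * e ^ 3 * W1 b x₀ q z ≤ Z * e ^ 3 * W1 b x₀ q z := by gcongr
        nlinarith
      · rw [W1z z hz, W0z z hz, q_zero hz]
        simp
  rw [integral_const_mul, integral_add (W0_int b x₀ hq hc) (W1_int b x₀ hq hc)] at hlower
  have hZe : 0 < Z * e ^ 3 := by positivity
  have h10 : Z * e ^ 3 * ((∫ z, W0 b x₀ q z) + ∫ z, W1 b x₀ q z) ≤ 1/4 :=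
    (mul_le_mul_of_nonneg_left hW hZe.le).trans hCW
  have hGG : 1/4 ≤ GG b (fun z => S (X b x₀ z / e) * (X b x₀ z ^ 3 * q z))
      (fun z => S (X b x₀ z / e) * (X b x₀ z ^ 3 * q z)) := by
    linarith
  -- conclusion
  set GV := GG b (fun z => S (X b x₀ z / e) * (X b x₀ z ^ 3 * q z))
      (fun z => S (X b x₀ z / e) * (X b x₀ z ^ 3 * q z)) with hGV
  set AV := AA b (fun z => S (X b x₀ z / e) * (X b x₀ z ^ 3 * q z))
      (fun z => S (X b x₀ z / e) * (X b x₀ z ^ 3 * q z)) with hAV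
  set J := ∫ z, (12 * ((X b x₀ z / e) ^ 3 * deriv S (X b x₀ z / e) ^ 2) * W1 b x₀ q z
      + 4 * ((X b x₀ z / e) ^ 5 * deriv (deriv S) (X b x₀ z / e) ^ 2) * W0 b x₀ q z) with hJ
  have h11 : (c * e / 2) * GV ≤ AV - l * GV := by
    have : (c * e / 2) * GV ≤ (Λ + c * e - l) * GV := by
      apply mul_le_mul_of_nonneg_right _ (by linarith)
      linarith
    linarith
  have h12 : (c * e / 2) * (1/4) ≤ (c * e / 2) * GV := by gcongr
  have h13 : c * e / 8 ≤ c * e / 16 + e * J := by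
    linarith
  have h14 : e * (c / 16) ≤ e * J := by linarith
  exact le_of_mul_le_mul_left h14 he

end Pool.Agent.helper33.Buck
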