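import Mathlib
import Pool.Agent.helper33.Buck.Core

/-!
The core contradiction.
-/

open MeasureTheory Set InnerProductSpace
open scoped ContDiff

namespace Pool.Agent.helper33.Buck

variable (b : OrthonormalBasis (Fin 2) ℝ E2) (x₀ : E2)

lemma AA_smul {f : E2 → ℝ} (hf : ContDiff ℝ ∞ f) (c : ℝ) :
    AA b (fun z => c * f z) (fun z => c * f z) = c ^ 2 * AA b f f := by
  have h0 : Differentiable ℝ f := hf.differentiable (by simp)
  have h1 : Differentiable ℝ (D (b 0) f) := (D_smooth hf _).differentiable (by simp)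
  have h2 : Differentiable ℝ (D (b 1) f) := (D_smooth hf _).differentiable (by simp)
  simp only [AA, lap]
  rw [← integral_const_mul]
  congr 1
  funext z
  simp (disch := fun_prop) only [D_mul, D_add, D_const]
  ring

lemma GG_smul {f : E2 → ℝ} (hf : ContDiff ℝ ∞ f) (c : ℝ) :
    GG b (fun z => c * f z) (fun z => c * f z) = c ^ 2 * GG b f f := by
  have h0 : Differentiable ℝ f := hf.differentiable (by simp)
  simp only [GG]
  rw [← integral_const_mul]
  congr 1
  funext z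
  simp (disch := fun_prop) only [D_mul, D_const]
  ring

/-- The bottom of the spectrum of the pair of forms on `U`. -/
lemma exists_bottom {U : Set E2} {f : E2 → ℝ} (hf : Tst U f) (hG : 0 < GG b f f) {Λ μ : ℝ}
    (hinf : ∀ f, Tst U f → Λ * GG b f f ≤ AA b f f) (hμ : AA b f f ≤ μ * GG b f f) :
    ∃ l : ℝ, Λ ≤ l ∧ l ≤ μ ∧ (∀ f, Tst U f → l * GG b f f ≤ AA b f f) ∧
      ∀ th : ℝ, 0 < th → ∃ u, Tst U u ∧ GG b u u = 1 ∧ AA b u u ≤ l + th := by
  set R : Set ℝ := {r | ∃ u, Tst U u ∧ GG b u u = 1 ∧ AA b u u = r} with hR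
  have norm : ∀ g, Tst U g → 0 < GG b g g → AA b g g / GG b g g ∈ R := by
    intro g hg hgG
    refine ⟨fun z => (1 / Real.sqrt (GG b g g)) * g z, hg.mul contDiff_const, ?_, ?_⟩
    · rw [GG_smul b hg.1, div_pow, Real.sq_sqrt hgG.le]
      field_simp
    · rw [AA_smul b hg.1, div_pow, Real.sq_sqrt hgG.le]
      field_simp
  have hne : R.Nonempty := ⟨_, norm f hf hG⟩
  have hbd : ∀ r ∈ R, Λ ≤ r := by
    rintro r ⟨u, hu, hu1, rfl⟩
    have := hinf u hu
    rw [hu1] at this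
    linarith
  have hbdd : BddBelow R := ⟨Λ, hbd⟩
  refine ⟨sInf R, le_csInf hne hbd, ?_, ?_, ?_⟩
  · refine (csInf_le hbdd (norm f hf hG)).trans ?_
    rw [div_le_iff₀ hG]
    exact hμ
  · intro g hg
    rcases (GG_nonneg b g).eq_or_lt with h0 | h0
    · rw [← h0]
      simpa using AA_nonneg b g
    · have := csInf_le hbdd (norm g hg h0)
      rwa [le_div_iff₀ h0] at this
  · intro th hth
    obtain ⟨r, ⟨u, hu, hu1, rfl⟩, hlt⟩ := exists_lt_of_csInf_lt hne
      (show sInf R < sInf R + th by linarith)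
    exact ⟨u, hu, hu1, hlt.le⟩

lemma sum_le_of_unique {ι : Type*} (s : Finset ι) (f : ι → ℝ) {B : ℝ} (hB : 0 ≤ B)
    (h1 : ∀ i ∈ s, f i ≤ B) (h2 : ∀ i ∈ s, ∀ j ∈ s, f i ≠ 0 → f j ≠ 0 → i = j) :
    ∑ i ∈ s, f i ≤ B := by
  by_cases h : ∃ i ∈ s, f i ≠ 0
  · obtain ⟨i, hi, hi0⟩ := h
    rw [Finset.sum_eq_single_of_mem i hi]
    · exact h1 i hi
    · intro j hj hji
      by_contra hj0
      exact hji (h2 j hj i hi hj0 hi0)
  · push Not at h
    rw [Finset.sum_eq_zero h]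
    exact hB

theorem core {Ω : Set E2} {m P Λ c e₀ : ℝ}
    (hsec : ∀ z ∈ Ω, 0 < X b x₀ z ∧ |Y b x₀ z| ≤ m * X b x₀ z)
    (hP0 : 0 ≤ P) (hP : ∀ f, Tst Ω f → ∫ z, f z ^ 2 ≤ P * GG b f f)
    (hΛ : 0 ≤ Λ) (hc : 0 < c) (he₀ : 0 < e₀)
    (hlow : ∀ e, 0 < e → e < e₀ → ∀ f, Tst (Ω ∩ {z | e < X b x₀ z}) f →
      (Λ + c * e) * GG b f f ≤ AA b f f)
    (hinf : ∀ f, Tst Ω f → Λ * GG b f f ≤ AA b f f)
    (happ : ∀ η : ℝ, 0 < η → ∃ f, Tst Ω f ∧ 0 < GG b f f ∧ AA b f f ≤ (Λ + η) * GG b f f) :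
    False := by
  obtain ⟨Z, hZ4, hZ⟩ := exists_Z
  set CW : ℝ := (10 * m ^ 2 + 1) * (2 + 4 * (Λ + 1) * ((Λ + 1) + 1) * (9 * m ^ 2 + 1)) with hCW
  have hCW0 : 0 < CW := by positivity
  -- the largest scale
  obtain ⟨es, hes0, hes1, hes2⟩ : ∃ es : ℝ, 0 < es ∧ es < e₀ ∧ Z * es ^ 3 * CW ≤ 1/4 := by
    set a : ℝ := 1 / (4 * Z * CW) with ha
    have ha0 : 0 < a := by positivity
    refine ⟨min (e₀ / 2) (min 1 a), by positivity, ?_, ?_⟩
    · have := min_le_left (e₀ / 2) (min 1 a)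
      linarith
    · set es := min (e₀ / 2) (min 1 a) with hes
      have h0 : 0 < es := by positivity
      have h1 : es ≤ 1 := (min_le_right _ _).trans (min_le_left _ _)
      have h2 : es ≤ a := (min_le_right _ _).trans (min_le_right _ _)
      have h3 : es ^ 3 ≤ es := by
        have : es ^ 3 = es * es ^ 2 := by ring
        rw [this]
        have h4 : es ^ 2 ≤ 1 := by nlinarith
        nlinarith
      have h5 : es ^ 3 ≤ a := h3.trans h2
      calc Z * es ^ 3 * CW ≤ Z * a * CW := by gcongr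
        _ = 1/4 := by rw [ha]; field_simp
  -- number of scales
  obtain ⟨N, hN⟩ := exists_nat_gt (16 * Z * CW / c)
  have hN' : Z * CW < N * (c / 16) := by
    rw [div_lt_iff₀ hc] at hN
    linarith
  have hes : ∀ k : ℕ, 0 < es * (1/2) ^ k := fun k => by positivity
  have hesle : ∀ k : ℕ, es * (1/2) ^ k ≤ es := fun k => by
    have : ((1:ℝ)/2) ^ k ≤ 1 := pow_le_one₀ (by norm_num) (by norm_num)
    nlinarith
  have hesN : ∀ k ∈ Finset.range N, es * (1/2) ^ N ≤ es * (1/2) ^ k := fun k hk => by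
    apply mul_le_mul_of_nonneg_left _ hes0.le
    exact pow_le_pow_of_le_one (by norm_num) (by norm_num) (Finset.mem_range.mp hk).le
  set eN : ℝ := es * (1/2) ^ N with heN
  have heN0 : 0 < eN := hes N
  set η : ℝ := min 1 (c * eN / 2) with hη
  have hη0 : 0 < η := by positivity
  obtain ⟨f, hf, hfG, hfA⟩ := happ η hη0
  -- support away from the corner
  obtain ⟨ρ, hρ, hρf⟩ : ∃ ρ : ℝ, 0 < ρ ∧ ∀ z ∈ tsupport f, ρ < X b x₀ z := by
    by_cases hne : (tsupport f).Nonempty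
    · obtain ⟨z0, hz0, hmin⟩ := hf.2.1.isCompact.exists_isMinOn hne
        (X_smooth b x₀).continuous.continuousOn
      have hx0 := (hsec z0 (hf.2.2 hz0)).1
      refine ⟨X b x₀ z0 / 2, by positivity, fun z hz => ?_⟩
      have := hmin hz
      simp only [mem_ofPred_eq] at this
      linarith
    · exact ⟨1, one_pos, fun z hz => absurd ⟨z, hz⟩ hne⟩
  set ρ0 : ℝ := min ρ eN with hρ0
  have hρ00 : 0 < ρ0 := by positivity
  set U : Set E2 := Ω ∩ {z | ρ0 < X b x₀ z} with hU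
  have hfU : Tst U f := ⟨hf.1, hf.2.1, fun z hz => ⟨hf.2.2 hz,
    lt_of_le_of_lt (min_le_left _ _) (hρf z hz)⟩⟩
  have hUΩ : U ⊆ Ω := inter_subset_left
  obtain ⟨l, hl1, hl2, hl3, hl4⟩ := exists_bottom b hfU hfG
    (fun g hg => hinf g (hg.mono hUΩ)) hfA
  have hl0 : 0 ≤ l := hΛ.trans hl1
  have hUX : ∀ z ∈ U, 0 < X b x₀ z := fun z hz => (hsec z hz.1).1
  have hPU : ∀ f, Tst U f → ∫ z, f z ^ 2 ≤ P * GG b f f := fun f hf => hP f (hf.mono hUΩ)
  -- thresholds
  obtain ⟨gw, hgw, hgwB, hgw1⟩ := exists_gw hρ00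
  obtain ⟨thw, hthw, hthw1⟩ := near b x₀ hl0 hP0 hUX hPU hl3 hgw hgwB (τ := 1) one_pos
  have hgk : ∀ k : ℕ, ∃ th : ℝ, 0 < th ∧ ∀ u, Tst U u → GG b u u = 1 → AA b u u ≤ l + th →
      AA b u (fun z => S (X b x₀ z / (es * (1/2) ^ k)) ^ 2 * u z)
      - l * GG b u (fun z => S (X b x₀ z / (es * (1/2) ^ k)) ^ 2 * u z) ≤ c * eN / 16 := by
    intro k
    have hg : ContDiff ℝ ∞ (fun t => S (t / (es * (1/2) ^ k)) ^ 2) := by
      have : ContDiff ℝ ∞ (fun t => S (t / (es * (1/2) ^ k))) := S_smooth.comp (by fun_prop)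
      exact this.pow 2
    exact near b x₀ hl0 hP0 hUX hPU hl3 hg (Bd_S (hes k)) (by positivity)
  choose th hth0 hth1 using hgk
  obtain ⟨θ, hθ0, hθw, hθk⟩ : ∃ θ : ℝ, 0 < θ ∧ θ ≤ thw ∧ ∀ k ∈ Finset.range N, θ ≤ th k := by
    by_cases hNe : (Finset.range N).Nonempty
    · obtain ⟨k0, _, hk0⟩ := Finset.exists_min_image (Finset.range N) th hNe
      exact ⟨min thw (th k0), lt_min hthw (hth0 k0), min_le_left _ _,
        fun k hk => (min_le_right _ _).trans (hk0 k hk)⟩
    · exact ⟨thw, hthw, le_rfl, fun k hk => absurd ⟨k, hk⟩ hNe⟩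
  obtain ⟨u, hu, huG, huA⟩ := hl4 θ hθ0
  obtain ⟨q, hq, hqc, hqs, hqu⟩ := div_X3 b x₀ hu.1 hu.2.1 (fun z hz => hUX z (hu.2.2 hz))
  have hqU : tsupport q ⊆ U := hqs.trans hu.2.2
  have hELw := hthw1 u hu huG (huA.trans (by linarith))
  have hwq : (fun z => gw (X b x₀ z) * u z) = fun z => X b x₀ z ^ 2 * q z := by
    funext z
    by_cases hz : z ∈ tsupport q
    · have h1 : ρ0 < X b x₀ z := (hqU hz).2
      have h2 : X b x₀ z ≠ 0 := (hUX z (hqU hz)).ne'
      rw [hgw1 _ h1.le, hqu]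
      field_simp
    · rw [hqu]
      simp [q_zero hz]
  rw [hwq, hqu] at hELw
  rw [hqu] at huG
  have hsq : ∀ z ∈ tsupport q, 0 < X b x₀ z ∧ |Y b x₀ z| ≤ m * X b x₀ z :=
    fun z hz => hsec z (hUΩ (hqU hz))
  have hWb := En_bound b x₀ hq hqc hsq hl0 huG hELw
  have hlΛ1 : l ≤ Λ + 1 := hl2.trans (by gcongr; exact min_le_left _ _)
  have hWb2 : (∫ z, W0 b x₀ q z) + (∫ z, W1 b x₀ q z) ≤ CW := by
    refine hWb.trans ?_
    rw [hCW]
    gcongr
  -- all scales
  have hall : ∀ k ∈ Finset.range N, c / 16 ≤ ∫ z, (12 * ((X b x₀ z / (es * (1/2) ^ k)) ^ 3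
      * deriv S (X b x₀ z / (es * (1/2) ^ k)) ^ 2) * W1 b x₀ q z
      + 4 * ((X b x₀ z / (es * (1/2) ^ k)) ^ 5
      * deriv (deriv S) (X b x₀ z / (es * (1/2) ^ k)) ^ 2) * W0 b x₀ q z) := by
    intro k hk
    have hEL := hth1 k u hu (by rw [hqu]; exact huG) (huA.trans (by linarith [hθk k hk]))
    rw [hqu] at hEL
    have hek := hesN k hk
    have hek0 := hes k
    have h1 : c * eN ≤ c * (es * (1/2) ^ k) := by gcongr
    refine scale_est b x₀ hq hqc (Ω := Ω) (l := l) (Λ := Λ) (c := c) (η := η) (τ := c * eN / 16)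
      (e := es * (1/2) ^ k) (Z := Z) (CW := CW) (fun z hz => (hsq z hz).1) (hqU.trans hUΩ)
      hl0 hc hek0 huG (hlow _ hek0 ((hesle k).trans_lt hes1)) hl2 ?_ ?_ hEL hZ4 hZ hWb2 ?_
    · have : η ≤ c * eN / 2 := min_le_right _ _
      linarith
    · linarith
    · have h2 : (es * (1/2) ^ k) ^ 3 ≤ es ^ 3 := by
        have := hesle k
        gcongr
      calc Z * (es * (1/2) ^ k) ^ 3 * CW ≤ Z * es ^ 3 * CW := by gcongr
        _ ≤ 1/4 := hes2
  -- continuity facts
  have cX := (X_smooth b x₀).continuous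
  have c0 := hq.continuous
  have cS1 := (deriv_smooth S_smooth).continuous
  have cS2 := (deriv_smooth (deriv_smooth S_smooth)).continuous
  have c1 := (D_smooth hq (b 0)).continuous
  have c2 := (D_smooth hq (b 1)).continuous
  have cW0 : Continuous (W0 b x₀ q) := by unfold W0; fun_prop
  have cW1 : Continuous (W1 b x₀ q) := by unfold W1; fun_prop
  have W0z : ∀ z, z ∉ tsupport q → W0 b x₀ q z = 0 := fun z hz => by simp [W0, q_zero hz]
  have W1z : ∀ z, z ∉ tsupport q → W1 b x₀ q z = 0 := fun z hz => by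
    simp [W1, q_zero hz, D_zero _ hz]
  have hsum : (N : ℝ) * (c / 16) ≤ ∫ z, ∑ k ∈ Finset.range N,
      (12 * ((X b x₀ z / (es * (1/2) ^ k)) ^ 3
      * deriv S (X b x₀ z / (es * (1/2) ^ k)) ^ 2) * W1 b x₀ q z
      + 4 * ((X b x₀ z / (es * (1/2) ^ k)) ^ 5
      * deriv (deriv S) (X b x₀ z / (es * (1/2) ^ k)) ^ 2) * W0 b x₀ q z) := by
    rw [integral_finsetSum]
    · have := Finset.sum_le_sum hall
      simpa using this
    · intro k _
      apply integrable_of_zero _ hqc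
      · intro z hz
        simp [W0z z hz, W1z z hz]
      · fun_prop
  have hbound : ∫ z, ∑ k ∈ Finset.range N,
      (12 * ((X b x₀ z / (es * (1/2) ^ k)) ^ 3
      * deriv S (X b x₀ z / (es * (1/2) ^ k)) ^ 2) * W1 b x₀ q z
      + 4 * ((X b x₀ z / (es * (1/2) ^ k)) ^ 5
      * deriv (deriv S) (X b x₀ z / (es * (1/2) ^ k)) ^ 2) * W0 b x₀ q z) ≤
      ∫ z, Z * (W0 b x₀ q z + W1 b x₀ q z) := by
    apply integral_mono
    · apply integrable_finsetSum
      intro k _
      apply integrable_of_zero _ hqc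
      · intro z hz
        simp [W0z z hz, W1z z hz]
      · fun_prop
    · exact ((W0_int b x₀ hq hqc).add (W1_int b x₀ hq hqc)).const_mul _
    · intro z
      simp only []
      by_cases hz : z ∈ tsupport q
      · have hx := (hsq z hz).1
        have w1 := W1_nonneg b x₀ (q := q) hx
        have w0 := W0_nonneg b x₀ (q := q) hx
        apply sum_le_of_unique
        · positivity
        · intro k _
          have hk := hes k
          obtain ⟨z1, z2, _⟩ := hZ (X b x₀ z / (es * (1/2) ^ k)) (by positivity)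
          have t1 : 12 * ((X b x₀ z / (es * (1/2) ^ k)) ^ 3
            * deriv S (X b x₀ z / (es * (1/2) ^ k)) ^ 2) * W1 b x₀ q z ≤ Z * W1 b x₀ q z := by
            gcongr
          have t2 : 4 * ((X b x₀ z / (es * (1/2) ^ k)) ^ 5
            * deriv (deriv S) (X b x₀ z / (es * (1/2) ^ k)) ^ 2) * W0 b x₀ q z
              ≤ Z * W0 b x₀ q z := by
            gcongr
          linarith
        · -- at most one scale is active
          have hact : ∀ k : ℕ, (12 * ((X b x₀ z / (es * (1/2) ^ k)) ^ 3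
            * deriv S (X b x₀ z / (es * (1/2) ^ k)) ^ 2) * W1 b x₀ q z
            + 4 * ((X b x₀ z / (es * (1/2) ^ k)) ^ 5
            * deriv (deriv S) (X b x₀ z / (es * (1/2) ^ k)) ^ 2) * W0 b x₀ q z) ≠ 0 →
              3/2 * (es * (1/2) ^ k) ≤ X b x₀ z ∧ X b x₀ z ≤ 2 * (es * (1/2) ^ k) := by
            intro k hk
            have hk0 := hes k
            by_contra hcon
            apply hk
            have : X b x₀ z / (es * (1/2) ^ k) < 3/2 ∨ 2 < X b x₀ z / (es * (1/2) ^ k) := by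
              rw [div_lt_iff₀ hk0, lt_div_iff₀ hk0]
              by_contra h'
              push Not at h'
              exact hcon ⟨h'.1, h'.2⟩
            obtain ⟨d1, d2⟩ := dS_zero this
            rw [d1, d2]
            ring
          have hlt : ∀ i j : ℕ, i < j → ¬ (3/2 * (es * (1/2) ^ i) ≤ X b x₀ z ∧
              X b x₀ z ≤ 2 * (es * (1/2) ^ j)) := by
            intro i j hij hcon
            have h1 : (1/2 : ℝ) ^ j ≤ (1/2) ^ (i + 1) :=
              pow_le_pow_of_le_one (by norm_num) (by norm_num) hij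
            have h2 : es * (1/2 : ℝ) ^ j ≤ es * (1/2) ^ (i + 1) := by gcongr
            have h3 : es * (1/2 : ℝ) ^ (i + 1) = (es * (1/2) ^ i) / 2 := by ring
            have h4 := hes i
            linarith [hcon.1, hcon.2]
          intro i _ j _ hi hj
          have hi' := hact i hi
          have hj' := hact j hj
          rcases lt_trichotomy i j with h | h | h
          · exact absurd ⟨hi'.1, hj'.2⟩ (hlt i j h)
          · exact h
          · exact absurd ⟨hj'.1, hi'.2⟩ (hlt j i h)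
      · simp [W0z z hz, W1z z hz]
  rw [integral_const_mul, integral_add (W0_int b x₀ hq hqc) (W1_int b x₀ hq hqc)] at hbound
  have hfin : Z * ((∫ z, W0 b x₀ q z) + ∫ z, W1 b x₀ q z) ≤ Z * CW := by
    apply mul_le_mul_of_nonneg_left hWb2 (by linarith)
  linarith

end Pool.Agent.helper33.Buck
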