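import Mathlib
import Pool.Agent.helper33.Buck.Main
import Pool.Agent.helper33.Buck.Defs

/-!
Coordinates, divergence in a frame.
-/

open MeasureTheory Set InnerProductSpace
open scoped ContDiff

namespace Pool.Agent.helper33.Buck

variable (b : OrthonormalBasis (Fin 2) ℝ E2) (x₀ : E2)

/-- the coordinate map to `ℝ × ℝ` is measure preserving -/
lemma mp_coord : MeasurePreserving (fun z : E2 => (X b x₀ z, Y b x₀ z)) volume volume := by
  have h1 : MeasurePreserving (fun z : E2 => z - x₀) volume volume :=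
    measurePreserving_sub_right volume x₀
  have h2 := b.measurePreserving_repr
  have h3 := PiLp.volume_preserving_ofLp (Fin 2)
  have h4 := volume_preserving_finTwoArrow ℝ
  have h5 := h4.comp (h3.comp (h2.comp h1))
  convert h5 using 1
  funext z
  simp [Function.comp_def, X, Y, lin, MeasurableEquiv.finTwoArrow,
    OrthonormalBasis.repr_apply_apply, inner_sub_right]

lemma coord_inj : Function.Injective (fun z : E2 => (X b x₀ z, Y b x₀ z)) := by
  intro z w h
  simp only [Prod.mk.injEq, X, Y, lin] at h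
  have : b.repr (z - x₀) = b.repr (w - x₀) := by
    ext i
    rw [OrthonormalBasis.repr_apply_apply, OrthonormalBasis.repr_apply_apply]
    fin_cases i
    · exact h.1
    · exact h.2
  have h2 := b.repr.injective this
  simpa using h2

/-- a point with given coordinates -/
lemma norm_sub_sq (z : E2) : ‖z - x₀‖ ^ 2 = X b x₀ z ^ 2 + Y b x₀ z ^ 2 := by
  have h := b.sum_sq_norm_inner_right (z - x₀)
  rw [Fin.sum_univ_two] at h
  rw [← h]
  simp [X, Y, lin]

lemma norm_sub_le (z : E2) : ‖z - x₀‖ ≤ |X b x₀ z| + |Y b x₀ z| := by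
  have h := norm_sub_sq b x₀ z
  have h1 : 0 ≤ |X b x₀ z| := abs_nonneg _
  have h2 : 0 ≤ |Y b x₀ z| := abs_nonneg _
  have h3 : ‖z - x₀‖ ^ 2 ≤ (|X b x₀ z| + |Y b x₀ z|) ^ 2 := by
    rw [h, ← sq_abs (X b x₀ z), ← sq_abs (Y b x₀ z)]
    nlinarith [mul_nonneg h1 h2]
  exact le_of_sq_le_sq h3 (by positivity)

lemma vol_box {a a' r : ℝ} : volume {z : E2 | (a ≤ X b x₀ z ∧ X b x₀ z ≤ a') ∧ |Y b x₀ z| ≤ r}
    = ENNReal.ofReal (a' - a) * ENNReal.ofReal (2 * r) := by
  have h := (mp_coord b x₀).measure_preimage (s := Icc a a' ×ˢ Icc (-r) r)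
    (measurableSet_Icc.prod measurableSet_Icc).nullMeasurableSet
  have e : (fun z : E2 => (X b x₀ z, Y b x₀ z)) ⁻¹' (Icc a a' ×ˢ Icc (-r) r)
      = {z : E2 | (a ≤ X b x₀ z ∧ X b x₀ z ≤ a') ∧ |Y b x₀ z| ≤ r} := by
    ext z
    simp only [mem_preimage, mem_prod, mem_Icc, mem_ofPred_eq, abs_le]
  rw [← e, h, Measure.volume_eq_prod, Measure.prod_prod, Real.volume_Icc, Real.volume_Icc]
  congr 2
  ring

/-- test fields -/
def Fld (φ : E2 → E2) : Prop := ContDiff ℝ 1 φ ∧ HasCompactSupport φ ∧ ∀ x, ‖φ x‖ ≤ 1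

lemma divergence_eq {φ : E2 → E2} (hφ : Differentiable ℝ φ) (z : E2) :
    divergence φ z = D (b 0) (fun z => inner ℝ (b 0) (φ z)) z
      + D (b 1) (fun z => inner ℝ (b 1) (φ z)) z := by
  have h : ∀ i, D (b i) (fun z => inner ℝ (b i) (φ z)) z = inner ℝ (b i) (fderiv ℝ φ z (b i)) := by
    intro i
    have h1 : HasFDerivAt (fun z => inner ℝ (b i) (φ z)) ((innerSL ℝ (b i)).comp (fderiv ℝ φ z)) z :=
      (innerSL ℝ (b i)).hasFDerivAt.comp z (hφ z).hasFDerivAt
    change fderiv ℝ (fun z => inner ℝ (b i) (φ z)) z (b i) = _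
    rw [h1.fderiv]
    simp
  rw [h, h, divergence, LinearMap.trace_eq_sum_inner _ b, Fin.sum_univ_two]
  rfl

lemma laplacian_eq {u : E2 → ℝ} (hu : ContDiff ℝ ∞ u) : Laplacian.laplacian u = lap b u := by
  rw [laplacian_eq_iteratedFDeriv_orthonormalBasis u b]
  funext z
  rw [Fin.sum_univ_two, lap]
  have h1 : ∀ a : E2, D a (D a u) z = iteratedFDeriv ℝ 2 u z ![a, a] := by
    intro a
    have hd : DifferentiableAt ℝ (fderiv ℝ u) z :=
      ((hu.fderiv_right (m := ∞) le_rfl).differentiable (by simp)) z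
    change fderiv ℝ (fun z => fderiv ℝ u z a) z a = _
    rw [fderiv_clm_apply hd (by fun_prop), iteratedFDeriv_two_apply]
    simp
  rw [h1, h1]

lemma gradient_sq {u : E2 → ℝ} (z : E2) :
    ‖gradient u z‖ ^ 2 = D (b 0) u z ^ 2 + D (b 1) u z ^ 2 := by
  have h := b.sum_sq_norm_inner_right (gradient u z)
  rw [Fin.sum_univ_two] at h
  have h2 : ∀ v : E2, inner ℝ v (gradient u z) = D v u z := by
    intro v
    rw [real_inner_comm]
    simp [gradient, D]
  rw [← h, h2, h2]
  simp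

end Pool.Agent.helper33.Buck
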