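import Mathlib
import Pool.Agent.helper33.Buck.Coord

/-!
Cutting off the part of the set near the corner decreases the perimeter.
-/

open MeasureTheory Set InnerProductSpace
open scoped ContDiff

namespace Pool.Agent.helper33.Buck

variable (b : OrthonormalBasis (Fin 2) ℝ E2) (x₀ : E2)

/-- the transition function -/
noncomputable def H : ℝ → ℝ := Real.smoothTransition

lemma H_smooth : ContDiff ℝ ∞ H := Real.smoothTransition.contDiff

lemma dH_nonneg (t : ℝ) : 0 ≤ deriv H t := Real.smoothTransition.monotone.deriv_nonneg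

lemma dH_zero {t : ℝ} (h : t < 0 ∨ 1 < t) : deriv H t = 0 := by
  rcases h with h | h
  · have h1 : H =ᶠ[nhds t] fun _ => 0 := by
      filter_upwards [Iio_mem_nhds h] with s hs
      exact Real.smoothTransition.zero_of_nonpos (le_of_lt hs)
    simpa using h1.deriv_eq
  · have h1 : H =ᶠ[nhds t] fun _ => 1 := by
      filter_upwards [Ioi_mem_nhds h] with s hs
      exact Real.smoothTransition.one_of_one_le (le_of_lt hs)
    simpa using h1.deriv_eq

lemma exists_CH : ∃ C : ℝ, 0 < C ∧ ∀ t, deriv H t ≤ C := by
  have c1 : Continuous (deriv H) := (deriv_smooth H_smooth).continuous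
  obtain ⟨C, hC⟩ := (isCompact_Icc (a := (0 : ℝ)) (b := 1)).bddAbove_image c1.continuousOn
  refine ⟨max C 1, by positivity, fun t => ?_⟩
  by_cases ht : t < 0 ∨ 1 < t
  · rw [dH_zero ht]; positivity
  · push Not at ht
    exact le_max_of_le_left (hC ⟨t, ⟨ht.1, ht.2⟩, rfl⟩)

lemma D_congr {f g : E2 → ℝ} {z : E2} (v : E2) (h : f =ᶠ[nhds z] g) : D v f z = D v g z := by
  simp only [D]
  rw [h.fderiv_eq]

/-- pointwise product rule -/
lemma D_mul_at {f g : E2 → ℝ} {z : E2} (v : E2) (hf : DifferentiableAt ℝ f z)
    (hg : DifferentiableAt ℝ g z) :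
    D v (fun z => f z * g z) z = D v f z * g z + f z * D v g z := by
  simp only [D]
  rw [fderiv_fun_mul hf hg]
  simp only [_root_.add_apply, _root_.smul_apply, smul_eq_mul]
  ring

lemma div_continuous {φ : E2 → E2} (h : Fld φ) : Continuous (divergence φ) := by
  have hc : Continuous (fderiv ℝ φ) := h.1.continuous_fderiv (by simp)
  have : divergence φ = fun z => ∑ i, inner ℝ (EuclideanSpace.basisFun (Fin 2) ℝ i)
      (fderiv ℝ φ z (EuclideanSpace.basisFun (Fin 2) ℝ i)) := by
    funext z
    rw [divergence, LinearMap.trace_eq_sum_inner _ (EuclideanSpace.basisFun (Fin 2) ℝ)]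
    rfl
  rw [this]
  fun_prop

lemma div_compact {φ : E2 → E2} (h : Fld φ) : HasCompactSupport (divergence φ) := by
  apply HasCompactSupport.intro h.2.1
  intro z hz
  have h1 : φ =ᶠ[nhds z] fun _ => 0 := notMem_tsupport_iff_eventuallyEq.mp hz
  simp [divergence, h1.fderiv_eq]

lemma div_integrable {φ : E2 → E2} (h : Fld φ) : Integrable (divergence φ) :=
  (div_continuous h).integrable_of_hasCompactSupport (div_compact h)

/-- the cut-off field has norm at most one -/
lemma norm_comb {a c : ℝ} (h : a ^ 2 + c ^ 2 ≤ 1) : ‖a • b 0 + c • b 1‖ ≤ 1 := by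
  have h1 : ‖a • b 0 + c • b 1‖ ^ 2 = a ^ 2 + c ^ 2 := by
    have h2 := b.sum_sq_norm_inner_right (a • b 0 + c • b 1)
    rw [Fin.sum_univ_two] at h2
    rw [← h2]
    simp [inner_add_right, inner_smul_right]
  have h2 : ‖a • b 0 + c • b 1‖ ^ 2 ≤ 1 ^ 2 := by rw [h1]; simpa using h
  exact le_of_sq_le_sq h2 zero_le_one

theorem drop {Ω : Set E2} (hΩ : IsOpen Ω) {m e p ϑ C : ℝ} (hm : 0 ≤ m)
    (hsec : ∀ z ∈ Ω, 0 < X b x₀ z ∧ |Y b x₀ z| ≤ m * X b x₀ z) (he : 0 < e)
    {f : E2 → ℝ} (hf : ContDiff ℝ ∞ f) (hf1 : ∀ z, |f z| ≤ 1)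
    (hf0 : ∀ z, e ≤ X b x₀ z → f z = 0 ∧ D (b 1) f z = 0)
    (hfi : IntegrableOn (D (b 1) f) Ω)
    (hP : ∀ ψ, Fld ψ → ∫ z in Ω, divergence ψ z ≤ p) (hϑ0 : 0 ≤ ϑ) (hϑ1 : ϑ ≤ 1)
    (hC0 : 0 < C) (hC : ∀ t, deriv H t ≤ C) {φ : E2 → E2} (hφ : Fld φ) :
    ∫ z in Ω ∩ {z | e < X b x₀ z}, divergence φ z ≤
      p - ϑ * (∫ z in Ω, D (b 1) f z) + 4 * C * m * e * ϑ ^ 2 := by
  have hXs := X_smooth b x₀
  have cX := hXs.continuous
  have cY := (Y_smooth b x₀).continuous
  -- bound for the divergence of the given field
  obtain ⟨M, hM0, hM⟩ : ∃ M : ℝ, 0 ≤ M ∧ ∀ z, |divergence φ z| ≤ M := by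
    obtain ⟨M, hM⟩ := (div_continuous hφ).bounded_above_of_compact_support (div_compact hφ)
    exact ⟨M, (norm_nonneg _).trans (hM 0), hM⟩
  -- it suffices to have the estimate for small widths
  have key : ∀ δ : ℝ, 0 < δ → δ ≤ e → ∫ z in Ω ∩ {z | e < X b x₀ z}, divergence φ z ≤
      p - ϑ * (∫ z in Ω, D (b 1) f z) + 4 * C * m * e * ϑ ^ 2 + 8 * M * m * e * δ := by
    intro δ hδ hδe
    -- the cut-off near the corner
    set R : ℝ := 2 * e * (1 + m) + 1 with hR
    have hR0 : 0 < R := by positivity
    let χb : ContDiffBump x₀ := ⟨R, R + 1, hR0, by linarith⟩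
    set χ : E2 → ℝ := fun z => χb z with hχ
    have hχs : ContDiff ℝ ∞ χ := χb.contDiff
    have hχc : HasCompactSupport χ := χb.hasCompactSupport
    have hχ0 : ∀ z, 0 ≤ χ z := fun z => χb.nonneg
    have hχ1 : ∀ z, χ z ≤ 1 := fun z => χb.le_one
    have hχe : ∀ z ∈ Ω, X b x₀ z ≤ 2 * e → χ =ᶠ[nhds z] fun _ => 1 := by
      intro z hz hx
      obtain ⟨h1, h2⟩ := hsec z hz
      have h3 : ‖z - x₀‖ < R := by
        have := norm_sub_le b x₀ z
        rw [abs_of_pos h1] at this
        have h4 : m * X b x₀ z ≤ m * (2 * e) := by gcongr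
        rw [hR]
        nlinarith
      have h5 : z ∈ Metric.ball x₀ R := by rwa [Metric.mem_ball, dist_eq_norm]
      filter_upwards [Metric.isOpen_ball.mem_nhds h5] with w hw
      exact χb.one_of_mem_closedBall (Metric.ball_subset_closedBall hw)
    -- the transition
    set η : E2 → ℝ := fun z => H ((X b x₀ z - e) / δ) with hη
    have hηs : ContDiff ℝ ∞ η := H_smooth.comp (by fun_prop)
    have hη0 : ∀ z, 0 ≤ η z := fun z => Real.smoothTransition.nonneg _
    have hη1 : ∀ z, η z ≤ 1 := fun z => Real.smoothTransition.le_one _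
    have hηd : Differentiable ℝ η := hηs.differentiable (by simp)
    have hDη : D (b 0) η = fun z => deriv H ((X b x₀ z - e) / δ) / δ := by
      have h1 : ContDiff ℝ ∞ (fun t : ℝ => H ((t - e) / δ)) := H_smooth.comp (by fun_prop)
      have h2 := D0g b x₀ h1
      have h3 : deriv (fun t : ℝ => H ((t - e) / δ)) = fun t => deriv H ((t - e) / δ) / δ := by
        funext t
        have k1 : HasDerivAt H (deriv H ((t - e) / δ)) ((t - e) / δ) :=
          (H_smooth.differentiable (by simp) _).hasDerivAt
        have k2 : HasDerivAt (fun t : ℝ => (t - e) / δ) (1 / δ) t :=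
          ((hasDerivAt_id t).sub_const e).div_const δ
        have k3 : deriv (fun t : ℝ => H ((t - e) / δ)) t = deriv H ((t - e) / δ) * (1 / δ) :=
          (k1.comp t k2).deriv
        rw [k3]; ring
      rw [h3] at h2
      exact h2
    have hD1η : D (b 1) η = fun _ => 0 := by
      have h1 : ContDiff ℝ ∞ (fun t : ℝ => H ((t - e) / δ)) := H_smooth.comp (by fun_prop)
      exact D1g b x₀ h1
    -- components
    set φ0 : E2 → ℝ := fun z => inner ℝ (b 0) (φ z) with hφ0
    set φ1 : E2 → ℝ := fun z => inner ℝ (b 1) (φ z) with hφ1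
    have hφd : Differentiable ℝ φ := hφ.1.differentiable (by simp)
    have hφ0d : Differentiable ℝ φ0 := by
      have : Differentiable ℝ (fun z => (innerSL ℝ (b 0)) (φ z)) :=
        (innerSL ℝ (b 0)).differentiable.comp hφd
      simpa [innerSL_apply_apply] using this
    have hφ1d : Differentiable ℝ φ1 := by
      have : Differentiable ℝ (fun z => (innerSL ℝ (b 1)) (φ z)) :=
        (innerSL ℝ (b 1)).differentiable.comp hφd
      simpa [innerSL_apply_apply] using this
    set g0 : E2 → ℝ := fun z => -(1 - ϑ ^ 2) * χ z with hg0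
    set g1 : E2 → ℝ := fun z => ϑ * f z * χ z with hg1
    have hg0s : ContDiff ℝ ∞ g0 := by rw [hg0]; fun_prop
    have hg1s : ContDiff ℝ ∞ g1 := by rw [hg1]; fun_prop
    have hg0d : Differentiable ℝ g0 := hg0s.differentiable (by simp)
    have hg1d : Differentiable ℝ g1 := hg1s.differentiable (by simp)
    have hgn : ∀ z, ‖g0 z • b 0 + g1 z • b 1‖ ≤ 1 := by
      intro z
      apply norm_comb
      have h1 := hχ0 z
      have h2 := hχ1 z
      have h3 : χ z ^ 2 ≤ 1 := by nlinarith
      have h4 : f z ^ 2 ≤ 1 := by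
        have := hf1 z
        rw [← sq_abs]
        nlinarith [abs_nonneg (f z)]
      have h5 : g0 z ^ 2 + g1 z ^ 2 = ((1 - ϑ ^ 2) ^ 2 + ϑ ^ 2 * f z ^ 2) * χ z ^ 2 := by
        simp only [hg0, hg1]; ring
      rw [h5]
      have h6 : (1 - ϑ ^ 2) ^ 2 + ϑ ^ 2 * f z ^ 2 ≤ 1 := by
        have h7 : ϑ ^ 2 * f z ^ 2 ≤ ϑ ^ 2 * 1 := by gcongr
        have h8 : 0 ≤ ϑ ^ 2 := sq_nonneg _
        have h9 : ϑ ^ 2 ≤ 1 := by nlinarith
        nlinarith
      have h7 : 0 ≤ (1 - ϑ ^ 2) ^ 2 + ϑ ^ 2 * f z ^ 2 := by positivity
      nlinarith [sq_nonneg (χ z)]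
    set ψ : E2 → E2 := fun z => η z • φ z + (1 - η z) • (g0 z • b 0 + g1 z • b 1) with hψ
    have hψF : Fld ψ := by
      refine ⟨?_, ?_, ?_⟩
      · have h1 : ContDiff ℝ 1 η := hηs.of_le (by simp)
        have h2 : ContDiff ℝ 1 g0 := hg0s.of_le (by simp)
        have h3 : ContDiff ℝ 1 g1 := hg1s.of_le (by simp)
        have h4 := hφ.1
        rw [hψ]
        fun_prop
      · apply HasCompactSupport.intro (hφ.2.1.isCompact.union hχc.isCompact)
        intro z hz
        simp only [mem_union, not_or] at hz
        have h1 : φ z = 0 := image_eq_zero_of_notMem_tsupport hz.1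
        have h2 : χ z = 0 := image_eq_zero_of_notMem_tsupport hz.2
        simp [hψ, hg0, hg1, h1, h2]
      · intro z
        have h1 : ‖ψ z‖ ≤ η z * 1 + (1 - η z) * 1 := by
          have k1 : ‖η z • φ z‖ ≤ η z * 1 := by
            rw [norm_smul, Real.norm_of_nonneg (hη0 z)]
            exact mul_le_mul_of_nonneg_left (hφ.2.2 z) (hη0 z)
          have k2 : ‖(1 - η z) • (g0 z • b 0 + g1 z • b 1)‖ ≤ (1 - η z) * 1 := by
            have : 0 ≤ 1 - η z := by linarith [hη1 z]
            rw [norm_smul, Real.norm_of_nonneg this]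
            exact mul_le_mul_of_nonneg_left (hgn z) this
          exact (norm_add_le _ _).trans (add_le_add k1 k2)
        linarith
    have hψ0 : (fun z => inner ℝ (b 0) (ψ z)) = fun z => η z * φ0 z + (1 - η z) * g0 z := by
      funext z
      simp [hψ, hφ0, inner_add_right, inner_smul_right]
    have hψ1 : (fun z => inner ℝ (b 1) (ψ z)) = fun z => η z * φ1 z + (1 - η z) * g1 z := by
      funext z
      simp [hψ, hφ1, inner_add_right, inner_smul_right]
    have hdivψ : ∀ z, divergence ψ z = η z * divergence φ z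
        + (1 - η z) * (D (b 0) g0 z + D (b 1) g1 z)
        + deriv H ((X b x₀ z - e) / δ) / δ * (φ0 z - g0 z) := by
      intro z
      rw [divergence_eq b (hψF.1.differentiable (by simp)), divergence_eq b hφd, hψ0, hψ1]
      simp (disch := fun_prop) only [D_mul, D_add, D_sub, D_const, hDη, hD1η]
      rw [← hφ0, ← hφ1]
      ring
    -- the pointwise inequality on `Ω`
    set B : Set E2 := {z : E2 | (e ≤ X b x₀ z ∧ X b x₀ z ≤ e + δ) ∧ |Y b x₀ z| ≤ 2 * m * e} with hB
    have hBm : MeasurableSet B := by
      have h1 : IsClosed B := by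
        apply IsClosed.inter
        · exact (isClosed_le continuous_const cX).inter (isClosed_le cX continuous_const)
        · exact isClosed_le cY.abs continuous_const
      exact h1.measurableSet
    set E : Set E2 := {z | e < X b x₀ z} with hE
    have hEm : MeasurableSet E := (isOpen_lt continuous_const cX).measurableSet
    have hpt : ∀ z ∈ Ω, E.indicator (divergence φ) z + ϑ * D (b 1) f z
        - B.indicator (fun _ => 2 * M + C * ϑ ^ 2 / δ) z ≤ divergence ψ z := by
      intro z hz
      obtain ⟨hx, hy⟩ := hsec z hz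
      rw [hdivψ z]
      rcases lt_or_ge (X b x₀ z) e with h1 | h1
      · -- near the corner
        have hη' : η z = 0 := Real.smoothTransition.zero_of_nonpos
          (div_nonpos_of_nonpos_of_nonneg (by linarith) hδ.le)
        have hd : deriv H ((X b x₀ z - e) / δ) = 0 := by
          apply dH_zero
          left
          exact div_neg_of_neg_of_pos (by linarith) hδ
        have hE' : z ∉ E := by simp [hE, h1.le]
        have hB' : z ∉ B := by
          intro h; exact absurd h.1.1 (not_le.mpr h1)
        rw [indicator_of_notMem hE', indicator_of_notMem hB', hη', hd]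
        have hχz := hχe z hz (by linarith)
        have k0 : D (b 0) g0 z = 0 := by
          have : g0 =ᶠ[nhds z] fun _ => -(1 - ϑ ^ 2) := by
            filter_upwards [hχz] with w hw
            simp [hg0, hw]
          rw [D_congr _ this, D_const]
        have k1 : D (b 1) g1 z = ϑ * D (b 1) f z := by
          have : g1 =ᶠ[nhds z] fun w => ϑ * f w := by
            filter_upwards [hχz] with w hw
            simp [hg1, hw]
          have hfd : Differentiable ℝ f := hf.differentiable (by simp)
          rw [D_congr _ this]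
          simp (disch := fun_prop) only [D_mul, D_const]
          ring
        rw [k0, k1]
        simp
      · obtain ⟨hfz, hfz'⟩ := hf0 z h1
        rcases le_or_gt (X b x₀ z) (e + δ) with h2 | h2
        · -- the strip
          have hB' : z ∈ B := by
            refine ⟨⟨h1, h2⟩, hy.trans ?_⟩
            have : m * X b x₀ z ≤ m * (2 * e) := by gcongr; linarith
            linarith
          rw [indicator_of_mem hB', hfz']
          have hχz := hχe z hz (by linarith)
          have k0 : D (b 0) g0 z = 0 := by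
            have : g0 =ᶠ[nhds z] fun _ => -(1 - ϑ ^ 2) := by
              filter_upwards [hχz] with w hw
              simp [hg0, hw]
            rw [D_congr _ this, D_const]
          have k1 : D (b 1) g1 z = 0 := by
            have : g1 =ᶠ[nhds z] fun w => ϑ * f w := by
              filter_upwards [hχz] with w hw
              simp [hg1, hw]
            have hfd : Differentiable ℝ f := hf.differentiable (by simp)
            rw [D_congr _ this]
            simp (disch := fun_prop) only [D_mul, D_const]
            rw [hfz']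
            ring
          rw [k0, k1]
          have k2 : g0 z = -(1 - ϑ ^ 2) := by
            have := hχz.eq_of_nhds
            simp [hg0, this]
          rw [k2]
          have k3 : -1 ≤ φ0 z := by
            have h3 : |φ0 z| ≤ ‖b 0‖ * ‖φ z‖ := abs_real_inner_le_norm _ _
            have h4 : ‖b 0‖ * ‖φ z‖ ≤ 1 := by
              rw [b.norm_eq_one, one_mul]; exact hφ.2.2 z
            exact (abs_le.mp (h3.trans h4)).1
          have k4 := dH_nonneg ((X b x₀ z - e) / δ)
          have k5 := hC ((X b x₀ z - e) / δ)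
          have k6 : -(C * ϑ ^ 2 / δ) ≤ deriv H ((X b x₀ z - e) / δ) / δ * (φ0 z - -(1 - ϑ ^ 2)) := by
            have h3 : -ϑ ^ 2 ≤ φ0 z - -(1 - ϑ ^ 2) := by linarith
            have h4 : deriv H ((X b x₀ z - e) / δ) / δ * (-ϑ ^ 2) ≤
                deriv H ((X b x₀ z - e) / δ) / δ * (φ0 z - -(1 - ϑ ^ 2)) := by
              apply mul_le_mul_of_nonneg_left h3 (by positivity)
            have h5 : deriv H ((X b x₀ z - e) / δ) / δ * ϑ ^ 2 ≤ C * ϑ ^ 2 / δ := by
              rw [div_mul_eq_mul_div]
              gcongr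
            linarith
          have k7 : E.indicator (divergence φ) z ≤ M := by
            by_cases hz' : z ∈ E
            · rw [indicator_of_mem hz']; exact (abs_le.mp (hM z)).2
            · rw [indicator_of_notMem hz']; exact hM0
          have k8 : -M ≤ η z * divergence φ z := by
            have h3 : |η z * divergence φ z| ≤ 1 * M := by
              rw [abs_mul, abs_of_nonneg (hη0 z)]
              exact mul_le_mul (hη1 z) (hM z) (abs_nonneg _) zero_le_one
            linarith [(abs_le.mp h3).1]
          linarith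
        · -- away from the corner
          have hη' : η z = 1 := Real.smoothTransition.one_of_one_le (by
            rw [le_div_iff₀ hδ]; linarith)
          have hd : deriv H ((X b x₀ z - e) / δ) = 0 := by
            apply dH_zero
            right
            rw [lt_div_iff₀ hδ]; linarith
          have hE' : z ∈ E := by simp only [hE, mem_ofPred_eq]; linarith
          have hB' : z ∉ B := by
            intro h; exact absurd h.1.2 (not_le.mpr h2)
          rw [indicator_of_mem hE', indicator_of_notMem hB', hη', hd, hfz']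
          simp
    -- integrate
    have hBfin : volume B ≠ ⊤ := by
      rw [hB, vol_box]
      exact ENNReal.mul_ne_top ENNReal.ofReal_ne_top ENNReal.ofReal_ne_top
    have int1 : IntegrableOn (E.indicator (divergence φ)) Ω :=
      ((div_integrable hφ).indicator hEm).integrableOn
    have int2 : IntegrableOn (fun z => ϑ * D (b 1) f z) Ω := hfi.const_mul ϑ
    have int3 : IntegrableOn (B.indicator (fun _ => 2 * M + C * ϑ ^ 2 / δ)) Ω := by
      apply Integrable.integrableOn
      rw [integrable_indicator_iff hBm]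
      exact integrableOn_const (hs := hBfin)
    have hint : ∫ z in Ω, (E.indicator (divergence φ) z + ϑ * D (b 1) f z
        - B.indicator (fun _ => 2 * M + C * ϑ ^ 2 / δ) z) ≤ ∫ z in Ω, divergence ψ z :=
      setIntegral_mono_on ((int1.add int2).sub int3) (div_integrable hψF).integrableOn
        hΩ.measurableSet hpt
    have int12 : IntegrableOn (fun z => E.indicator (divergence φ) z + ϑ * D (b 1) f z) Ω :=
      int1.add int2
    rw [integral_sub int12 int3, integral_add int1 int2, integral_const_mul,
      setIntegral_indicator hEm, setIntegral_indicator hBm, setIntegral_const] at hint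
    have hvol : volume.real (Ω ∩ B) ≤ δ * (4 * m * e) := by
      have h1 : volume.real (Ω ∩ B) ≤ volume.real B :=
        measureReal_mono inter_subset_right hBfin
      have h2 : volume.real B = δ * (4 * m * e) := by
        rw [Measure.real, hB, vol_box, ENNReal.toReal_mul, ENNReal.toReal_ofReal (by linarith),
          ENNReal.toReal_ofReal (by positivity)]
        ring
      linarith
    have hψP := hP ψ hψF
    have hcon : volume.real (Ω ∩ B) • (2 * M + C * ϑ ^ 2 / δ) ≤
        8 * M * m * e * δ + 4 * C * m * e * ϑ ^ 2 := by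
      rw [smul_eq_mul]
      calc volume.real (Ω ∩ B) * (2 * M + C * ϑ ^ 2 / δ)
          ≤ (δ * (4 * m * e)) * (2 * M + C * ϑ ^ 2 / δ) := by gcongr
        _ = 8 * M * m * e * δ + 4 * C * m * e * ϑ ^ 2 := by field_simp; ring
    linarith
  -- let the width tend to zero
  apply le_of_forall_pos_le_add
  intro ε hε
  set δ : ℝ := min e (ε / (8 * M * m * e + 1)) with hδ
  have hδ0 : 0 < δ := by positivity
  have h1 := key δ hδ0 (min_le_left _ _)
  have h2 : 8 * M * m * e * δ ≤ ε := by
    have h3 : δ ≤ ε / (8 * M * m * e + 1) := min_le_right _ _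
    rw [le_div_iff₀ (by positivity)] at h3
    nlinarith
  linarith

end Pool.Agent.helper33.Buck
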