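import Mathlib
import Pool.Agent.helper33.Buck.Perim

/-!
Calibrating functions supported in boxes.
-/

open MeasureTheory Set InnerProductSpace Filter
open scoped ContDiff

namespace Pool.Agent.helper33.Buck

variable (b : OrthonormalBasis (Fin 2) ℝ E2) (x₀ : E2)

/-- monotone transition from `-1` to `1` around `y` -/
noncomputable def Tr (y w : ℝ) (t : ℝ) : ℝ := 2 * H ((t - y + w) / (2 * w)) - 1

lemma Tr_smooth (y w : ℝ) : ContDiff ℝ ∞ (Tr y w) := by
  unfold Tr
  have : ContDiff ℝ ∞ (fun t => H ((t - y + w) / (2 * w))) := H_smooth.comp (by fun_prop)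
  fun_prop

lemma Tr_abs (y w t : ℝ) : |Tr y w t| ≤ 1 := by
  have h0 : 0 ≤ H ((t - y + w) / (2 * w)) := Real.smoothTransition.nonneg _
  have h1 : H ((t - y + w) / (2 * w)) ≤ 1 := Real.smoothTransition.le_one _
  unfold Tr
  rw [abs_le]
  constructor <;> linarith

lemma Tr_lo {y w t : ℝ} (hw : 0 < w) (h : t ≤ y - w) : Tr y w t = -1 := by
  have : H ((t - y + w) / (2 * w)) = 0 := Real.smoothTransition.zero_of_nonpos
    (div_nonpos_of_nonpos_of_nonneg (by linarith) (by linarith))
  unfold Tr
  rw [this]; ring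

lemma Tr_hi {y w t : ℝ} (hw : 0 < w) (h : y + w ≤ t) : Tr y w t = 1 := by
  have : H ((t - y + w) / (2 * w)) = 1 := Real.smoothTransition.one_of_one_le (by
    rw [le_div_iff₀ (by linarith)]; linarith)
  unfold Tr
  rw [this]; ring

lemma dTr_zero {y w t : ℝ} (hw : 0 < w) (h : w < |t - y|) : deriv (Tr y w) t = 0 := by
  rcases lt_abs.mp h with h | h
  · have h1 : Tr y w =ᶠ[nhds t] fun _ => 1 := by
      have : y + w < t := by linarith
      filter_upwards [Ioi_mem_nhds this] with s hs
      exact Tr_hi hw (le_of_lt hs)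
    simpa using h1.deriv_eq
  · have h1 : Tr y w =ᶠ[nhds t] fun _ => -1 := by
      have : t < y - w := by linarith
      filter_upwards [Iio_mem_nhds this] with s hs
      exact Tr_lo hw (le_of_lt hs)
    simpa using h1.deriv_eq

lemma dTr_compact {y w : ℝ} (hw : 0 < w) : HasCompactSupport (deriv (Tr y w)) := by
  apply HasCompactSupport.intro (isCompact_closedBall y w)
  intro t ht
  apply dTr_zero hw
  rw [Metric.mem_closedBall, Real.dist_eq, not_le] at ht
  exact ht

lemma int_dTr {y w : ℝ} (hw : 0 < w) : ∫ t, deriv (Tr y w) t = 2 := by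
  have hint : Integrable (deriv (Tr y w)) :=
    (deriv_smooth (Tr_smooth y w)).continuous.integrable_of_hasCompactSupport (dTr_compact hw)
  have h := integral_of_hasDerivAt_of_tendsto (f := Tr y w) (m := -1) (n := 1)
    (fun t => ((Tr_smooth y w).differentiable (by simp) t).hasDerivAt) hint ?_ ?_
  · rw [h]; norm_num
  · apply tendsto_const_nhds.congr'
    filter_upwards [Iic_mem_atBot (y - w)] with t ht
    exact (Tr_lo hw ht).symm
  · apply tendsto_const_nhds.congr'
    filter_upwards [Ici_mem_atTop (y + w)] with t ht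
    exact (Tr_hi hw ht).symm

lemma D_sum {ι : Type*} (s : Finset ι) (F : ι → E2 → ℝ) (v : E2)
    (hF : ∀ i ∈ s, Differentiable ℝ (F i)) :
    D v (fun z => ∑ i ∈ s, F i z) = fun z => ∑ i ∈ s, D v (F i) z := by
  funext z
  simp only [D]
  rw [fderiv_fun_sum (fun i hi => hF i hi z)]
  simp

lemma integral_coord {β γ : ℝ → ℝ} (hβ : Continuous β) (hγ : Continuous γ) :
    ∫ z, β (X b x₀ z) * γ (Y b x₀ z) = (∫ s, β s) * ∫ t, γ t := by
  rw [← integral_prod_mul, ← Measure.volume_eq_prod, ← (mp_coord b x₀).map_eq, integral_map]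
  · exact (mp_coord b x₀).measurable.aemeasurable
  · exact (by fun_prop : Continuous (fun z : ℝ × ℝ => β z.1 * γ z.2)).aestronglyMeasurable

theorem boxes {Ω : Set E2} {a h e : ℝ} (hh : 0 < h) {N : ℕ} (hN : a + N * h ≤ e)
    (hbox : ∀ k ∈ Finset.range N, ∃ y w : ℝ, 0 < w ∧ ∀ z, a + k * h ≤ X b x₀ z →
      X b x₀ z ≤ a + (k + 1) * h → |Y b x₀ z - y| ≤ w → z ∈ Ω) :
    ∃ f : E2 → ℝ, ContDiff ℝ ∞ f ∧ (∀ z, |f z| ≤ 1) ∧
      (∀ z, e ≤ X b x₀ z → f z = 0 ∧ D (b 1) f z = 0) ∧ IntegrableOn (D (b 1) f) Ω ∧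
      N * h ≤ ∫ z in Ω, D (b 1) f z := by
  have hbox' : ∀ k : ℕ, ∃ y w : ℝ, 0 < w ∧ (k ∈ Finset.range N → ∀ z, a + k * h ≤ X b x₀ z →
      X b x₀ z ≤ a + (k + 1) * h → |Y b x₀ z - y| ≤ w → z ∈ Ω) := by
    intro k
    by_cases hk : k ∈ Finset.range N
    · obtain ⟨y, w, hw, h1⟩ := hbox k hk
      exact ⟨y, w, hw, fun _ => h1⟩
    · exact ⟨0, 1, one_pos, fun h1 => absurd h1 hk⟩
  choose y w hw hΩ using hbox'
  set c : ℕ → ℝ := fun k => a + (k + 1/2) * h with hc
  let βb : ∀ k : ℕ, ContDiffBump (c k) := fun k => ⟨h/4, h/2, by positivity, by linarith⟩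
  set β : ℕ → ℝ → ℝ := fun k t => βb k t with hβ
  have hβs : ∀ k, ContDiff ℝ ∞ (β k) := fun k => (βb k).contDiff
  have hβ0 : ∀ k t, 0 ≤ β k t := fun k t => (βb k).nonneg
  have hβ1 : ∀ k t, β k t ≤ 1 := fun k t => (βb k).le_one
  have hβz : ∀ k t, β k t ≠ 0 → |t - c k| < h/2 := by
    intro k t ht
    have : t ∈ Function.support (βb k) := ht
    rw [(βb k).support_eq] at this
    rwa [Metric.mem_ball, Real.dist_eq] at this
  have hβi : ∀ k, h/2 ≤ ∫ t, β k t := by
    intro k
    have hint : Integrable (β k) :=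
      (hβs k).continuous.integrable_of_hasCompactSupport (βb k).hasCompactSupport
    have h1 : ∫ t in Metric.closedBall (c k) (h/4), β k t ≤ ∫ t, β k t :=
      setIntegral_le_integral hint (Eventually.of_forall (hβ0 k))
    have h2 : ∫ t in Metric.closedBall (c k) (h/4), β k t = h/2 := by
      have h3 : ∫ t in Metric.closedBall (c k) (h/4), β k t
          = ∫ t in Metric.closedBall (c k) (h/4), (1 : ℝ) := by
        apply setIntegral_congr_fun Metric.isClosed_closedBall.measurableSet
        intro t ht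
        exact (βb k).one_of_mem_closedBall ht
      rw [h3, setIntegral_const, Measure.real, Real.volume_closedBall,
        ENNReal.toReal_ofReal (by positivity)]
      simp only [smul_eq_mul]
      ring
    linarith
  have hX := X_smooth b x₀
  have hY := Y_smooth b x₀
  have cX := hX.continuous
  have cY := hY.continuous
  have t1 : ∀ k, ContDiff ℝ ∞ (fun z => β k (X b x₀ z)) := fun k => (hβs k).comp hX
  have t2 : ∀ k, ContDiff ℝ ∞ (fun z => Tr (y k) (w k) (Y b x₀ z)) :=
    fun k => (Tr_smooth _ _).comp hY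
  have hterm : ∀ k, ContDiff ℝ ∞ (fun z => β k (X b x₀ z) * Tr (y k) (w k) (Y b x₀ z)) :=
    fun k => (t1 k).mul (t2 k)
  have hDterm : ∀ k, D (b 1) (fun z => β k (X b x₀ z) * Tr (y k) (w k) (Y b x₀ z))
      = fun z => β k (X b x₀ z) * deriv (Tr (y k) (w k)) (Y b x₀ z) := by
    intro k
    rw [D_mul _ ((t1 k).differentiable (by simp)) ((t2 k).differentiable (by simp)),
      D1g b x₀ (hβs k), D_comp _ ((Tr_smooth _ _).differentiable (by simp))
        (hY.differentiable (by simp)), D1Y]
    funext z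
    ring
  set f : E2 → ℝ := fun z => ∑ k ∈ Finset.range N, β k (X b x₀ z) * Tr (y k) (w k) (Y b x₀ z)
    with hf
  have hDf : D (b 1) f = fun z => ∑ k ∈ Finset.range N,
      β k (X b x₀ z) * deriv (Tr (y k) (w k)) (Y b x₀ z) := by
    rw [hf, D_sum _ _ _ (fun k _ => (hterm k).differentiable (by simp))]
    funext z
    apply Finset.sum_congr rfl
    intro k _
    rw [hDterm k]
  have hact : ∀ z, e ≤ X b x₀ z → ∀ k ∈ Finset.range N, β k (X b x₀ z) = 0 := by
    intro z hz k hk
    by_contra hne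
    have h1 := hβz k _ hne
    have h2 : (k : ℝ) + 1 ≤ N := by exact_mod_cast Finset.mem_range.mp hk
    have h3 := (abs_lt.mp h1).2
    have h4 : ((k : ℝ) + 1) * h ≤ N * h := by gcongr
    simp only [hc] at h3
    linarith
  -- the supports are in the boxes
  have hsupp : ∀ k ∈ Finset.range N, ∀ z, z ∉ Ω →
      β k (X b x₀ z) * deriv (Tr (y k) (w k)) (Y b x₀ z) = 0 := by
    intro k hk z hz
    by_cases h1 : β k (X b x₀ z) = 0
    · rw [h1, zero_mul]
    · by_cases h2 : w k < |Y b x₀ z - y k|
      · rw [dTr_zero (hw k) h2, mul_zero]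
      · exfalso
        apply hz
        have h3 := abs_lt.mp (hβz k _ h1)
        simp only [hc] at h3
        exact hΩ k hk z (by linarith [h3.1]) (by linarith [h3.2]) (not_lt.mp h2)
  have hinteg : ∀ k, Integrable (fun z => β k (X b x₀ z) * deriv (Tr (y k) (w k)) (Y b x₀ z)) := by
    intro k
    have c1 := (t1 k).continuous
    have c2 := (deriv_smooth (Tr_smooth (y k) (w k))).continuous
    have hK : IsCompact {z : E2 | |X b x₀ z - c k| ≤ h/2 ∧ |Y b x₀ z - y k| ≤ w k} := by
      apply Metric.isCompact_of_isClosed_isBounded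
      · exact (isClosed_le (cX.sub continuous_const).abs continuous_const).inter
          (isClosed_le (cY.sub continuous_const).abs continuous_const)
      · apply (Metric.isBounded_closedBall (x := x₀)
          (r := |c k| + h/2 + (|y k| + w k))).subset
        intro z hz
        obtain ⟨h1, h2⟩ := hz
        rw [Metric.mem_closedBall, dist_eq_norm]
        refine (norm_sub_le b x₀ z).trans ?_
        have h3 : |X b x₀ z| ≤ |c k| + h/2 := by
          have := abs_sub_abs_le_abs_sub (X b x₀ z) (c k)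
          linarith
        have h4 : |Y b x₀ z| ≤ |y k| + w k := by
          have := abs_sub_abs_le_abs_sub (Y b x₀ z) (y k)
          linarith
        linarith
    apply integrable_of_zero (by fun_prop) hK
    intro z hz
    by_cases h1 : β k (X b x₀ z) = 0
    · rw [h1, zero_mul]
    · by_cases h2 : w k < |Y b x₀ z - y k|
      · rw [dTr_zero (hw k) h2, mul_zero]
      · exact absurd ⟨(hβz k _ h1).le, not_lt.mp h2⟩ hz
  refine ⟨f, ?_, ?_, ?_, ?_, ?_⟩
  · exact ContDiff.sum (fun k _ => hterm k)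
  · intro z
    refine (Finset.abs_sum_le_sum_abs _ _).trans ?_
    apply sum_le_of_unique _ _ zero_le_one
    · intro k _
      rw [abs_mul, abs_of_nonneg (hβ0 k _)]
      have := mul_le_mul (hβ1 k (X b x₀ z)) (Tr_abs (y k) (w k) (Y b x₀ z)) (abs_nonneg _)
        zero_le_one
      linarith
    · have hne : ∀ i j : ℕ, i < j → β i (X b x₀ z) ≠ 0 → β j (X b x₀ z) ≠ 0 → False := by
        intro i j hij h1 h2
        have h3 := (abs_lt.mp (hβz i _ h1)).2
        have h4 := (abs_lt.mp (hβz j _ h2)).1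
        have h5 : (i : ℝ) + 1 ≤ j := by exact_mod_cast hij
        have h6 : ((i : ℝ) + 1) * h ≤ j * h := by gcongr
        simp only [hc] at h3 h4
        linarith
      intro i _ j _ h1 h2
      have h1' : β i (X b x₀ z) ≠ 0 := fun h0 => h1 (by rw [h0]; simp)
      have h2' : β j (X b x₀ z) ≠ 0 := fun h0 => h2 (by rw [h0]; simp)
      rcases lt_trichotomy i j with h3 | h3 | h3
      · exact (hne i j h3 h1' h2').elim
      · exact h3
      · exact (hne j i h3 h2' h1').elim
  · intro z hz
    refine ⟨?_, ?_⟩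
    · rw [hf]
      apply Finset.sum_eq_zero
      intro k hk
      rw [hact z hz k hk, zero_mul]
    · rw [hDf]
      apply Finset.sum_eq_zero
      intro k hk
      rw [hact z hz k hk, zero_mul]
  · rw [hDf]
    exact (integrable_finsetSum _ (fun k _ => hinteg k)).integrableOn
  · rw [hDf, integral_finsetSum _ (fun k _ => (hinteg k).integrableOn)]
    have h1 : ∀ k ∈ Finset.range N, h ≤ ∫ z in Ω,
        β k (X b x₀ z) * deriv (Tr (y k) (w k)) (Y b x₀ z) := by
      intro k hk
      rw [setIntegral_eq_integral_of_forall_compl_eq_zero (hsupp k hk),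
        integral_coord b x₀ (hβs k).continuous (deriv_smooth (Tr_smooth _ _)).continuous,
        int_dTr (hw k)]
      linarith [hβi k]
    have h2 := Finset.sum_le_sum h1
    simpa using h2

end Pool.Agent.helper33.Buck
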