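import Mathlib
import Pool.Agent.helper33.Buck.Boxes

/-!
Poincare inequality on sets of finite measure; scaling.
-/

open MeasureTheory Set InnerProductSpace Filter Pointwise
open scoped ContDiff

namespace Pool.Agent.helper33.Buck

variable (b : OrthonormalBasis (Fin 2) ℝ E2) (x₀ : E2)

lemma fderiv_norm_sq {u : E2 → ℝ} (z : E2) :
    ‖fderiv ℝ u z‖ ^ 2 = D (b 0) u z ^ 2 + D (b 1) u z ^ 2 := by
  rw [← gradient_sq b z]
  simp [gradient]

lemma poincare_fin {Ω : Set E2} (hΩ : MeasurableSet Ω) (hfin : volume Ω < ⊤) :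
    ∃ P : ℝ, 0 ≤ P ∧ ∀ f, Tst Ω f → ∫ z, f z ^ 2 ≤ P * GG b f f := by
  have hp : Real.HolderConjugate (Module.finrank ℝ E2) 2 := by
    rw [finrank_euclideanSpace_fin]
    exact_mod_cast Real.HolderConjugate.two_two
  set C : NNReal := lintegralPowLePowLIntegralFDerivConst (volume : Measure E2) 2 with hC
  refine ⟨C * (volume Ω).toReal, by positivity, ?_⟩
  intro f hf
  have h1 : ContDiff ℝ 1 f := hf.1.of_le (by simp)
  have h2 := lintegral_pow_le_pow_lintegral_fderiv (volume : Measure E2) h1 hf.2.1 hp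
  -- restrict to `Ω`
  have hz : ∀ z, z ∉ Ω → ‖fderiv ℝ f z‖ = 0 := by
    intro z hz
    have : z ∉ tsupport f := fun h => hz (hf.2.2 h)
    have h3 : f =ᶠ[nhds z] fun _ => 0 := notMem_tsupport_iff_eventuallyEq.mp this
    rw [h3.fderiv_eq]; simp
  have h3 : ∫⁻ z, ‖fderiv ℝ f z‖ₑ = ∫⁻ z in Ω, ‖fderiv ℝ f z‖ₑ := by
    rw [← lintegral_indicator hΩ]
    apply lintegral_congr
    intro z
    by_cases h : z ∈ Ω
    · rw [indicator_of_mem h]
    · rw [indicator_of_notMem h, ← ofReal_norm, hz z h]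
      simp
  have hcf : Continuous (fderiv ℝ f) := h1.continuous_fderiv (by simp)
  have h4 : ∫⁻ z in Ω, ‖fderiv ℝ f z‖ₑ ≤
      (∫⁻ z in Ω, ‖fderiv ℝ f z‖ₑ ^ (2:ℝ)) ^ (1/(2:ℝ)) * (volume Ω) ^ (1/(2:ℝ)) := by
    have := ENNReal.lintegral_mul_le_Lp_mul_Lq (volume.restrict Ω) Real.HolderConjugate.two_two
      (f := fun z => ‖fderiv ℝ f z‖ₑ) (g := fun _ => 1) (by fun_prop) (by fun_prop)
    simpa using this
  have h5 : (∫⁻ z, ‖fderiv ℝ f z‖ₑ) ^ (2:ℝ) ≤
      (∫⁻ z, ‖fderiv ℝ f z‖ₑ ^ (2:ℝ)) * volume Ω := by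
    rw [h3]
    calc (∫⁻ z in Ω, ‖fderiv ℝ f z‖ₑ) ^ (2:ℝ) ≤
        ((∫⁻ z in Ω, ‖fderiv ℝ f z‖ₑ ^ (2:ℝ)) ^ (1/(2:ℝ)) * (volume Ω) ^ (1/(2:ℝ))) ^ (2:ℝ) := by
          gcongr
      _ = (∫⁻ z in Ω, ‖fderiv ℝ f z‖ₑ ^ (2:ℝ)) * volume Ω := by
          rw [ENNReal.mul_rpow_of_nonneg _ _ (by norm_num), ← ENNReal.rpow_mul, ← ENNReal.rpow_mul]
          norm_num
      _ ≤ (∫⁻ z, ‖fderiv ℝ f z‖ₑ ^ (2:ℝ)) * volume Ω := by
          gcongr
          exact Measure.restrict_le_self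
  -- back to real integrals
  have e1 : ENNReal.ofReal (∫ z, f z ^ 2) = ∫⁻ z, ‖f z‖ₑ ^ (2:ℝ) := by
    have hi : Integrable (fun z => f z ^ 2) := by
      have := hf.1.continuous
      exact integrable_of_zero (by fun_prop) hf.2.1 (fun z hz => by simp [q_zero hz])
    rw [ofReal_integral_eq_lintegral_ofReal hi (Eventually.of_forall (fun z => sq_nonneg _))]
    apply lintegral_congr
    intro z
    rw [← sq_abs, ← Real.norm_eq_abs, ENNReal.ofReal_pow (norm_nonneg _), ofReal_norm]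
    norm_cast
  have e2 : ENNReal.ofReal (GG b f f) = ∫⁻ z, ‖fderiv ℝ f z‖ₑ ^ (2:ℝ) := by
    have hg : GG b f f = ∫ z, ‖fderiv ℝ f z‖ ^ 2 := by
      simp only [GG]
      congr 1
      funext z
      rw [fderiv_norm_sq b]
      ring
    have hi : Integrable (fun z => ‖fderiv ℝ f z‖ ^ 2) := by
      apply integrable_of_zero (by fun_prop) hf.2.1
      intro z hz
      rw [fderiv_norm_sq b, D_zero _ hz, D_zero _ hz]
      simp
    rw [hg, ofReal_integral_eq_lintegral_ofReal hi (Eventually.of_forall (fun z => sq_nonneg _))]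
    apply lintegral_congr
    intro z
    rw [ENNReal.ofReal_pow (norm_nonneg _), ofReal_norm]
    norm_cast
  have h6 : ENNReal.ofReal (∫ z, f z ^ 2) ≤
      ENNReal.ofReal (C * (volume Ω).toReal * GG b f f) := by
    rw [e1]
    refine h2.trans ?_
    rw [ENNReal.ofReal_mul (by positivity), ENNReal.ofReal_mul (by positivity), e2,
      ENNReal.ofReal_toReal hfin.ne, ENNReal.ofReal_coe_nnreal, mul_assoc, mul_comm (volume Ω)]
    gcongr
  have h7 := GG_nonneg b f
  exact (ENNReal.ofReal_le_ofReal_iff (by positivity)).mp h6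

lemma Tst_pos {Ω : Set E2} {P : ℝ} (hP : ∀ f, Tst Ω f → ∫ z, f z ^ 2 ≤ P * GG b f f)
    {f : E2 → ℝ} (hf : Tst Ω f) (hne : f ≠ 0) : 0 < GG b f f := by
  rcases (GG_nonneg b f).eq_or_lt with h | h
  · exfalso
    have h1 := hP f hf
    rw [← h, mul_zero] at h1
    obtain ⟨z, hz⟩ := Function.ne_iff.mp hne
    have hc : Continuous (fun z => f z ^ 2) := by
      have := hf.1.continuous
      fun_prop
    have hi : Integrable (fun z => f z ^ 2) :=
      integrable_of_zero hc hf.2.1 (fun z hz => by simp [q_zero hz])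
    have h2 : 0 < ∫ z, f z ^ 2 := by
      apply hc.integral_pos_of_hasCompactSupport_nonneg_nonzero (x := z)
      · exact HasCompactSupport.intro hf.2.1 (fun z hz => by simp [q_zero hz])
      · intro z; exact sq_nonneg _
      · simpa using hz
    linarith
  · exact h

end Pool.Agent.helper33.Buck
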