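import Mathlib
import Pool.Agent.helper33.Buck.Prep

/-!
Scaling.
-/

open MeasureTheory Set InnerProductSpace Filter Pointwise
open scoped ContDiff

namespace Pool.Agent.helper33.Buck

variable (b : OrthonormalBasis (Fin 2) ℝ E2) (x₀ : E2)

/-- perimeter at most `p` -/
def PerLe (Ω : Set E2) (p : ℝ) : Prop := ∀ ψ, Fld ψ → ∫ z in Ω, divergence ψ z ≤ p

lemma perimeter_le_iff {Ω : Set E2} {p : ℝ} : perimeter Ω ≤ (p : EReal) ↔ PerLe Ω p := by
  unfold perimeter PerLe Fld
  simp only [iSup_le_iff, mem_ofPred_eq, EReal.coe_le_coe_iff]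

lemma D_smul_arg {f : E2 → ℝ} (hf : Differentiable ℝ f) (t : ℝ) (v : E2) :
    D v (fun z => f (t • z)) = fun z => t * D v f (t • z) := by
  funext z
  have h1 : HasFDerivAt (fun z : E2 => t • z) (t • ContinuousLinearMap.id ℝ E2) z :=
    (hasFDerivAt_id z).const_smul t
  have h2 := ((hf (t • z)).hasFDerivAt).comp z h1
  have h3 : fderiv ℝ (fun z => f (t • z)) z = (fderiv ℝ f (t • z)).comp
    (t • ContinuousLinearMap.id ℝ E2) := h2.fderiv
  simp only [D]
  rw [h3]
  simp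

lemma lap_smul_arg {f : E2 → ℝ} (hf : ContDiff ℝ ∞ f) (t : ℝ) :
    lap b (fun z => f (t • z)) = fun z => t ^ 2 * lap b f (t • z) := by
  have h0 : Differentiable ℝ f := hf.differentiable (by simp)
  have h1 : Differentiable ℝ (D (b 0) f) := (D_smooth hf _).differentiable (by simp)
  have h2 : Differentiable ℝ (D (b 1) f) := (D_smooth hf _).differentiable (by simp)
  have k1 : Differentiable ℝ (fun z : E2 => D (b 0) f (t • z)) := by fun_prop
  have k2 : Differentiable ℝ (fun z : E2 => D (b 1) f (t • z)) := by fun_prop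
  funext z
  simp only [lap]
  rw [D_smul_arg h0, D_smul_arg h0, D_mul _ (by fun_prop) k1, D_mul _ (by fun_prop) k2,
    D_const, D_const, D_smul_arg h1, D_smul_arg h2]
  ring

lemma AA_scale {f : E2 → ℝ} (hf : ContDiff ℝ ∞ f) {t : ℝ} (ht : 0 < t) :
    AA b (fun z => f (t • z)) (fun z => f (t • z)) = t ^ 2 * AA b f f := by
  simp only [AA]
  rw [lap_smul_arg b hf]
  have h := Measure.integral_comp_smul_of_nonneg (volume : Measure E2)
    (fun z => (t ^ 2 * lap b f z) * (t ^ 2 * lap b f z)) t (hR := ht.le)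
  rw [h, finrank_euclideanSpace_fin, smul_eq_mul]
  have h2 : ∫ z, (t ^ 2 * lap b f z) * (t ^ 2 * lap b f z) = t ^ 4 * ∫ z, lap b f z * lap b f z := by
    rw [← integral_const_mul]
    congr 1
    funext z
    ring
  rw [h2]
  field_simp

lemma GG_scale {f : E2 → ℝ} (hf : ContDiff ℝ ∞ f) {t : ℝ} (ht : 0 < t) :
    GG b (fun z => f (t • z)) (fun z => f (t • z)) = GG b f f := by
  have h0 : Differentiable ℝ f := hf.differentiable (by simp)
  simp only [GG]
  rw [D_smul_arg h0, D_smul_arg h0]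
  have h := Measure.integral_comp_smul_of_nonneg (volume : Measure E2)
    (fun z => (t * D (b 0) f z) * (t * D (b 0) f z) + (t * D (b 1) f z) * (t * D (b 1) f z)) t
    (hR := ht.le)
  rw [h, finrank_euclideanSpace_fin, smul_eq_mul]
  have h2 : ∫ z, ((t * D (b 0) f z) * (t * D (b 0) f z) + (t * D (b 1) f z) * (t * D (b 1) f z))
      = t ^ 2 * ∫ z, (D (b 0) f z * D (b 0) f z + D (b 1) f z * D (b 1) f z) := by
    rw [← integral_const_mul]
    congr 1
    funext z
    ring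
  rw [h2]
  field_simp

lemma Tst_scale {Ω : Set E2} {f : E2 → ℝ} (hf : Tst Ω f) {t : ℝ} (ht : 0 < t) :
    Tst (t • Ω) (fun z => f (t⁻¹ • z)) := by
  have h1 := hf.1
  have hcl : IsCompact (t • tsupport f) := hf.2.1.isCompact.smul t
  have hz : ∀ z, z ∉ t • tsupport f → f (t⁻¹ • z) = 0 := by
    intro z hz
    apply q_zero
    intro h
    exact hz ((mem_smul_set_iff_inv_smul_mem₀ ht.ne' _ _).mpr h)
  refine ⟨by fun_prop, HasCompactSupport.intro hcl hz, ?_⟩
  refine Subset.trans ?_ (smul_set_mono hf.2.2)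
  apply closure_minimal _ hcl.isClosed
  intro z hz'
  by_contra h
  exact hz' (hz z h)

lemma PerLe_scale {Ω : Set E2} {p : ℝ} (h : PerLe Ω p) {t : ℝ} (ht : 0 < t) :
    PerLe (t • Ω) (t * p) := by
  intro ψ hψ
  have hF : Fld (fun z => ψ (t • z)) := by
    refine ⟨?_, ?_, fun z => hψ.2.2 _⟩
    · have := hψ.1
      fun_prop
    · apply HasCompactSupport.intro (hψ.2.1.isCompact.smul t⁻¹)
      intro z hz
      apply image_eq_zero_of_notMem_tsupport
      intro h'
      apply hz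
      rw [mem_smul_set_iff_inv_smul_mem₀ (inv_ne_zero ht.ne'), inv_inv]
      exact h'
  have h1 := h _ hF
  have hd : ∀ z, divergence (fun z => ψ (t • z)) z = t * divergence ψ (t • z) := by
    intro z
    have hψd : Differentiable ℝ ψ := hψ.1.differentiable (by simp)
    have k1 : HasFDerivAt (fun z : E2 => t • z) (t • ContinuousLinearMap.id ℝ E2) z :=
      (hasFDerivAt_id z).const_smul t
    have k2 := ((hψd (t • z)).hasFDerivAt).comp z k1
    have k3 : fderiv ℝ (fun z => ψ (t • z)) z = t • fderiv ℝ ψ (t • z) := by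
      have : fderiv ℝ (fun z => ψ (t • z)) z = (fderiv ℝ ψ (t • z)).comp
        (t • ContinuousLinearMap.id ℝ E2) := k2.fderiv
      rw [this]
      ext v
      simp
    simp only [divergence]
    rw [k3]
    have k4 : ((t • fderiv ℝ ψ (t • z) : E2 →L[ℝ] E2) : E2 →ₗ[ℝ] E2) =
      t • ((fderiv ℝ ψ (t • z) : E2 →L[ℝ] E2) : E2 →ₗ[ℝ] E2) := rfl
    rw [k4, map_smul, smul_eq_mul]
  simp_rw [hd] at h1
  have h2 := Measure.setIntegral_comp_smul_of_pos (volume : Measure E2)
    (fun z => t * divergence ψ z) Ω ht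
  rw [h2, finrank_euclideanSpace_fin, integral_const_mul, smul_eq_mul] at h1
  have h3 : (t ^ 2)⁻¹ * (t * ∫ z in t • Ω, divergence ψ z) = t⁻¹ * ∫ z in t • Ω, divergence ψ z := by
    field_simp
  rw [h3, inv_mul_le_iff₀ ht] at h1
  exact h1

lemma vol_scale {Ω : Set E2} (h : volume Ω < ⊤) (t : ℝ) : volume (t • Ω) < ⊤ := by
  rw [Measure.addHaar_smul]
  exact ENNReal.mul_lt_top ENNReal.ofReal_lt_top h

/-- The optimality used in the proof. -/
def Opt (p Λ : ℝ) : Prop := ∀ Ω' : Set E2, IsOpen Ω' → volume Ω' < ⊤ → PerLe Ω' p →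
  ∀ f, Tst Ω' f → Λ * GG b f f ≤ AA b f f

lemma opt_gain {p Λ β : ℝ} (h : Opt b p Λ) (hβ0 : 0 ≤ β) (hβ : β < p)
    {Ω' : Set E2} (ho : IsOpen Ω') (hv : volume Ω' < ⊤) (hp : PerLe Ω' (p - β))
    {f : E2 → ℝ} (hf : Tst Ω' f) :
    Λ * (p / (p - β)) ^ 2 * GG b f f ≤ AA b f f := by
  set t : ℝ := p / (p - β) with ht
  have hpβ : 0 < p - β := by linarith
  have hp0 : 0 < p := by linarith
  have ht0 : 0 < t := by positivity
  have h1 : PerLe (t • Ω') p := by
    have := PerLe_scale hp ht0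
    have e : t * (p - β) = p := by rw [ht]; field_simp
    rwa [e] at this
  have h2 := h (t • Ω') (ho.smul₀ ht0.ne') (vol_scale hv t) h1 _ (Tst_scale hf ht0)
  rw [AA_scale b hf.1 (inv_pos.mpr ht0), GG_scale b hf.1 (inv_pos.mpr ht0)] at h2
  have h3 : t ^ 2 * (Λ * GG b f f) ≤ t ^ 2 * ((t⁻¹) ^ 2 * AA b f f) :=
    mul_le_mul_of_nonneg_left h2 (by positivity)
  have h4 : t ^ 2 * ((t⁻¹) ^ 2 * AA b f f) = AA b f f := by
    field_simp
  linarith

lemma opt_gain' {p Λ β : ℝ} (hΛ : 0 ≤ Λ) (h : Opt b p Λ) (hβ0 : 0 ≤ β) (hβ : β < p)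
    {Ω' : Set E2} (ho : IsOpen Ω') (hv : volume Ω' < ⊤) (hp : PerLe Ω' (p - β))
    {f : E2 → ℝ} (hf : Tst Ω' f) :
    (Λ + 2 * Λ * β / p) * GG b f f ≤ AA b f f := by
  refine le_trans ?_ (opt_gain b h hβ0 hβ ho hv hp hf)
  apply mul_le_mul_of_nonneg_right _ (GG_nonneg b f)
  have hpβ : 0 < p - β := by linarith
  have hp0 : 0 < p := by linarith
  have h1 : 1 + β / p ≤ p / (p - β) := by
    rw [le_div_iff₀ hpβ]
    have : (1 + β / p) * (p - β) = p - β ^ 2 / p := by field_simp; ring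
    rw [this]
    have : 0 ≤ β ^ 2 / p := by positivity
    linarith
  have h0 : 0 ≤ β / p := by positivity
  have h2 : (1 + β / p) ^ 2 ≤ (p / (p - β)) ^ 2 := by gcongr
  have h3 : 1 + 2 * (β / p) ≤ (p / (p - β)) ^ 2 := by nlinarith
  have h4 := mul_le_mul_of_nonneg_left h3 hΛ
  have h5 : Λ * (1 + 2 * (β / p)) = Λ + 2 * Λ * β / p := by ring
  linarith

end Pool.Agent.helper33.Buck
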