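import Mathlib
import Pool.Agent.helper33.Buck.Scale

/-!
An optimal set with a corner has no gaps near the corner; the perimeter gain.
-/

open MeasureTheory Set InnerProductSpace Filter
open scoped ContDiff

namespace Pool.Agent.helper33.Buck

variable (b : OrthonormalBasis (Fin 2) ℝ E2) (x₀ : E2)

lemma D_ev {f g : E2 → ℝ} {z : E2} (v : E2) (h : f =ᶠ[nhds z] g) : D v f =ᶠ[nhds z] D v g := by
  have := h.fderiv (𝕜 := ℝ)
  filter_upwards [this] with w hw
  simp only [D]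
  rw [hw]

lemma lap_congr {f g : E2 → ℝ} {z : E2} (h : f =ᶠ[nhds z] g) : lap b f z = lap b g z := by
  simp only [lap]
  rw [D_congr _ (D_ev _ h), D_congr _ (D_ev _ h)]

lemma D_zero_fun (v : E2) : D v (fun _ => (0:ℝ)) = fun _ => 0 := D_const v 0

lemma lap_zero_fun (z : E2) : lap b (fun _ => (0:ℝ)) z = 0 := by
  simp [lap, D_const]

/-- splitting of a test function -/
lemma split {V W : Set E2} (hV : IsOpen V) (hW : IsOpen W) (hVW : Disjoint V W) {Ω : Set E2}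
    {f : E2 → ℝ} (hf : Tst Ω f) (hs : tsupport f ⊆ V ∪ W) :
    Tst (Ω ∩ V) (V.indicator f) ∧ Tst (Ω ∩ W) (W.indicator f) ∧
      AA b f f = AA b (V.indicator f) (V.indicator f) + AA b (W.indicator f) (W.indicator f) ∧
      GG b f f = GG b (V.indicator f) (V.indicator f) + GG b (W.indicator f) (W.indicator f) := by
  have main : ∀ A B : Set E2, IsOpen A → IsOpen B → Disjoint A B → tsupport f ⊆ A ∪ B →
      Tst (Ω ∩ A) (A.indicator f) ∧ (∀ z ∈ A, A.indicator f =ᶠ[nhds z] f) ∧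
      (∀ z ∈ B, A.indicator f =ᶠ[nhds z] fun _ => 0) ∧
      (∀ z, z ∉ tsupport f → A.indicator f =ᶠ[nhds z] fun _ => 0) := by
    intro A B hA hB hAB hsub
    have h1 : ∀ z ∈ A, A.indicator f =ᶠ[nhds z] f := by
      intro z hz
      filter_upwards [hA.mem_nhds hz] with w hw
      exact indicator_of_mem hw f
    have h2 : ∀ z ∈ B, A.indicator f =ᶠ[nhds z] fun _ => 0 := by
      intro z hz
      filter_upwards [hB.mem_nhds hz] with w hw
      exact indicator_of_notMem (fun h => disjoint_left.mp hAB h hw) f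
    have h3 : ∀ z, z ∉ tsupport f → A.indicator f =ᶠ[nhds z] fun _ => 0 := by
      intro z hz
      filter_upwards [notMem_tsupport_iff_eventuallyEq.mp hz] with w hw
      by_cases hwA : w ∈ A
      · rw [indicator_of_mem hwA, hw]; rfl
      · rw [indicator_of_notMem hwA]
    refine ⟨⟨?_, ?_, ?_⟩, h1, h2, h3⟩
    · rw [contDiff_iff_contDiffAt]
      intro z
      by_cases hz : z ∈ tsupport f
      · rcases hsub hz with h | h
        · exact hf.1.contDiffAt.congr_of_eventuallyEq (h1 z h)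
        · exact contDiffAt_const.congr_of_eventuallyEq (h2 z h)
      · exact contDiffAt_const.congr_of_eventuallyEq (h3 z hz)
    · exact HasCompactSupport.intro hf.2.1 (fun z hz => (h3 z hz).eq_of_nhds)
    · have hcl : tsupport (A.indicator f) ⊆ tsupport f ∩ Bᶜ := by
        apply closure_minimal
        · intro z hz
          refine ⟨?_, ?_⟩
          · by_contra h
            exact hz (h3 z h).eq_of_nhds
          · intro h
            exact hz (h2 z h).eq_of_nhds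
        · exact (isClosed_tsupport f).inter hB.isClosed_compl
      intro z hz
      obtain ⟨k1, k2⟩ := hcl hz
      refine ⟨hf.2.2 k1, ?_⟩
      rcases hsub k1 with h | h
      · exact h
      · exact absurd h k2
  obtain ⟨a1, a2, a3, a4⟩ := main V W hV hW hVW hs
  obtain ⟨b1, b2, b3, b4⟩ := main W V hW hV hVW.symm (by rwa [union_comm])
  have hcase : ∀ z, (V.indicator f =ᶠ[nhds z] f ∧ W.indicator f =ᶠ[nhds z] fun _ => 0) ∨
      (V.indicator f =ᶠ[nhds z] (fun _ => 0) ∧ W.indicator f =ᶠ[nhds z] f) := by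
    intro z
    by_cases hz : z ∈ tsupport f
    · rcases hs hz with h | h
      · exact Or.inl ⟨a2 z h, b3 z h⟩
      · exact Or.inr ⟨a3 z h, b2 z h⟩
    · refine Or.inr ⟨a4 z hz, (b4 z hz).trans ?_⟩
      exact (notMem_tsupport_iff_eventuallyEq.mp hz).symm
  refine ⟨a1, b1, ?_, ?_⟩
  · simp only [AA]
    rw [← integral_add (AA_int b a1.1 a1.2.1 a1.1) (AA_int b b1.1 b1.2.1 b1.1)]
    congr 1
    funext z
    rcases hcase z with ⟨h1, h2⟩ | ⟨h1, h2⟩
    · rw [lap_congr b h1, lap_congr b h2, lap_zero_fun]; ring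
    · rw [lap_congr b h1, lap_congr b h2, lap_zero_fun]; ring
  · simp only [GG]
    rw [← integral_add (GG_int b a1.1 a1.2.1 a1.1) (GG_int b b1.1 b1.2.1 b1.1)]
    congr 1
    funext z
    rcases hcase z with ⟨h1, h2⟩ | ⟨h1, h2⟩
    · rw [D_congr _ h1, D_congr _ h1, D_congr _ h2, D_congr _ h2, D_zero_fun, D_zero_fun]; ring
    · rw [D_congr _ h1, D_congr _ h1, D_congr _ h2, D_congr _ h2, D_zero_fun, D_zero_fun]; ring

lemma X_sub (z w : E2) : X b x₀ w - X b x₀ z = X b z w := by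
  simp only [X, lin]
  rw [← inner_sub_right]
  congr 1
  abel

lemma Y_sub (z w : E2) : Y b x₀ w - Y b x₀ z = Y b z w := by
  simp only [Y, lin]
  rw [← inner_sub_right]
  congr 1
  abel

/-- a box around a point of an open set -/
lemma box_mem {Ω : Set E2} (hΩ : IsOpen Ω) {z : E2} (hz : z ∈ Ω) :
    ∃ r : ℝ, 0 < r ∧ ∀ w, |X b x₀ w - X b x₀ z| ≤ r → |Y b x₀ w - Y b x₀ z| ≤ r → w ∈ Ω := by
  obtain ⟨r, hr, hball⟩ := Metric.isOpen_iff.mp hΩ z hz
  refine ⟨r / 3, by positivity, fun w h1 h2 => hball ?_⟩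
  rw [Metric.mem_ball, dist_eq_norm]
  rw [X_sub] at h1
  rw [Y_sub] at h2
  have := norm_sub_le b z w
  linarith

lemma X_small {z : E2} {r : ℝ} (h : ‖z - x₀‖ < r) : X b x₀ z < r := by
  have h1 : |X b x₀ z| ≤ ‖b 0‖ * ‖z - x₀‖ := abs_real_inner_le_norm _ _
  rw [b.norm_eq_one, one_mul] at h1
  exact lt_of_le_of_lt ((le_abs_self _).trans h1) h

theorem no_gap {Ω : Set E2} (hΩ : IsOpen Ω) (hfin : volume Ω < ⊤) {m p Λ : ℝ} (hm : 0 ≤ m)
    (hsec : ∀ z ∈ Ω, 0 < X b x₀ z ∧ |Y b x₀ z| ≤ m * X b x₀ z) (hx : x₀ ∈ closure Ω)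
    (hp : 0 < p) (hP : PerLe Ω p) (hΛ : 0 < Λ) (hopt : Opt b p Λ)
    (hnear : ∀ η : ℝ, 0 < η → ∃ f, Tst Ω f ∧ GG b f f = 1 ∧ AA b f f ≤ Λ + η)
    {t : ℝ} (ht : 0 < t) (htΛ : 4 * t ^ 2 * (Λ + 1) ≤ 1) : ∃ z ∈ Ω, X b x₀ z = t := by
  by_contra hcon
  push Not at hcon
  obtain ⟨C, hC0, hC⟩ := exists_CH
  -- a point of `Ω` close to the corner
  obtain ⟨z0, hz0, hz0'⟩ := Metric.mem_closure_iff.mp hx t ht
  have hz0t : X b x₀ z0 < t := by
    apply X_small
    rwa [dist_comm, dist_eq_norm] at hz0'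
  obtain ⟨r, hr, hbox⟩ := box_mem b x₀ hΩ hz0
  set h : ℝ := min r (t - X b x₀ z0) with hh
  have hh0 : 0 < h := lt_min hr (by linarith)
  obtain ⟨f, hf, hf1, hf0, hfi, hfV⟩ := boxes b x₀ (Ω := Ω) (a := X b x₀ z0) (h := h) (e := t)
    hh0 (N := 1) (by
      have : h ≤ t - X b x₀ z0 := min_le_right _ _
      simp only [Nat.cast_one, one_mul]
      linarith) (by
      intro k hk
      have hk0 : k = 0 := by simpa using hk
      subst hk0
      refine ⟨Y b x₀ z0, r, hr, fun w h1 h2 h3 => hbox w ?_ h3⟩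
      have h4 : h ≤ r := min_le_left _ _
      simp only [Nat.cast_zero, zero_mul, add_zero, zero_add, one_mul] at h1 h2
      rw [abs_of_nonneg (by linarith)]
      linarith)
  simp only [Nat.cast_one, one_mul] at hfV
  -- the gain
  set ϑ : ℝ := min 1 (h / (8 * C * m * t + 1)) with hϑ
  have hϑ0 : 0 < ϑ := by positivity
  have hϑ1 : ϑ ≤ 1 := min_le_left _ _
  have hϑ2 : 4 * C * m * t * ϑ ≤ h / 2 := by
    have h3 : ϑ ≤ h / (8 * C * m * t + 1) := min_le_right _ _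
    rw [le_div_iff₀ (by positivity)] at h3
    nlinarith
  set β : ℝ := min (ϑ * h / 2) (p / 2) with hβ
  have hβ0 : 0 < β := by positivity
  have hβp : β < p := by
    have : β ≤ p / 2 := min_le_right _ _
    linarith
  have hper : PerLe (Ω ∩ {z | t < X b x₀ z}) (p - β) := by
    intro φ hφ
    have h1 := drop b x₀ hΩ hm hsec ht hf hf1 hf0 hfi hP hϑ0.le hϑ1 hC0 hC hφ
    have h2 : ϑ * h ≤ ϑ * ∫ z in Ω, D (b 1) f z := by gcongr
    have h3 : 4 * C * m * t * ϑ ^ 2 ≤ ϑ * (h / 2) := by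
      have := mul_le_mul_of_nonneg_left hϑ2 hϑ0.le
      nlinarith
    have h4 : β ≤ ϑ * h / 2 := min_le_left _ _
    linarith
  -- compare
  have cX := (X_smooth b x₀).continuous
  have hVo : IsOpen {z : E2 | t < X b x₀ z} := isOpen_lt continuous_const cX
  have hWo : IsOpen {z : E2 | X b x₀ z < t} := isOpen_lt cX continuous_const
  have hVW : Disjoint {z : E2 | t < X b x₀ z} {z : E2 | X b x₀ z < t} := by
    rw [disjoint_left]
    intro z h1 h2
    simp only [mem_ofPred_eq] at h1 h2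
    linarith
  have hfinV : volume (Ω ∩ {z | t < X b x₀ z}) < ⊤ := (measure_mono inter_subset_left).trans_lt hfin
  set μ : ℝ := 2 * Λ * β / p with hμ
  have hμ0 : 0 < μ := by positivity
  set η : ℝ := min (μ / 2) (1/2) with hη
  have hη0 : 0 < η := by positivity
  obtain ⟨g, hg, hgG, hgA⟩ := hnear η hη0
  have hsup : tsupport g ⊆ {z : E2 | t < X b x₀ z} ∪ {z : E2 | X b x₀ z < t} := by
    intro z hz
    rcases lt_trichotomy (X b x₀ z) t with h1 | h1 | h1
    · exact Or.inr h1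
    · exact absurd h1 (hcon z (hg.2.2 hz))
    · exact Or.inl h1
  obtain ⟨g1, g2, gA, gG⟩ := split b hVo hWo hVW hg hsup
  have k1 := opt_gain' b hΛ.le hopt hβ0.le hβp (hΩ.inter hVo) hfinV hper g1
  have k2 := GG_le_AA b x₀ g2.1 g2.2.1 ht (fun z hz =>
    ⟨(hsec z (g2.2.2 hz).1).1.le, (le_of_lt (g2.2.2 hz).2)⟩)
  have n1 := GG_nonneg b ({z : E2 | t < X b x₀ z}.indicator g)
  have n2 := GG_nonneg b ({z : E2 | X b x₀ z < t}.indicator g)
  have n3 := AA_nonneg b ({z : E2 | X b x₀ z < t}.indicator g)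
  set G1 := GG b ({z : E2 | t < X b x₀ z}.indicator g) ({z : E2 | t < X b x₀ z}.indicator g)
  set G2 := GG b ({z : E2 | X b x₀ z < t}.indicator g) ({z : E2 | X b x₀ z < t}.indicator g)
  set A1 := AA b ({z : E2 | t < X b x₀ z}.indicator g) ({z : E2 | t < X b x₀ z}.indicator g)
  set A2 := AA b ({z : E2 | X b x₀ z < t}.indicator g) ({z : E2 | X b x₀ z < t}.indicator g)
  have k3 : (Λ + 1) * G2 ≤ A2 := by
    have h1 : (Λ + 1) * G2 ≤ (Λ + 1) * (4 * t ^ 2 * A2) := by gcongr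
    have h2 : (4 * t ^ 2 * (Λ + 1)) * A2 ≤ 1 * A2 := by gcongr
    linarith
  have e1 : η ≤ μ / 2 := min_le_left _ _
  have e2 : η ≤ 1/2 := min_le_right _ _
  -- `Λ + η ≥ A ≥ (Λ + μ) G1 + (Λ + 1) G2 ≥ Λ + 2 η`
  have h5 : (Λ + μ) * G1 + (Λ + 1) * G2 ≤ Λ + η := by linarith
  have h6 : G1 + G2 = 1 := by linarith
  have h7 : 2 * η * G1 ≤ μ * G1 := by
    apply mul_le_mul_of_nonneg_right _ n1; linarith
  have h8 : 2 * η * G2 ≤ 1 * G2 := by
    apply mul_le_mul_of_nonneg_right _ n2; linarith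
  have h9 : Λ + 2 * η ≤ Λ + η := by
    calc Λ + 2 * η = (Λ + 2 * η) * (G1 + G2) := by rw [h6]; ring
      _ ≤ (Λ + μ) * G1 + (Λ + 1) * G2 := by linarith
      _ ≤ _ := h5
  linarith

theorem gain {Ω : Set E2} (hΩ : IsOpen Ω) {m p t₀ : ℝ} (hm : 0 ≤ m)
    (hsec : ∀ z ∈ Ω, 0 < X b x₀ z ∧ |Y b x₀ z| ≤ m * X b x₀ z)
    (hP : PerLe Ω p) (hgap : ∀ t, 0 < t → t ≤ t₀ → ∃ z ∈ Ω, X b x₀ z = t) :
    ∃ c : ℝ, 0 < c ∧ ∀ e, 0 < e → e ≤ t₀ → PerLe (Ω ∩ {z | e < X b x₀ z}) (p - c * e) := by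
  obtain ⟨C, hC0, hC⟩ := exists_CH
  set ϑ : ℝ := min 1 (1 / (16 * C * m + 1)) with hϑ
  have hϑ0 : 0 < ϑ := by positivity
  have hϑ1 : ϑ ≤ 1 := min_le_left _ _
  have hϑ2 : 4 * C * m * ϑ ≤ 1 / 4 := by
    have h3 : ϑ ≤ 1 / (16 * C * m + 1) := min_le_right _ _
    rw [le_div_iff₀ (by positivity)] at h3
    nlinarith
  refine ⟨ϑ / 4, by positivity, ?_⟩
  intro e he het φ hφ
  -- covering of the interval `[e/4, 3e/4]`
  have hbx : ∀ z : Ω, ∃ r : ℝ, 0 < r ∧ ∀ w, |X b x₀ w - X b x₀ z| ≤ r →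
      |Y b x₀ w - Y b x₀ z| ≤ r → w ∈ Ω := fun z => box_mem b x₀ hΩ z.2
  choose r hr hrΩ using hbx
  obtain ⟨δ, hδ, hleb⟩ := lebesgue_number_lemma_of_metric (s := Icc (e/4) (3*e/4))
    (c := fun z : Ω => Metric.ball (X b x₀ z) (r z)) isCompact_Icc
    (fun z => Metric.isOpen_ball) (by
      intro s hs
      obtain ⟨z, hz, hzs⟩ := hgap s (by linarith [hs.1]) (by linarith [hs.2])
      rw [mem_iUnion]
      refine ⟨⟨z, hz⟩, ?_⟩
      rw [← hzs]
      exact Metric.mem_ball_self (hr _))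
  obtain ⟨N, hN⟩ := exists_nat_gt (e / (2 * δ))
  have hN0 : 0 < (N : ℝ) := lt_of_le_of_lt (by positivity) hN
  set h : ℝ := e / (2 * N) with hh
  have hh0 : 0 < h := by positivity
  have hNh : N * h = e / 2 := by rw [hh]; field_simp
  have hhδ : h < δ := by
    rw [div_lt_iff₀ (by positivity)] at hN
    rw [hh, div_lt_iff₀ (by positivity)]
    linarith
  obtain ⟨f, hf, hf1, hf0, hfi, hfV⟩ := boxes b x₀ (Ω := Ω) (a := e / 4) (h := h) (e := e)
    hh0 (N := N) (by rw [hNh]; linarith) (by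
      intro k hk
      have hkN : (k : ℝ) + 1 ≤ N := by exact_mod_cast Finset.mem_range.mp hk
      have hkN' : ((k : ℝ) + 1) * h ≤ N * h := by gcongr
      have hk0 : 0 ≤ (k : ℝ) * h := by positivity
      obtain ⟨z, hz⟩ := hleb (e / 4 + k * h) ⟨by linarith, by linarith⟩
      refine ⟨Y b x₀ z, r z, hr z, fun w h1 h2 h3 => hrΩ z w ?_ h3⟩
      have h4 : X b x₀ w ∈ Metric.ball (e / 4 + k * h) δ := by
        rw [Metric.mem_ball, Real.dist_eq, abs_of_nonneg (by linarith)]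
        linarith
      have h5 := hz h4
      rw [Metric.mem_ball, Real.dist_eq] at h5
      exact h5.le)
  rw [hNh] at hfV
  have h1 := drop b x₀ hΩ hm hsec he hf hf1 hf0 hfi hP hϑ0.le hϑ1 hC0 hC hφ
  have h2 : ϑ * (e / 2) ≤ ϑ * ∫ z in Ω, D (b 1) f z := by gcongr
  have h3 : 4 * C * m * e * ϑ ^ 2 ≤ ϑ * e / 4 := by
    have := mul_le_mul_of_nonneg_left hϑ2 (mul_nonneg hϑ0.le he.le)
    nlinarith
  linarith

end Pool.Agent.helper33.Buck
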