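import Mathlib
import Pool.Agent.helper33.Buck.Gap

/-!
No planar optimal shape has a corner.
-/

open MeasureTheory Set InnerProductSpace Filter
open scoped ContDiff

namespace Pool.Agent.helper33.Buck

/-- a frame adapted to two distinct supporting lines -/
lemma exists_frame {Ω : Set E2} (hΩ : IsOpen Ω) (hne : Ω.Nonempty) {x n₁ n₂ : E2}
    (h1 : ‖n₁‖ = 1) (h2 : ‖n₂‖ = 1) (hn : n₁ ≠ n₂)
    (hs1 : ∀ z ∈ Ω, inner ℝ n₁ (z - x) ≤ 0) (hs2 : ∀ z ∈ Ω, inner ℝ n₂ (z - x) ≤ 0) :
    ∃ (b : OrthonormalBasis (Fin 2) ℝ E2) (m : ℝ), 0 ≤ m ∧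
      ∀ z ∈ Ω, 0 < X b x z ∧ |Y b x z| ≤ m * X b x z := by
  -- strict inequalities
  have strict : ∀ n : E2, ‖n‖ = 1 → (∀ z ∈ Ω, inner ℝ n (z - x) ≤ 0) →
      ∀ z ∈ Ω, inner ℝ n (z - x) < 0 := by
    intro n hn1 hs z hz
    obtain ⟨r, hr, hball⟩ := Metric.isOpen_iff.mp hΩ z hz
    have hw : z + (r / 2) • n ∈ Ω := by
      apply hball
      rw [Metric.mem_ball, dist_eq_norm]
      simp only [add_sub_cancel_left, norm_smul, hn1, mul_one, Real.norm_eq_abs]
      rw [abs_of_pos (by positivity)]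
      linarith
    have h3 := hs _ hw
    have h4 : inner ℝ n (z + (r / 2) • n - x) = inner ℝ n (z - x) + r / 2 := by
      have : z + (r / 2) • n - x = (z - x) + (r / 2) • n := by abel
      rw [this, inner_add_right, inner_smul_right, real_inner_self_eq_norm_sq, hn1]
      ring
    rw [h4] at h3
    linarith
  have st1 := strict n₁ h1 hs1
  have st2 := strict n₂ h2 hs2
  obtain ⟨z0, hz0⟩ := hne
  have hsum : n₁ + n₂ ≠ 0 := by
    intro h
    have h3 : n₂ = -n₁ := by rw [← add_eq_zero_iff_eq_neg', h]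
    have h4 := st1 z0 hz0
    have h5 := st2 z0 hz0
    rw [h3, inner_neg_left] at h5
    linarith
  have hdif : n₁ - n₂ ≠ 0 := sub_ne_zero.mpr hn
  set S₀ : ℝ := ‖n₁ + n₂‖ with hS
  set T₀ : ℝ := ‖n₁ - n₂‖ with hT
  have hS0 : 0 < S₀ := norm_pos_iff.mpr hsum
  have hT0 : 0 < T₀ := norm_pos_iff.mpr hdif
  set v : Fin 2 → E2 := ![-(S₀⁻¹ • (n₁ + n₂)), T₀⁻¹ • (n₁ - n₂)] with hv
  have horth : inner ℝ (n₁ + n₂) (n₁ - n₂) = 0 := by
    rw [inner_add_left, inner_sub_right, inner_sub_right, real_inner_self_eq_norm_sq,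
      real_inner_self_eq_norm_sq, h1, h2, real_inner_comm n₁ n₂]
    ring
  have e01 : inner ℝ (v 0) (v 1) = 0 := by
    change inner ℝ (-(S₀⁻¹ • (n₁ + n₂))) (T₀⁻¹ • (n₁ - n₂)) = 0
    rw [inner_neg_left, real_inner_smul_left, real_inner_smul_right, horth]
    ring
  have hvo : Orthonormal ℝ v := by
    rw [orthonormal_iff_ite]
    intro i j
    fin_cases i <;> fin_cases j
    · simp only [hv, Fin.zero_eta, Fin.isValue, Matrix.cons_val_zero, inner_neg_neg, if_true]
      rw [real_inner_self_eq_norm_sq, norm_smul, norm_inv, Real.norm_of_nonneg hS0.le, ← hS]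
      field_simp
    · exact e01
    · exact (real_inner_comm _ _).trans e01
    · simp only [hv, Fin.mk_one, Fin.isValue, Matrix.cons_val_one, if_true]
      rw [Matrix.cons_val_fin_one, real_inner_self_eq_norm_sq, norm_smul, norm_inv,
        Real.norm_of_nonneg hT0.le, ← hT]
      field_simp
  obtain ⟨b, hb⟩ := Orthonormal.exists_orthonormalBasis_extension_of_card_eq
    (𝕜 := ℝ) (E := E2) (ι := Fin 2) (by simp) (v := v) (s := univ)
    (hvo.comp _ Subtype.val_injective)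
  have b0 : b 0 = -(S₀⁻¹ • (n₁ + n₂)) := hb 0 (mem_univ _)
  have b1 : b 1 = T₀⁻¹ • (n₁ - n₂) := hb 1 (mem_univ _)
  refine ⟨b, S₀ / T₀, by positivity, fun z hz => ?_⟩
  have i1 := st1 z hz
  have i2 := st2 z hz
  have hX : S₀ * X b x z = -(inner ℝ n₁ (z - x) + inner ℝ n₂ (z - x)) := by
    simp only [X, lin]
    rw [b0, inner_neg_left, real_inner_smul_left, inner_add_left]
    field_simp
  have hY : T₀ * Y b x z = inner ℝ n₁ (z - x) - inner ℝ n₂ (z - x) := by
    simp only [Y, lin]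
    rw [b1, real_inner_smul_left, inner_sub_left]
    field_simp
  refine ⟨?_, ?_⟩
  · have : 0 < S₀ * X b x z := by rw [hX]; linarith
    exact (pos_iff_pos_of_mul_pos this).mp hS0
  · have h3 : T₀ * |Y b x z| ≤ S₀ * X b x z := by
      have h4 : T₀ * |Y b x z| = |T₀ * Y b x z| := by rw [abs_mul, abs_of_pos hT0]
      rw [h4, hY, hX, abs_le]
      constructor <;> linarith
    rw [div_mul_eq_mul_div, le_div_iff₀ hT0]
    linarith

lemma mem_TestFun {Ω : Set E2} {u : E2 → ℝ} : u ∈ TestFun Ω ↔ Tst Ω u := Iff.rfl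

lemma ratio_eq (b : OrthonormalBasis (Fin 2) ℝ E2) {u : E2 → ℝ} (hu : ContDiff ℝ ∞ u) :
    (∫ x, Laplacian.laplacian u x ^ 2) / (∫ x, ‖gradient u x‖ ^ 2) = AA b u u / GG b u u := by
  rw [laplacian_eq b hu]
  simp_rw [gradient_sq b]
  simp only [AA, GG, sq]

/-- **No corner.** -/
theorem no_corner {p : ℝ} (hp : 0 < p) {Ω : Set E2} (hopt : IsOptimal p Ω) {x : E2}
    (hx : x ∈ frontier Ω) {n₁ n₂ : E2} (h1 : ‖n₁‖ = 1) (h2 : ‖n₂‖ = 1)
    (hs1 : ∀ z ∈ Ω, inner ℝ n₁ (z - x) ≤ 0) (hs2 : ∀ z ∈ Ω, inner ℝ n₂ (z - x) ≤ 0) :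
    n₁ = n₂ := by
  by_contra hn
  obtain ⟨⟨hΩ, hfin, hper⟩, hmin⟩ := hopt
  have hxc : x ∈ closure Ω := frontier_subset_closure hx
  have hne : Ω.Nonempty := closure_nonempty_iff.mp ⟨x, hxc⟩
  obtain ⟨b, m, hm, hsec⟩ := exists_frame hΩ hne h1 h2 hn hs1 hs2
  rw [perimeter_le_iff] at hper
  obtain ⟨P, hP0, hP⟩ := poincare_fin b hΩ.measurableSet hfin
  -- a nonzero test function
  obtain ⟨z0, hz0⟩ := hne
  obtain ⟨r, hr, hball⟩ := Metric.isOpen_iff.mp hΩ z0 hz0
  let fb : ContDiffBump z0 := ⟨r / 4, r / 2, by positivity, by linarith⟩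
  have hfT : Tst Ω (fun z => fb z) := by
    refine ⟨fb.contDiff, fb.hasCompactSupport, ?_⟩
    have : tsupport (fun z => fb z) = Metric.closedBall z0 (r / 2) := fb.tsupport_eq
    rw [this]
    exact (Metric.closedBall_subset_ball (by linarith)).trans hball
  have hf0 : (fun z => fb z) ≠ 0 := by
    intro h
    have h3 : fb z0 = 1 := fb.one_of_mem_closedBall (Metric.mem_closedBall_self (by positivity))
    have h4 := congrFun h z0
    simp only [Pi.zero_apply] at h4
    rw [h3] at h4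
    exact one_ne_zero h4
  have hfG := Tst_pos b hP hfT hf0
  obtain ⟨l, hl0, -, hl1, hl2⟩ := exists_bottom b hfT hfG (Λ := 0)
    (μ := AA b (fun z => fb z) (fun z => fb z) / GG b (fun z => fb z) (fun z => fb z))
    (fun f hf => by rw [zero_mul]; exact AA_nonneg b f) (by rw [div_mul_cancel₀ _ hfG.ne'])
  -- positivity of the eigenvalue
  have hlpos : 0 < l := by
    have hK : ∀ f, Tst Ω f → GG b f f ≤ (P + 1) * AA b f f := by
      intro f hf
      have h3 : 4 * (Real.sqrt (P + 1) / 2) ^ 2 = P + 1 := by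
        rw [div_pow, Real.sq_sqrt (by positivity)]; ring
      have h4 := GG_le_AA_of b hf.1 hf.2.1 (L := Real.sqrt (P + 1) / 2) (by positivity) (by
        rw [h3]
        have := hP f hf
        have := GG_nonneg b f
        linarith)
      rwa [h3] at h4
    by_contra hcon
    have hl : l = 0 := le_antisymm (not_lt.mp hcon) hl0
    obtain ⟨u, hu, hu1, hu2⟩ := hl2 (1 / (2 * (P + 1))) (by positivity)
    have h3 := hK u hu
    rw [hu1] at h3
    rw [hl, zero_add] at hu2
    have h4 : (P + 1) * AA b u u ≤ (P + 1) * (1 / (2 * (P + 1))) := by gcongr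
    have h5 : (P + 1) * (1 / (2 * (P + 1))) = 1 / 2 := by field_simp
    linarith
  -- the eigenvalue is the bottom
  have hbuck : (l : EReal) ≤ buckling Ω := by
    unfold buckling
    refine le_iInf₂ (fun u hu => ?_)
    obtain ⟨hu1, hu2⟩ := hu
    rw [mem_TestFun] at hu1
    rw [ratio_eq b hu1.1, EReal.coe_le_coe_iff, le_div_iff₀ (Tst_pos b hP hu1 hu2)]
    exact hl1 u hu1
  have hOpt : Opt b p l := by
    intro Ω' ho hv hp' f hf
    rcases (GG_nonneg b f).eq_or_lt with h0 | h0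
    · rw [← h0, mul_zero]
      exact AA_nonneg b f
    · have hf0 : f ≠ 0 := by
        intro h
        rw [h] at h0
        simp only [GG] at h0
        have : ∀ v : E2, D v (0 : E2 → ℝ) = fun _ => 0 := fun v => D_const v 0
        simp [this] at h0
      have h3 := hbuck.trans (hmin Ω' ho hv (perimeter_le_iff.mpr hp'))
      have h4 : buckling Ω' ≤ ((AA b f f / GG b f f : ℝ) : EReal) := by
        unfold buckling
        refine (iInf₂_le f ⟨hf, hf0⟩).trans ?_
        rw [ratio_eq b hf.1]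
      have h5 := EReal.coe_le_coe_iff.mp (h3.trans h4)
      rwa [le_div_iff₀ h0] at h5
  -- no gaps near the corner
  set t₀ : ℝ := 1 / (4 * (l + 1)) with ht₀
  have ht₀0 : 0 < t₀ := by positivity
  have hgap : ∀ t, 0 < t → t ≤ t₀ → ∃ z ∈ Ω, X b x z = t := by
    intro t ht htt
    apply no_gap b x hΩ hfin hm hsec hxc hp hper hlpos hOpt hl2 ht
    rw [ht₀, le_div_iff₀ (by positivity)] at htt
    have h3 : t ≤ 1 := by nlinarith
    nlinarith
  obtain ⟨c, hc, hcP⟩ := gain b x hΩ hm hsec hper hgap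
  -- conclusion
  refine core b x (Ω := Ω) (m := m) (P := P) (Λ := l) (c := 2 * l * c / p)
    (e₀ := min t₀ (p / (2 * c))) hsec hP0 hP hl0 (by positivity) (by positivity) ?_ hl1 ?_
  · intro e he hee f hf
    have he1 : e ≤ t₀ := hee.le.trans (min_le_left _ _)
    have he2 : e < p / (2 * c) := lt_of_lt_of_le hee (min_le_right _ _)
    rw [lt_div_iff₀ (by positivity)] at he2
    have hve : IsOpen (Ω ∩ {z | e < X b x z}) :=
      hΩ.inter (isOpen_lt continuous_const (X_smooth b x).continuous)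
    have h3 := opt_gain' b hl0 hOpt (β := c * e) (by positivity) (by nlinarith) hve
      ((measure_mono inter_subset_left).trans_lt hfin) (hcP e he he1) hf
    have h4 : l + 2 * l * (c * e) / p = l + 2 * l * c / p * e := by ring
    rwa [h4] at h3
  · intro η hη
    obtain ⟨u, hu, hu1, hu2⟩ := hl2 η hη
    refine ⟨u, hu, by rw [hu1]; exact one_pos, by rw [hu1, mul_one]; exact hu2⟩

end Pool.Agent.helper33.Buck
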